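import Mathlib

set_option autoImplicit false
set_option linter.unusedSectionVars false

/-!
Approximate zeros of a polynomial near to a polynomial with a simple zero.
-/

namespace Pool.Agent.Run7.h489.TM

open Polynomial

variable {K : Type} [Field K]

/-- the simplified Newton iteration -/
noncomputable def newt (p : K[X]) (c a : K) : ℕ → K
  | 0 => a
  | l + 1 => newt p c a l - p.eval (newt p c a l) / c

theorem pow_sub_le (f : AbsoluteValue K ℝ) {R : ℝ} (hR : 1 ≤ R) {x y : K} (hx : f x ≤ R)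
    (hy : f y ≤ R) {j : ℕ} (hj : 2 ≤ j) :
    f (x ^ j - y ^ j) ≤ j * R ^ j * ((f x + f y) * f (x - y)) := by
  have h1 : x ^ j - y ^ j = (∑ i ∈ Finset.range j, x ^ i * y ^ (j - 1 - i)) * (x - y) :=
    ((Commute.all x y).geom_sum₂_mul j).symm
  have hxn := f.nonneg x
  have hyn := f.nonneg y
  have hR0 : 0 ≤ R := by linarith
  have h2 : ∀ i ∈ Finset.range j, f (x ^ i * y ^ (j - 1 - i)) ≤ R ^ j * (f x + f y) := by
    intro i hi
    rw [Finset.mem_range] at hi
    rw [map_mul, map_pow, map_pow]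
    rcases Nat.eq_zero_or_pos i with rfl | hpos
    · have h3 : f y ^ (j - 1 - 0) = f y * f y ^ (j - 2) := by
        rw [← pow_succ']
        congr 1
        omega
      rw [pow_zero, one_mul, h3]
      have h4 : f y ^ (j - 2) ≤ R ^ j :=
        (pow_le_pow_left₀ hyn hy _).trans (pow_le_pow_right₀ hR (by omega))
      have h5 : f y * f y ^ (j - 2) ≤ f y * R ^ j := mul_le_mul_of_nonneg_left h4 hyn
      have h6 : 0 ≤ R ^ j * f x := by positivity
      linarith
    · have h3 : f x ^ i = f x * f x ^ (i - 1) := by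
        rw [← pow_succ']
        congr 1
        omega
      rw [h3]
      have h4 : f x ^ (i - 1) ≤ R ^ (i - 1) := pow_le_pow_left₀ hxn hx _
      have h5 : f y ^ (j - 1 - i) ≤ R ^ (j - 1 - i) := pow_le_pow_left₀ hyn hy _
      have h6 : f x ^ (i - 1) * f y ^ (j - 1 - i) ≤ R ^ (i - 1) * R ^ (j - 1 - i) :=
        mul_le_mul h4 h5 (by positivity) (by positivity)
      have h7 : R ^ (i - 1) * R ^ (j - 1 - i) ≤ R ^ j := by
        rw [← pow_add]
        exact pow_le_pow_right₀ hR (by omega)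
      have h8 : f x * (f x ^ (i - 1) * f y ^ (j - 1 - i)) ≤ f x * R ^ j :=
        mul_le_mul_of_nonneg_left (h6.trans h7) hxn
      have h9 : 0 ≤ R ^ j * f y := by positivity
      calc f x * f x ^ (i - 1) * f y ^ (j - 1 - i) = f x * (f x ^ (i - 1) * f y ^ (j - 1 - i)) := by
            ring
        _ ≤ f x * R ^ j := h8
        _ ≤ R ^ j * (f x + f y) := by linarith
  rw [h1, map_mul]
  have h3 : f (∑ i ∈ Finset.range j, x ^ i * y ^ (j - 1 - i)) ≤ j * (R ^ j * (f x + f y)) := by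
    refine (f.sum_le _ _).trans ((Finset.sum_le_sum h2).trans ?_)
    rw [Finset.sum_const, Finset.card_range, nsmul_eq_mul]
  calc f (∑ i ∈ Finset.range j, x ^ i * y ^ (j - 1 - i)) * f (x - y) ≤
        j * (R ^ j * (f x + f y)) * f (x - y) := mul_le_mul_of_nonneg_right h3 (f.nonneg _)
    _ = _ := by ring

/-- the iteration is nearly constant -/
theorem lips (f : AbsoluteValue K ℝ) {g : K[X]} {n : ℕ} (hn : 1 ≤ n) (h1 : g.coeff 1 ≠ 0) {M : ℝ}
    (hM : 0 ≤ M) (R : ℝ) : ∃ C : ℝ, 0 ≤ C ∧ ∀ (p : K[X]) (ρ : ℝ), 0 ≤ ρ → ρ ≤ 1 →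
      p.natDegree ≤ n → (∀ j, f (p.coeff j - g.coeff j) ≤ M * ρ) → ∀ x y : K, f x ≤ R → f y ≤ R →
      f ((x - y) - (p.eval x - p.eval y) / g.coeff 1) ≤ C * ((ρ + f x + f y) * f (x - y)) := by
  obtain ⟨R', hR', hR1⟩ : ∃ R' : ℝ, R ≤ R' ∧ 1 ≤ R' := ⟨max R 1, le_max_left _ _, le_max_right _ _⟩
  set c := g.coeff 1 with hc
  have hcpos : 0 < f c := f.pos h1
  set t : ℕ → ℝ := fun j => (f (g.coeff j) + M) * (j * R' ^ j) with ht
  set D : ℝ := M + ∑ j ∈ Finset.range (n + 1), t j with hD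
  have hR0 : 0 ≤ R' := by linarith
  have hterm : ∀ j, 0 ≤ t j := fun j => by
    have := f.nonneg (g.coeff j)
    simp only [ht]
    positivity
  have hS0 : 0 ≤ ∑ j ∈ Finset.range (n + 1), t j := Finset.sum_nonneg fun j _ => hterm j
  have hD0 : 0 ≤ D := add_nonneg hM hS0
  refine ⟨(n + 1) * D / f c, by positivity, ?_⟩
  intro p ρ hρ0 hρ1 hp hpg x y hx hy
  have hx' := hx.trans hR'
  have hy' := hy.trans hR'
  have hxn := f.nonneg x
  have hyn := f.nonneg y
  have hxy := f.nonneg (x - y)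
  have e1 : (x - y) - (p.eval x - p.eval y) / c =
      (∑ j ∈ Finset.range (n + 1), ((if j = 1 then c else 0) - p.coeff j) * (x ^ j - y ^ j)) / c := by
    rw [eq_div_iff h1, sub_mul, div_mul_cancel₀ _ h1]
    rw [eval_eq_sum_range' (Nat.lt_succ_of_le hp), eval_eq_sum_range' (Nat.lt_succ_of_le hp)]
    have e2 : ∀ j ∈ Finset.range (n + 1),
        ((if j = 1 then c else 0) - p.coeff j) * (x ^ j - y ^ j) =
        (if j = 1 then c * (x ^ j - y ^ j) else 0) - (p.coeff j * x ^ j - p.coeff j * y ^ j) := by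
      intro j _
      split_ifs <;> ring
    rw [Finset.sum_congr rfl e2, Finset.sum_sub_distrib, Finset.sum_sub_distrib]
    congr 1
    rw [Finset.sum_ite_eq' (Finset.range (n + 1)) 1 fun j => c * (x ^ j - y ^ j),
      if_pos (Finset.mem_range.2 (by omega))]
    ring
  set E : ℝ := (ρ + f x + f y) * f (x - y) with hE
  have hE0 : 0 ≤ E := by positivity
  have h2 : ∀ j ∈ Finset.range (n + 1),
      f (((if j = 1 then c else 0) - p.coeff j) * (x ^ j - y ^ j)) ≤ D * E := by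
    intro j hj
    have hle : t j ≤ D := by
      have := Finset.single_le_sum (f := t) (fun i _ => hterm i) hj
      linarith
    rcases Nat.lt_or_ge j 2 with hj2 | hj2
    · rcases Nat.lt_or_ge j 1 with hj1 | hj1
      · have : j = 0 := by omega
        rw [this, pow_zero, pow_zero, sub_self, mul_zero, map_zero]
        positivity
      · have : j = 1 := by omega
        rw [this, if_pos rfl, pow_one, pow_one, map_mul, f.map_sub]
        have h3 := hpg 1
        have h4 : M * ρ * f (x - y) ≤ D * E := by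
          have h5 : M * ρ ≤ D * ρ := mul_le_mul_of_nonneg_right (by linarith) hρ0
          have h6 : ρ * f (x - y) ≤ E := by
            rw [hE]
            exact mul_le_mul_of_nonneg_right (by linarith) hxy
          calc M * ρ * f (x - y) ≤ D * ρ * f (x - y) := mul_le_mul_of_nonneg_right h5 hxy
            _ = D * (ρ * f (x - y)) := by ring
            _ ≤ D * E := mul_le_mul_of_nonneg_left h6 hD0
        exact (mul_le_mul_of_nonneg_right h3 hxy).trans h4
    · rw [if_neg (by omega), zero_sub, map_mul, f.map_neg]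
      have h3 : f (p.coeff j) ≤ f (g.coeff j) + M := by
        have h4 : p.coeff j = g.coeff j + (p.coeff j - g.coeff j) := by ring
        rw [h4]
        refine (f.add_le _ _).trans ?_
        have h5 := hpg j
        have h6 : M * ρ ≤ M := mul_le_of_le_one_right hM hρ1
        linarith
      have h4 := pow_sub_le f hR1 hx' hy' hj2
      have h5 : f (p.coeff j) * f (x ^ j - y ^ j) ≤
          (f (g.coeff j) + M) * (j * R' ^ j * ((f x + f y) * f (x - y))) :=
        mul_le_mul h3 h4 (f.nonneg _) (by have := f.nonneg (g.coeff j); positivity)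
      have h6 : (f (g.coeff j) + M) * (j * R' ^ j * ((f x + f y) * f (x - y))) =
          t j * ((f x + f y) * f (x - y)) := by
        simp only [ht]
        ring
      rw [h6] at h5
      refine h5.trans ?_
      have h7 : (f x + f y) * f (x - y) ≤ E := by
        rw [hE]
        exact mul_le_mul_of_nonneg_right (by linarith) hxy
      exact mul_le_mul hle h7 (by positivity) hD0
  rw [e1, map_div₀, div_le_iff₀ hcpos]
  refine (f.sum_le _ _).trans ((Finset.sum_le_sum h2).trans ?_)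
  rw [Finset.sum_const, Finset.card_range, nsmul_eq_mul]
  have : (n + 1) * D / f c * E * f c = ((n + 1 : ℕ) : ℝ) * (D * E) := by
    push_cast
    field_simp
  rw [this]

/-- the approximate zeros are near to zero -/
theorem newt_le (f : AbsoluteValue K ℝ) {g : K[X]} {n : ℕ} (hn : 1 ≤ n) (h0 : g.coeff 0 = 0)
    (h1 : g.coeff 1 ≠ 0) {M : ℝ} (hM : 0 ≤ M) (l : ℕ) : ∃ C : ℝ, 0 ≤ C ∧
      ∀ (p : K[X]) (ρ : ℝ), 0 ≤ ρ → ρ ≤ 1 → p.natDegree ≤ n →
      (∀ j, f (p.coeff j - g.coeff j) ≤ M * ρ) → f (newt p (g.coeff 1) 0 l) ≤ C * ρ := by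
  induction l with
  | zero =>
    refine ⟨0, le_rfl, fun p ρ _ _ _ _ => ?_⟩
    show f 0 ≤ 0 * ρ
    rw [map_zero, zero_mul]
  | succ l ih =>
    obtain ⟨C, hC, h⟩ := ih
    obtain ⟨D, hD, hL⟩ := lips f hn h1 hM C
    have hcpos : 0 < f (g.coeff 1) := f.pos h1
    refine ⟨D * ((1 + C) * C) + M / f (g.coeff 1), by positivity, ?_⟩
    intro p ρ hρ0 hρ1 hp hpg
    have h2 := h p ρ hρ0 hρ1 hp hpg
    have h3 : f (newt p (g.coeff 1) 0 l) ≤ C := h2.trans (mul_le_of_le_one_right hC hρ1)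
    have h4 := hL p ρ hρ0 hρ1 hp hpg (newt p (g.coeff 1) 0 l) 0 h3 (by rw [map_zero]; exact hC)
    rw [sub_zero, map_zero, add_zero] at h4
    have h5 : newt p (g.coeff 1) 0 (l + 1) =
        (newt p (g.coeff 1) 0 l - (p.eval (newt p (g.coeff 1) 0 l) - p.eval 0) / g.coeff 1) -
          p.eval 0 / g.coeff 1 := by
      show newt p (g.coeff 1) 0 l - p.eval (newt p (g.coeff 1) 0 l) / g.coeff 1 = _
      ring
    rw [h5]
    refine (f.sub_le_add _ _).trans ?_
    have h6 : f (p.eval 0 / g.coeff 1) ≤ M / f (g.coeff 1) * ρ := by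
      rw [map_div₀, ← coeff_zero_eq_eval_zero]
      have h7 := hpg 0
      rw [h0, sub_zero] at h7
      rw [div_mul_eq_mul_div]
      exact div_le_div_of_nonneg_right h7 hcpos.le
    set w := newt p (g.coeff 1) 0 l with hw
    have hwn := f.nonneg w
    have h7 : D * ((ρ + f w) * f w) ≤ D * ((1 + C) * C) * ρ := by
      have h8 : (ρ + f w) * f w ≤ (1 + C) * (C * ρ) :=
        mul_le_mul (by linarith) h2 hwn (by linarith)
      calc D * ((ρ + f w) * f w) ≤ D * ((1 + C) * (C * ρ)) := mul_le_mul_of_nonneg_left h8 hD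
        _ = _ := by ring
    linarith

/-- the distance of an approximate zero and a point where the value is small -/
theorem near0 (f : AbsoluteValue K ℝ) {g : K[X]} {n : ℕ} (hn : 1 ≤ n) (h0 : g.coeff 0 = 0)
    (h1 : g.coeff 1 ≠ 0) {M : ℝ} (hM : 0 ≤ M) : ∃ r : ℝ, 0 < r ∧ r ≤ 1 ∧ ∀ L : ℕ,
      ∃ C : ℝ, 0 ≤ C ∧ ∀ (p : K[X]) (ρ : ℝ), 0 ≤ ρ → ρ ≤ 1 → p.natDegree ≤ n →
      (∀ j, f (p.coeff j - g.coeff j) ≤ M * ρ) → ∀ x : K, f x ≤ r →
        f (x - newt p (g.coeff 1) 0 L) ≤ C * (f (p.eval x) + ρ ^ (L + 1)) := by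
  have hcpos : 0 < f (g.coeff 1) := f.pos h1
  obtain ⟨D, hD, hL⟩ := lips f hn h1 hM 1
  obtain ⟨r, hr0, hr1, hrD⟩ : ∃ r : ℝ, 0 < r ∧ r ≤ 1 ∧ D * r ≤ 1 / 4 := by
    refine ⟨1 / (4 * (D + 1)), by positivity, ?_, ?_⟩
    · rw [div_le_one (by positivity)]
      linarith
    · rw [mul_one_div, div_le_div_iff₀ (by positivity) (by norm_num)]
      linarith
  -- the value controls the point
  obtain ⟨C1, hC1, hx1⟩ : ∃ C1 : ℝ, 0 ≤ C1 ∧ ∀ (p : K[X]) (ρ : ℝ), 0 ≤ ρ → ρ ≤ 1 →
      p.natDegree ≤ n → (∀ j, f (p.coeff j - g.coeff j) ≤ M * ρ) → ∀ x : K, f x ≤ r →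
        f x ≤ C1 * (f (p.eval x) + ρ) := by
    refine ⟨2 * (1 / f (g.coeff 1) + M / f (g.coeff 1) + 1), by positivity, ?_⟩
    intro p ρ hρ0 hρ1 hp hpg x hx
    have h2 := hL p ρ hρ0 hρ1 hp hpg x 0 (hx.trans hr1) (by rw [map_zero]; exact zero_le_one)
    rw [sub_zero, map_zero, add_zero] at h2
    have h3 : x = (x - (p.eval x - p.eval 0) / g.coeff 1) + (p.eval x / g.coeff 1 -
        p.eval 0 / g.coeff 1) := by ring
    have h4 : f x ≤ f (x - (p.eval x - p.eval 0) / g.coeff 1) +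
        (f (p.eval x / g.coeff 1) + f (p.eval 0 / g.coeff 1)) := by
      conv_lhs => rw [h3]
      refine (f.add_le _ _).trans ?_
      have := f.sub_le_add (p.eval x / g.coeff 1) (p.eval 0 / g.coeff 1)
      linarith
    have h5 : f (p.eval 0 / g.coeff 1) ≤ M / f (g.coeff 1) * ρ := by
      rw [map_div₀, ← coeff_zero_eq_eval_zero]
      have h7 := hpg 0
      rw [h0, sub_zero] at h7
      rw [div_mul_eq_mul_div]
      exact div_le_div_of_nonneg_right h7 hcpos.le
    have h6 : f (p.eval x / g.coeff 1) = 1 / f (g.coeff 1) * f (p.eval x) := by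
      rw [map_div₀]
      ring
    have hxn := f.nonneg x
    have hpn := f.nonneg (p.eval x)
    have h7 : D * ((ρ + f x) * f x) ≤ 1 / 4 * ρ + 1 / 4 * f x := by
      have h8 : D * f x ≤ 1 / 4 := (mul_le_mul_of_nonneg_left hx hD).trans hrD
      calc D * ((ρ + f x) * f x) = (D * f x) * (ρ + f x) := by ring
        _ ≤ 1 / 4 * (ρ + f x) := mul_le_mul_of_nonneg_right h8 (by linarith)
        _ = _ := by ring
    have h9 : 0 ≤ 1 / f (g.coeff 1) := by positivity
    have h10 : 0 ≤ M / f (g.coeff 1) := by positivity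
    nlinarith [mul_nonneg h9 hpn, mul_nonneg h10 hρ0, mul_nonneg h9 hρ0, mul_nonneg h10 hpn]
  refine ⟨r, hr0, hr1, fun L => ?_⟩
  induction L with
  | zero =>
    refine ⟨C1, hC1, ?_⟩
    intro p ρ hρ0 hρ1 hp hpg x hx
    show f (x - 0) ≤ _
    rw [sub_zero, zero_add, pow_one]
    exact hx1 p ρ hρ0 hρ1 hp hpg x hx
  | succ L ih =>
    obtain ⟨C, hC, h⟩ := ih
    obtain ⟨C2, hC2, hN⟩ := newt_le f hn h0 h1 hM L
    obtain ⟨D', hD', hL'⟩ := lips f hn h1 hM (max 1 C2)
    -- a bound for the values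
    obtain ⟨V, hV, hval⟩ : ∃ V : ℝ, 0 ≤ V ∧ ∀ (p : K[X]) (ρ : ℝ), 0 ≤ ρ → ρ ≤ 1 →
        p.natDegree ≤ n → (∀ j, f (p.coeff j - g.coeff j) ≤ M * ρ) → ∀ x : K, f x ≤ r →
        f (p.eval x) ≤ V := by
      refine ⟨∑ j ∈ Finset.range (n + 1), (f (g.coeff j) + M), Finset.sum_nonneg fun j _ => by
        have := f.nonneg (g.coeff j)
        linarith, ?_⟩
      intro p ρ hρ0 hρ1 hp hpg x hx
      rw [eval_eq_sum_range' (Nat.lt_succ_of_le hp)]
      refine (f.sum_le _ _).trans (Finset.sum_le_sum fun j _ => ?_)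
      rw [map_mul, map_pow]
      have h3 : f (p.coeff j) ≤ f (g.coeff j) + M := by
        have h4 : p.coeff j = g.coeff j + (p.coeff j - g.coeff j) := by ring
        rw [h4]
        refine (f.add_le _ _).trans ?_
        have h5 := hpg j
        have h6 : M * ρ ≤ M := mul_le_of_le_one_right hM hρ1
        linarith
      have h4 : f x ^ j ≤ 1 := pow_le_one₀ (f.nonneg x) (hx.trans hr1)
      calc f (p.coeff j) * f x ^ j ≤ f (p.coeff j) * 1 :=
            mul_le_mul_of_nonneg_left h4 (f.nonneg _)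
        _ ≤ _ := by linarith
    refine ⟨1 / f (g.coeff 1) + D' * ((1 + C1 + C2 + C1) * C * (V + 2)), by positivity, ?_⟩
    intro p ρ hρ0 hρ1 hp hpg x hx
    set w := newt p (g.coeff 1) 0 L with hw
    have hw1 := hN p ρ hρ0 hρ1 hp hpg
    rw [← hw] at hw1
    have h2 := h p ρ hρ0 hρ1 hp hpg x hx
    rw [← hw] at h2
    have h3 := hL' p ρ hρ0 hρ1 hp hpg x w ((hx.trans hr1).trans (le_max_left _ _))
      ((hw1.trans (mul_le_of_le_one_right hC2 hρ1)).trans (le_max_right _ _))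
    have h4 := hx1 p ρ hρ0 hρ1 hp hpg x hx
    have h5 := hval p ρ hρ0 hρ1 hp hpg x hx
    have h6 : x - newt p (g.coeff 1) 0 (L + 1) =
        ((x - w) - (p.eval x - p.eval w) / g.coeff 1) + p.eval x / g.coeff 1 := by
      show x - (w - p.eval w / g.coeff 1) = _
      ring
    rw [h6]
    refine (f.add_le _ _).trans ?_
    have h7 : f (p.eval x / g.coeff 1) = 1 / f (g.coeff 1) * f (p.eval x) := by
      rw [map_div₀]
      ring
    rw [h7]
    set e := f (p.eval x) with he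
    have he0 : 0 ≤ e := f.nonneg _
    have hq0 : 0 ≤ ρ ^ (L + 1) := pow_nonneg hρ0 _
    have hq1 : ρ ^ (L + 1) ≤ 1 := pow_le_one₀ hρ0 hρ1
    have h8 : ρ + f x + f w ≤ (1 + C1 + C2 + C1) * (e + ρ) := by
      nlinarith [mul_nonneg hC2 he0, mul_nonneg hC1 he0, mul_nonneg hC1 hρ0]
    have h9 : (e + ρ) * (e + ρ ^ (L + 1)) ≤ (V + 2) * (e + ρ ^ (L + 1 + 1)) := by
      have h10 : ρ ^ (L + 1 + 1) = ρ * ρ ^ (L + 1) := by rw [pow_succ]; ring
      rw [h10]
      nlinarith [mul_nonneg he0 hq0, mul_nonneg hρ0 hq0, mul_nonneg hV he0,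
        mul_nonneg hV (mul_nonneg hρ0 hq0)]
    have h10 : (ρ + f x + f w) * f (x - w) ≤
        (1 + C1 + C2 + C1) * C * (V + 2) * (e + ρ ^ (L + 1 + 1)) := by
      calc (ρ + f x + f w) * f (x - w) ≤
            ((1 + C1 + C2 + C1) * (e + ρ)) * (C * (e + ρ ^ (L + 1))) :=
          mul_le_mul h8 h2 (f.nonneg _) (by positivity)
        _ = (1 + C1 + C2 + C1) * C * ((e + ρ) * (e + ρ ^ (L + 1))) := by ring
        _ ≤ (1 + C1 + C2 + C1) * C * ((V + 2) * (e + ρ ^ (L + 1 + 1))) :=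
          mul_le_mul_of_nonneg_left h9 (by positivity)
        _ = _ := by ring
    have h11 := mul_le_mul_of_nonneg_left h10 hD'
    have h12 : 0 ≤ 1 / f (g.coeff 1) * ρ ^ (L + 1 + 1) := by positivity
    have h13 : (1 / f (g.coeff 1) + D' * ((1 + C1 + C2 + C1) * C * (V + 2))) *
        (e + ρ ^ (L + 1 + 1)) = 1 / f (g.coeff 1) * e + 1 / f (g.coeff 1) * ρ ^ (L + 1 + 1) +
        D' * ((1 + C1 + C2 + C1) * C * (V + 2) * (e + ρ ^ (L + 1 + 1))) := by ring
    rw [h13]
    linarith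

end Pool.Agent.Run7.h489.TM
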