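import Mathlib
import Pool.Agent.Run7.h489.TM.Loc

set_option autoImplicit false
set_option linter.unusedSectionVars false

/-!
Approximate zeros: the general case.
-/

namespace Pool.Agent.Run7.h489.TM

open Polynomial

variable {K : Type} [Field K]

theorem newt_taylor (p : K[X]) (c α : K) (l : ℕ) :
    newt p c α l = newt (taylor α p) c 0 l + α := by
  induction l with
  | zero => simp [newt]
  | succ l ih =>
    show newt p c α l - p.eval (newt p c α l) / c =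
      newt (taylor α p) c 0 l - (taylor α p).eval (newt (taylor α p) c 0 l) / c + α
    rw [taylor_eval, ← ih]
    rw [ih]
    ring

theorem taylor_close (f : AbsoluteValue K ℝ) (α : K) (N : ℕ) : ∃ D : ℝ, 0 ≤ D ∧
    ∀ (q : K[X]) (ρ : ℝ), 0 ≤ ρ → q.natDegree ≤ N → (∀ j, f (q.coeff j) ≤ ρ) →
      ∀ j, f ((taylor α q).coeff j) ≤ D * ρ := by
  set t : ℕ → ℕ → ℝ := fun i j => f (((X + C α) ^ i : K[X]).coeff j) with ht
  have ht0 : ∀ i j, 0 ≤ t i j := fun i j => f.nonneg _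
  refine ⟨∑ j ∈ Finset.range (N + 1), ∑ i ∈ Finset.range (N + 1), t i j,
    Finset.sum_nonneg fun j _ => Finset.sum_nonneg fun i _ => ht0 i j, ?_⟩
  intro q ρ hρ hq hc j
  have hD0 : 0 ≤ ∑ j ∈ Finset.range (N + 1), ∑ i ∈ Finset.range (N + 1), t i j :=
    Finset.sum_nonneg fun j _ => Finset.sum_nonneg fun i _ => ht0 i j
  rcases Nat.lt_or_ge j (N + 1) with hj | hj
  · have h1 : (taylor α q).coeff j =
        ∑ i ∈ Finset.range (N + 1), q.coeff i * ((X + C α) ^ i : K[X]).coeff j := by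
      conv_lhs => rw [q.as_sum_range' (N + 1) (Nat.lt_succ_of_le hq)]
      rw [map_sum, finsetSum_coeff]
      refine Finset.sum_congr rfl fun i _ => ?_
      rw [taylor_monomial, coeff_C_mul]
    rw [h1]
    have h2 : f (∑ i ∈ Finset.range (N + 1), q.coeff i * ((X + C α) ^ i : K[X]).coeff j) ≤
        (∑ i ∈ Finset.range (N + 1), t i j) * ρ := by
      rw [Finset.sum_mul]
      refine (f.sum_le _ _).trans (Finset.sum_le_sum fun i _ => ?_)
      rw [map_mul, mul_comm]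
      exact mul_le_mul_of_nonneg_left (hc i) (ht0 i j)
    refine h2.trans (mul_le_mul_of_nonneg_right ?_ hρ)
    exact Finset.single_le_sum (f := fun j => ∑ i ∈ Finset.range (N + 1), t i j)
      (fun j _ => Finset.sum_nonneg fun i _ => ht0 i j) (Finset.mem_range.2 hj)
  · rw [coeff_eq_zero_of_natDegree_lt (by rw [natDegree_taylor]; omega), map_zero]
    positivity

/-- points near to a simple zero -/
theorem near1 (f : AbsoluteValue K ℝ) {g : K[X]} {n : ℕ} (hn : 1 ≤ n) (hg : g.natDegree ≤ n)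
    {α : K} (h0 : g.eval α = 0) (h1 : g.derivative.eval α ≠ 0) {M : ℝ} (hM : 0 ≤ M) :
    ∃ r : ℝ, 0 < r ∧ r ≤ 1 ∧ ∀ L : ℕ,
      ∃ C : ℝ, 0 ≤ C ∧ ∀ (p : K[X]) (ρ : ℝ), 0 ≤ ρ → ρ ≤ 1 → p.natDegree ≤ n →
      (∀ j, f (p.coeff j - g.coeff j) ≤ M * ρ) → ∀ x : K, f (x - α) ≤ r →
        f (x - newt p (g.derivative.eval α) α L) ≤ C * (f (p.eval x) + ρ ^ (L + 1)) := by
  obtain ⟨D, hD, hDq⟩ := taylor_close f α n
  obtain ⟨r, hr0, hr1, h⟩ := near0 f (g := taylor α g) hn (by rw [taylor_coeff_zero, h0])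
    (by rw [taylor_coeff_one]; exact h1) (M := D * M) (by positivity)
  refine ⟨r, hr0, hr1, fun L => ?_⟩
  obtain ⟨C, hC, hL⟩ := h L
  refine ⟨C, hC, ?_⟩
  intro p ρ hρ0 hρ1 hp hpg x hx
  have h2 := hL (taylor α p) ρ hρ0 hρ1 (by rw [natDegree_taylor]; exact hp) (by
    intro j
    have h3 := hDq (p - g) (M * ρ) (by positivity)
      ((natDegree_sub_le _ _).trans (max_le hp hg)) (by
        intro j
        rw [coeff_sub]
        exact hpg j) j
    rw [map_sub, coeff_sub] at h3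
    linarith) (x - α) hx
  rw [taylor_coeff_one, taylor_eval, sub_add_cancel] at h2
  rw [newt_taylor]
  have h3 : x - (newt (taylor α p) (g.derivative.eval α) 0 L + α) =
      x - α - newt (taylor α p) (g.derivative.eval α) 0 L := by ring
  rw [h3]
  exact h2

/-- points away from a zero -/
theorem far0 (f : AbsoluteValue K ℝ) (α : K) {r : ℝ} (hr : 0 < r) : ∃ c : ℝ, 0 < c ∧
    ∀ x : K, r < f (x - α) → c * max 1 (f x) ≤ f (x - α) := by
  have hα := f.nonneg α
  refine ⟨min (1 / 2) (r / (2 * (1 + f α))), by positivity, ?_⟩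
  intro x hx
  rcases le_or_gt (f x) (2 * (1 + f α)) with h | h
  · have h1 : max 1 (f x) ≤ 2 * (1 + f α) := max_le (by linarith) h
    have h2 : min (1 / 2) (r / (2 * (1 + f α))) * max 1 (f x) ≤
        r / (2 * (1 + f α)) * (2 * (1 + f α)) :=
      mul_le_mul (min_le_right _ _) h1 (by positivity) (by positivity)
    rw [div_mul_cancel₀ _ (by positivity)] at h2
    linarith
  · have h1 : max 1 (f x) = f x := max_eq_right (by linarith)
    rw [h1]
    have h2 : f x ≤ f (x - α) + f α := by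
      have := f.add_le (x - α) α
      rwa [sub_add_cancel] at this
    have h3 : min (1 / 2) (r / (2 * (1 + f α))) * f x ≤ 1 / 2 * f x :=
      mul_le_mul_of_nonneg_right (min_le_left _ _) (f.nonneg x)
    linarith

theorem far1 (f : AbsoluteValue K ℝ) {r : ℝ} (hr : 0 < r) (R : Multiset K) :
    ∃ c : ℝ, 0 < c ∧ ∀ x : K, (∀ α ∈ R, r < f (x - α)) →
      c * max 1 (f x) ^ R.card ≤ f ((R.map fun α => x - α).prod) := by
  induction R using Multiset.induction_on with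
  | empty => exact ⟨1, one_pos, fun x _ => by simp⟩
  | cons α R ih =>
    obtain ⟨c, hc, h⟩ := ih
    obtain ⟨c', hc', h'⟩ := far0 f α hr
    refine ⟨c' * c, by positivity, fun x hx => ?_⟩
    rw [Multiset.card_cons, Multiset.map_cons, Multiset.prod_cons, map_mul, pow_succ]
    have h1 := h x fun β hβ => hx β (Multiset.mem_cons_of_mem hβ)
    have h2 := h' x (hx α (Multiset.mem_cons_self _ _))
    calc c' * c * (max 1 (f x) ^ R.card * max 1 (f x)) =
          (c' * max 1 (f x)) * (c * max 1 (f x) ^ R.card) := by ring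
      _ ≤ _ := mul_le_mul h2 h1 (by positivity) (f.nonneg _)

/-- the values of a polynomial near to a split one -/
theorem far2 (f : AbsoluteValue K ℝ) {g : K[X]} {n : ℕ} (hg : g.natDegree = n) (hg0 : g ≠ 0)
    (hs : g.Splits) {M : ℝ} (hM : 0 ≤ M) {r : ℝ} (hr : 0 < r) :
    ∃ ρ₀ c : ℝ, 0 < ρ₀ ∧ ρ₀ ≤ 1 ∧ 0 < c ∧ ∀ (p : K[X]) (ρ : ℝ), 0 ≤ ρ → ρ ≤ ρ₀ →
      p.natDegree ≤ n → (∀ j, f (p.coeff j - g.coeff j) ≤ M * ρ) → ∀ x : K,
      (∀ α ∈ g.roots, r < f (x - α)) → c * max 1 (f x) ^ n ≤ f (p.eval x) := by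
  obtain ⟨c, hc, h⟩ := far1 f hr g.roots
  have hl : 0 < f g.leadingCoeff := f.pos (leadingCoeff_ne_zero.2 hg0)
  set c' := f g.leadingCoeff * c with hc'
  have hc'pos : 0 < c' := by positivity
  have hcard : g.roots.card = n := by rw [← hg]; exact hs.natDegree_eq_card_roots.symm
  refine ⟨min 1 (c' / (2 * (n + 1) * (M + 1))), c' / 2, by positivity, min_le_left _ _,
    by positivity, ?_⟩
  intro p ρ hρ0 hρ hp hpg x hx
  have h1 : c' * max 1 (f x) ^ n ≤ f (g.eval x) := by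
    rw [hs.eval_eq_prod_roots, map_mul, hc', mul_assoc]
    have := h x hx
    rw [hcard] at this
    exact mul_le_mul_of_nonneg_left this hl.le
  have h2 : f ((g - p).eval x) ≤ (n + 1) * (M * ρ) * max 1 (f x) ^ n := by
    rw [eval_eq_sum_range' (n := n + 1)
      (Nat.lt_succ_of_le ((natDegree_sub_le _ _).trans (max_le hg.le hp)))]
    refine (f.sum_le _ _).trans ?_
    have h3 : ∀ j ∈ Finset.range (n + 1), f ((g - p).coeff j * x ^ j) ≤
        M * ρ * max 1 (f x) ^ n := by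
      intro j hj
      rw [map_mul, map_pow, coeff_sub, f.map_sub]
      refine mul_le_mul (hpg j) ?_ (pow_nonneg (f.nonneg _) _) (by positivity)
      exact (pow_le_pow_left₀ (f.nonneg _) (le_max_right 1 (f x)) j).trans
        (pow_le_pow_right₀ (le_max_left _ _) (by rw [Finset.mem_range] at hj; omega))
    refine (Finset.sum_le_sum h3).trans ?_
    rw [Finset.sum_const, Finset.card_range, nsmul_eq_mul]
    push_cast
    apply le_of_eq
    ring
  have h3 : (n + 1) * (M * ρ) ≤ c' / 2 := by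
    have h4 : ρ ≤ c' / (2 * (n + 1) * (M + 1)) := hρ.trans (min_le_right _ _)
    rw [le_div_iff₀ (by positivity)] at h4
    nlinarith [mul_nonneg (Nat.cast_nonneg (α := ℝ) n) hρ0]
  have h4 : f (g.eval x) ≤ f (p.eval x) + f ((g - p).eval x) := by
    have := f.add_le (p.eval x) ((g - p).eval x)
    rwa [← eval_add, add_sub_cancel] at this
  have h5 : (n + 1) * (M * ρ) * max 1 (f x) ^ n ≤ c' / 2 * max 1 (f x) ^ n :=
    mul_le_mul_of_nonneg_right h3 (by positivity)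
  linarith

/-- the dichotomy -/
theorem dich (f : AbsoluteValue K ℝ) {g : K[X]} {n : ℕ} (hn : 1 ≤ n) (hg : g.natDegree = n)
    (hs : g.Splits) (hsep : ∀ α, g.eval α = 0 → g.derivative.eval α ≠ 0) {M : ℝ} (hM : 0 ≤ M) :
    ∃ ρ₀ : ℝ, 0 < ρ₀ ∧ ρ₀ ≤ 1 ∧ ∀ L : ℕ, ∃ C : ℝ, 1 ≤ C ∧ ∀ (p : K[X]) (ρ : ℝ), 0 ≤ ρ → ρ ≤ ρ₀ →
      p.natDegree ≤ n → (∀ j, f (p.coeff j - g.coeff j) ≤ M * ρ) → ∀ x : K,
      (∃ α ∈ g.roots, f (x - newt p (g.derivative.eval α) α L) ≤
        C * (f (p.eval x) + ρ ^ (L + 1))) ∨ max 1 (f x) ^ n ≤ C * f (p.eval x) := by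
  classical
  have hg0 : g ≠ 0 := by
    rintro rfl
    rw [natDegree_zero] at hg
    omega
  have hch : ∀ α : g.roots.toFinset, ∃ r : ℝ, 0 < r ∧ r ≤ 1 ∧ ∀ L : ℕ,
      ∃ C : ℝ, 0 ≤ C ∧ ∀ (p : K[X]) (ρ : ℝ), 0 ≤ ρ → ρ ≤ 1 → p.natDegree ≤ n →
      (∀ j, f (p.coeff j - g.coeff j) ≤ M * ρ) → ∀ x : K, f (x - α.1) ≤ r →
        f (x - newt p (g.derivative.eval α.1) α.1 L) ≤ C * (f (p.eval x) + ρ ^ (L + 1)) := by
    intro α
    have h0 : g.eval α.1 = 0 := (mem_roots hg0).1 (Multiset.mem_toFinset.1 α.2)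
    exact near1 f hn hg.le h0 (hsep _ h0) hM
  choose r hr0 hr1 hr using hch
  obtain ⟨r', hr'0, hr'⟩ : ∃ r' : ℝ, 0 < r' ∧ ∀ α, r' ≤ r α := by
    rcases isEmpty_or_nonempty (g.roots.toFinset : Set K) with h | h
    · exact ⟨1, one_pos, fun α => (h.false α).elim⟩
    · obtain ⟨α0, hα0⟩ := Finite.exists_min r
      exact ⟨r α0, hr0 _, hα0⟩
  obtain ⟨ρ₀, c, hρ₀, hρ₁, hc, hfar⟩ := far2 f hg hg0 hs hM hr'0
  refine ⟨ρ₀, hρ₀, hρ₁, fun L => ?_⟩
  choose C hC0 hC using fun α => hr α L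
  refine ⟨1 + 1 / c + ∑ α, C α, ?_, ?_⟩
  · have h1 : 0 ≤ ∑ α, C α := Finset.sum_nonneg fun α _ => hC0 α
    have h2 : 0 ≤ 1 / c := by positivity
    linarith
  intro p ρ hρ0 hρ hp hpg x
  have hS : 0 ≤ ∑ α, C α := Finset.sum_nonneg fun α _ => hC0 α
  have hc2 : 0 ≤ 1 / c := by positivity
  by_cases h : ∀ α ∈ g.roots, r' < f (x - α)
  · right
    have h1 := hfar p ρ hρ0 hρ hp hpg x h
    have h2 : max 1 (f x) ^ n ≤ 1 / c * f (p.eval x) := by
      rw [one_div, ← div_eq_inv_mul, le_div_iff₀ hc]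
      linarith
    refine h2.trans (mul_le_mul_of_nonneg_right (by linarith) (f.nonneg _))
  · left
    push Not at h
    obtain ⟨α, hα, hx⟩ := h
    refine ⟨α, hα, ?_⟩
    have hα' : α ∈ g.roots.toFinset := Multiset.mem_toFinset.2 hα
    have h1 := hC ⟨α, hα'⟩ p ρ hρ0 (hρ.trans hρ₁) hp hpg x (hx.trans (hr' ⟨α, hα'⟩))
    refine h1.trans (mul_le_mul_of_nonneg_right ?_ (by
      have := f.nonneg (p.eval x)
      positivity))
    have h2 := Finset.single_le_sum (f := C) (fun α _ => hC0 α) (Finset.mem_univ ⟨α, hα'⟩)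
    linarith

end Pool.Agent.Run7.h489.TM
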