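import Mathlib
import Pool.Agent.Run7.h489.LV.SU

set_option autoImplicit false
set_option linter.unusedSectionVars false

/-!
Heights and denominators.
-/

namespace Pool.Agent.Run7.h489.TM

open MvPolynomial Height NumberField IsDedekindDomain
open Pool.Agent.W180.OP (Pl av wt fv nrm lam lam_eq wt_nonneg le_nrm exists_nrm nrm_pos)
open Pool.Agent.R404.TC (Sp cnt fmtS)
open Pool.Agent.Run7.h489.LV (IsU IsI prod_formula)

variable {k : Type} [Field k] [NumberField k] {S : Finset (HeightOneSpectrum (𝓞 k))}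

/-- the contribution of the denominator outside of `S` to the height -/
noncomputable def den (S : Finset (HeightOneSpectrum (𝓞 k))) (s : k) : ℝ :=
  ∑ᶠ (v : HeightOneSpectrum (𝓞 k)) (_ : v ∉ S), Real.log (max (fv v s) 1)

theorem den_nonneg (S : Finset (HeightOneSpectrum (𝓞 k))) (s : k) : 0 ≤ den S s :=
  finsum_nonneg fun _ => finsum_nonneg fun _ => Real.log_nonneg (le_max_right _ _)

/-- the height of a point with a coordinate which is a unit -/
theorem sum_nrm {n : ℕ} {P : Fin n → k} (j : Fin n) (hj : IsU S (P j)) :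
    logHeight P = ∑ v ∈ Sp S, wt v * Real.log (nrm (av v) P) +
      ∑ᶠ (v : HeightOneSpectrum (𝓞 k)) (_ : v ∉ S), Real.log (nrm (fv v) P) := by
  have hP0 : P ≠ 0 := fun h => hj.1 (by rw [h]; rfl)
  have he : eval P (X j : MvPolynomial (Fin n) k) = P j := eval_X j
  have h1 := fmtS 1 (X j : MvPolynomial (Fin n) k) hP0 (by rw [he]; exact hj.1) S
  have h2 : cnt S 1 (X j : MvPolynomial (Fin n) k) P =
      ∑ᶠ (v : HeightOneSpectrum (𝓞 k)) (_ : v ∉ S), Real.log (nrm (fv v) P) := by
    unfold cnt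
    refine finsum_congr fun v => finsum_congr fun hv => ?_
    rw [lam_eq (fv v) 1 _ hP0 (by rw [he]; exact hj.1), he, hj.2 v hv, Real.log_one, Nat.cast_one,
      one_mul, sub_zero]
  have h3 : ∑ v ∈ Sp S, wt v * lam (av v) 1 (X j : MvPolynomial (Fin n) k) P =
      ∑ v ∈ Sp S, wt v * Real.log (nrm (av v) P) := by
    have h4 : ∀ v ∈ Sp S, wt v * lam (av v) 1 (X j : MvPolynomial (Fin n) k) P =
        wt v * Real.log (nrm (av v) P) - wt v * Real.log (av v (P j)) := by
      intro v _
      rw [lam_eq (av v) 1 _ hP0 (by rw [he]; exact hj.1), he, Nat.cast_one, one_mul, mul_sub]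
    rw [Finset.sum_congr rfl h4, Finset.sum_sub_distrib, prod_formula hj, sub_zero]
  rw [h2, h3, Nat.cast_one, one_mul] at h1
  linarith

theorem nrm_pair (f : AbsoluteValue k ℝ) (s : k) : nrm f (![s, 1] : Fin 2 → k) = max (f s) 1 := by
  apply le_antisymm
  · obtain ⟨i, hi⟩ := exists_nrm f two_pos (![s, 1] : Fin 2 → k)
    rw [← hi]
    fin_cases i
    · exact le_max_left _ _
    · have h2 : f ((![s, 1] : Fin 2 → k) 1) = 1 := map_one _
      exact h2.le.trans (le_max_right _ _)
  · refine max_le (le_nrm f (![s, 1] : Fin 2 → k) 0) ?_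
    have h2 : f ((![s, 1] : Fin 2 → k) 1) = 1 := map_one _
    have h3 := le_nrm f (![s, 1] : Fin 2 → k) 1
    rwa [h2] at h3

theorem height_den (S : Finset (HeightOneSpectrum (𝓞 k))) (s : k) :
    logHeight₁ s = ∑ v ∈ Sp S, wt v * Real.log (max (av v s) 1) + den S s := by
  have h1 := sum_nrm (S := S) (P := (![s, 1] : Fin 2 → k)) 1 IsU.one
  rw [← logHeight₁_eq_logHeight] at h1
  rw [h1]
  congr 1
  · exact Finset.sum_congr rfl fun v _ => by rw [nrm_pair]
  · exact finsum_congr fun v => finsum_congr fun _ => by rw [nrm_pair]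

theorem sum_max_le (S : Finset (HeightOneSpectrum (𝓞 k))) (s : k) :
    ∑ v ∈ Sp S, wt v * Real.log (max (av v s) 1) ≤ logHeight₁ s := by
  have h1 := height_den S s
  have h2 := den_nonneg S s
  linarith

/-- the height of a point with the norms of `s` outside of `S` -/
theorem sum_nrm_den {n : ℕ} {P : Fin n → k} (j : Fin n) (hj : IsU S (P j)) (s : k)
    (h : ∀ v ∉ S, nrm (fv v) P = max (fv v s) 1) :
    logHeight P = ∑ v ∈ Sp S, wt v * Real.log (nrm (av v) P) + den S s := by
  rw [sum_nrm j hj]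
  congr 1
  exact finsum_congr fun v => finsum_congr fun hv => by rw [h v hv]

/-- the values of an integral point -/
theorem int_ineq {n : ℕ} {c s : k} (hc : c ≠ 0) (h : ∀ v ∉ S, max (fv v s) 1 ^ n ≤ fv v c) :
    n * den S s ≤ -∑ v ∈ Sp S, wt v * Real.log (av v c) := by
  have hP0 : (![s, 1] : Fin 2 → k) ≠ 0 := fun h => one_ne_zero (congrFun h 1)
  have he : eval (![s, 1] : Fin 2 → k) (C c : MvPolynomial (Fin 2) k) = c := eval_C c
  have h1 := fmtS n (C c : MvPolynomial (Fin 2) k) hP0 (by rw [he]; exact hc) S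
  have h2 : cnt S n (C c : MvPolynomial (Fin 2) k) ![s, 1] ≤ 0 := by
    unfold cnt
    have h3 : 0 ≤ ∑ᶠ (v : HeightOneSpectrum (𝓞 k)) (_ : v ∉ S),
        -lam (fv v) n (C c : MvPolynomial (Fin 2) k) ![s, 1] := by
      refine finsum_nonneg fun v => finsum_nonneg fun hv => ?_
      rw [lam_eq (fv v) n _ hP0 (by rw [he]; exact hc), he, nrm_pair]
      have h4 := Real.log_le_log (pow_pos (lt_of_lt_of_le one_pos (le_max_right (fv v s) 1)) n)
        (h v hv)
      rw [Real.log_pow] at h4
      linarith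
    have h5 : ∑ᶠ (v : HeightOneSpectrum (𝓞 k)) (_ : v ∉ S),
        -lam (fv v) n (C c : MvPolynomial (Fin 2) k) ![s, 1] =
        -∑ᶠ (v : HeightOneSpectrum (𝓞 k)) (_ : v ∉ S),
          lam (fv v) n (C c : MvPolynomial (Fin 2) k) ![s, 1] := by
      rw [← finsum_neg_distrib]
      exact finsum_congr fun v => finsum_neg_distrib _
    linarith
  have h3 : ∑ v ∈ Sp S, wt v * lam (av v) n (C c : MvPolynomial (Fin 2) k) ![s, 1] =
      n * ∑ v ∈ Sp S, wt v * Real.log (max (av v s) 1) -
        ∑ v ∈ Sp S, wt v * Real.log (av v c) := by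
    rw [Finset.mul_sum, ← Finset.sum_sub_distrib]
    refine Finset.sum_congr rfl fun v _ => ?_
    rw [lam_eq (av v) n _ hP0 (by rw [he]; exact hc), he, nrm_pair]
    ring
  rw [h3, ← logHeight₁_eq_logHeight, height_den S s] at h1
  linarith

end Pool.Agent.Run7.h489.TM
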