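import Mathlib
import Pool.Agent.R405.SchP
import Pool.Agent.Run7.h489.TM.Den

set_option autoImplicit false
set_option linter.unusedSectionVars false

/-!
The subspace theorem for the vectors `(u^ν, u^ν s)`.
-/

namespace Pool.Agent.Run7.h489.TM

open Height NumberField IsDedekindDomain
open Pool.Agent.W180.OP (Pl av wt fv nrm wt_nonneg le_nrm exists_nrm nrm_pos)
open Pool.Agent.R404.TC (Sp)
open Pool.Agent.R405 (Good sch)
open Pool.Agent.Run7.h489.LV (IsU IsI prod_formula)

/-- the monomial `u^ν` -/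
def mono {F : Type} [Field F] {m : ℕ} (u : Fin m → F) (ν : Fin m → ℤ) : F := ∏ i, u i ^ ν i

section mono

variable {F : Type} [Field F] {m : ℕ}

theorem mono_zero (u : Fin m → F) : mono u 0 = 1 := by
  simp [mono]

theorem mono_ne {u : Fin m → F} (hu : ∀ i, u i ≠ 0) (ν : Fin m → ℤ) : mono u ν ≠ 0 :=
  Finset.prod_ne_zero_iff.2 fun i _ => zpow_ne_zero _ (hu i)

theorem mono_add {u : Fin m → F} (hu : ∀ i, u i ≠ 0) (ν κ : Fin m → ℤ) :
    mono u (ν + κ) = mono u ν * mono u κ := by
  unfold mono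
  rw [← Finset.prod_mul_distrib]
  exact Finset.prod_congr rfl fun i _ => zpow_add₀ (hu i) _ _

theorem map_mono {F' : Type} [Field F'] (φ : F →+* F') (u : Fin m → F) (ν : Fin m → ℤ) :
    φ (mono u ν) = mono (fun i => φ (u i)) ν := by
  unfold mono
  rw [map_prod]
  exact Finset.prod_congr rfl fun i _ => map_zpow₀ φ _ _

/-- the value of a Laurent polynomial -/
noncomputable def ev (B : (Fin m → ℤ) →₀ F) (u : Fin m → F) : F := B.sum fun κ a => a * mono u κ

end mono

variable {k K : Type} [Field k] [NumberField k] [Field K] [NumberField K] [Algebra k K]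
  {S : Finset (HeightOneSpectrum (𝓞 k))} {m : ℕ}

theorem isU_mono {u : Fin m → k} (hu : ∀ i, IsU S (u i)) (ν : Fin m → ℤ) : IsU S (mono u ν) := by
  unfold mono
  have : ∀ s : Finset (Fin m), IsU S (∏ i ∈ s, u i ^ ν i) := by
    intro s
    classical
    induction s using Finset.induction_on with
    | empty => rw [Finset.prod_empty]; exact IsU.one
    | insert a s ha ih => rw [Finset.prod_insert ha]; exact ((hu a).zpow _).mul ih
  exact this _

/-- the point of projective space -/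
def pt (Λ : Finset (Fin m → ℤ)) (u : Fin m → k) (s : k) : Λ ⊕ Λ → k :=
  Sum.elim (fun ν => mono u ν.1) (fun ν => mono u ν.1 * s)

/-- the rows -/
noncomputable def rows (Λ G : Finset (Fin m → ℤ)) (B : (Fin m → ℤ) →₀ K) :
    Matrix (Λ ⊕ Λ) (Λ ⊕ Λ) K :=
  open Classical in
  Matrix.fromBlocks 1 0 (Matrix.of fun ν ν' => if ν.1 ∈ G then -B (ν'.1 - ν.1) else 0) 1

theorem det_rows (Λ G : Finset (Fin m → ℤ)) (B : (Fin m → ℤ) →₀ K) [DecidableEq (Λ ⊕ Λ)] :
    (rows Λ G B).det = 1 := by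
  classical
  have h : ∀ (i1 : DecidableEq (Λ ⊕ Λ)), @Matrix.det (Λ ⊕ Λ) i1 _ K _ (rows Λ G B) = 1 := by
    intro i1
    have : i1 = instDecidableEqSum := Subsingleton.elim _ _
    subst this
    unfold rows
    rw [Matrix.det_fromBlocks_zero₁₂]
    rw [Matrix.det_one, one_mul]
  exact h _

theorem row_inl (Λ G : Finset (Fin m → ℤ)) (B : (Fin m → ℤ) →₀ K) (x : Λ ⊕ Λ → K) (ν : Λ) :
    ∑ j, rows Λ G B (Sum.inl ν) j * x j = x (Sum.inl ν) := by
  classical
  rw [Finset.sum_eq_single (Sum.inl ν)]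
  · have : rows Λ G B (Sum.inl ν) (Sum.inl ν) = 1 := by
      unfold rows
      rw [Matrix.fromBlocks_apply₁₁, Matrix.one_apply_eq]
    rw [this, one_mul]
  · rintro (ν' | ν') _ h
    · have : rows Λ G B (Sum.inl ν) (Sum.inl ν') = 0 := by
        unfold rows
        rw [Matrix.fromBlocks_apply₁₁, Matrix.one_apply_ne]
        rintro rfl
        exact h rfl
      rw [this, zero_mul]
    · have : rows Λ G B (Sum.inl ν) (Sum.inr ν') = 0 := by
        unfold rows
        rw [Matrix.fromBlocks_apply₁₂]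
        rfl
      rw [this, zero_mul]
  · intro h
    exact absurd (Finset.mem_univ _) h

theorem row_inr (Λ G : Finset (Fin m → ℤ)) (B : (Fin m → ℤ) →₀ K) (x : Λ ⊕ Λ → K) (ν : Λ) :
    ∑ j, rows Λ G B (Sum.inr ν) j * x j =
      x (Sum.inr ν) - if ν.1 ∈ G then ∑ ν' : Λ, B (ν'.1 - ν.1) * x (Sum.inl ν') else 0 := by
  classical
  rw [Fintype.sum_sum_type]
  have h1 : ∑ ν' : Λ, rows Λ G B (Sum.inr ν) (Sum.inr ν') * x (Sum.inr ν') = x (Sum.inr ν) := by
    rw [Finset.sum_eq_single ν]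
    · have : rows Λ G B (Sum.inr ν) (Sum.inr ν) = 1 := by
        unfold rows
        rw [Matrix.fromBlocks_apply₂₂, Matrix.one_apply_eq]
      rw [this, one_mul]
    · intro ν' _ h
      have : rows Λ G B (Sum.inr ν) (Sum.inr ν') = 0 := by
        unfold rows
        rw [Matrix.fromBlocks_apply₂₂, Matrix.one_apply_ne (Ne.symm h)]
      rw [this, zero_mul]
    · intro h
      exact absurd (Finset.mem_univ _) h
  have h2 : ∑ ν' : Λ, rows Λ G B (Sum.inr ν) (Sum.inl ν') * x (Sum.inl ν') =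
      -if ν.1 ∈ G then ∑ ν' : Λ, B (ν'.1 - ν.1) * x (Sum.inl ν') else 0 := by
    have h3 : ∀ ν' : Λ, rows Λ G B (Sum.inr ν) (Sum.inl ν') =
        if ν.1 ∈ G then -B (ν'.1 - ν.1) else 0 := by
      intro ν'
      unfold rows
      rw [Matrix.fromBlocks_apply₂₁, Matrix.of_apply]
    simp only [h3]
    by_cases hG : ν.1 ∈ G
    · simp only [hG, if_true]
      rw [← Finset.sum_neg_distrib]
      exact Finset.sum_congr rfl fun ν' _ => by ring
    · simp only [hG, if_false, zero_mul, Finset.sum_const_zero, neg_zero]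
  rw [h1, h2]
  ring

/-- the value of a row at the point -/
theorem row_val {Λ G : Finset (Fin m → ℤ)} {B : (Fin m → ℤ) →₀ K}
    (hB : ∀ ν ∈ G, ∀ κ ∈ B.support, ν + κ ∈ Λ) {u : Fin m → k} (hu : ∀ i, u i ≠ 0) (s : k) (ν : Λ)
    (hν : ν.1 ∈ G) :
    ∑ j, rows Λ G B (Sum.inr ν) j * algebraMap k K (pt Λ u s j) =
      algebraMap k K (mono u ν.1) *
        (algebraMap k K s - ev B fun i => algebraMap k K (u i)) := by
  classical
  rw [row_inr, if_pos hν]
  have hu' : ∀ i, algebraMap k K (u i) ≠ 0 := fun i => (_root_.map_ne_zero _).2 (hu i)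
  have h1 : ∑ ν' : Λ, B (ν'.1 - ν.1) * algebraMap k K (pt Λ u s (Sum.inl ν')) =
      algebraMap k K (mono u ν.1) * ev B fun i => algebraMap k K (u i) := by
    have h2 : ∀ ν' : Λ, algebraMap k K (pt Λ u s (Sum.inl ν')) =
        mono (fun i => algebraMap k K (u i)) ν'.1 := fun ν' => map_mono (algebraMap k K) u ν'.1
    simp only [h2]
    rw [Finset.sum_coe_sort Λ fun ν' => B (ν' - ν.1) * mono (fun i => algebraMap k K (u i)) ν',
      map_mono, ev, Finsupp.sum, Finset.mul_sum]
    symm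
    have h3 : ∀ κ ∈ B.support, mono (fun i => algebraMap k K (u i)) ν.1 *
        (B κ * mono (fun i => algebraMap k K (u i)) κ) =
        (fun ν' => B (ν' - ν.1) * mono (fun i => algebraMap k K (u i)) ν') (ν.1 + κ) := by
      intro κ _
      simp only [add_sub_cancel_left]
      rw [mono_add hu']
      ring
    rw [Finset.sum_congr rfl h3]
    rw [← Finset.sum_image (f := fun ν' => B (ν' - ν.1) * mono (fun i => algebraMap k K (u i)) ν')
      (g := fun κ => ν.1 + κ) (s := B.support) (fun a _ b _ h => add_left_cancel h)]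
    refine Finset.sum_subset ?_ ?_
    · intro ν' h
      obtain ⟨κ, hκ, rfl⟩ := Finset.mem_image.1 h
      exact hB _ hν _ hκ
    · intro ν' _ h
      have h4 : B (ν' - ν.1) = 0 := by
        by_contra h5
        exact h (Finset.mem_image.2 ⟨ν' - ν.1, Finsupp.mem_support_iff.2 h5, by simp⟩)
      simp only [h4, zero_mul]
  rw [h1]
  have h2 : algebraMap k K (pt Λ u s (Sum.inr ν)) = algebraMap k K (mono u ν.1) *
      algebraMap k K s := map_mul _ _ _
  rw [h2]
  ring

theorem row_val' {Λ G : Finset (Fin m → ℤ)} {B : (Fin m → ℤ) →₀ K} {u : Fin m → k} (s : k) (ν : Λ)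
    (hν : ν.1 ∉ G) :
    ∑ j, rows Λ G B (Sum.inr ν) j * algebraMap k K (pt Λ u s j) =
      algebraMap k K (mono u ν.1 * s) := by
  rw [row_inr, if_neg hν, sub_zero]
  rfl

end Pool.Agent.Run7.h489.TM
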