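import Mathlib
import Pool.Agent.Run7.h489.TM.Raw

set_option autoImplicit false
set_option linter.unusedSectionVars false

/-!
Roth's theorem with moving targets which are Laurent polynomials in units.
-/

namespace Pool.Agent.Run7.h489.TM

open Height NumberField IsDedekindDomain
open Pool.Agent.W180.OP (Pl av wt fv nrm wt_nonneg le_nrm exists_nrm nrm_pos)
open Pool.Agent.R404.TC (Sp)
open Pool.Agent.R405 (Good sch)
open Pool.Agent.Run7.h489.LV (IsU IsI prod_formula abs_log_le)

variable {k K : Type} [Field k] [NumberField k] [Field K] [NumberField K] [Algebra k K]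
  {S : Finset (HeightOneSpectrum (𝓞 k))} {m : ℕ}

theorem log_mono {F : Type} [Field F] (f : AbsoluteValue F ℝ) {u : Fin m → F} (hu : ∀ i, u i ≠ 0)
    (ν : Fin m → ℤ) : Real.log (f (mono u ν)) = ∑ i, ν i * Real.log (f (u i)) := by
  unfold mono
  rw [map_prod, Real.log_prod (fun i _ => (map_ne_zero_iff_of_ne f (zpow_ne_zero _ (hu i))))]
  refine Finset.sum_congr rfl fun i _ => ?_
  rw [map_zpow₀, Real.log_zpow]
where
  map_ne_zero_iff_of_ne {F : Type} [Field F] (f : AbsoluteValue F ℝ) {x : F} (h : x ≠ 0) :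
      f x ≠ 0 := (f.pos h).ne'

theorem log_mono_le {F : Type} [Field F] (f : AbsoluteValue F ℝ) {u : Fin m → F}
    (hu : ∀ i, u i ≠ 0) (ν : Fin m → ℤ) {c : ℝ} (hc : ∀ i, |(ν i : ℝ)| ≤ c) :
    |Real.log (f (mono u ν))| ≤ c * ∑ i, |Real.log (f (u i))| := by
  rw [log_mono f hu, Finset.mul_sum]
  refine (Finset.abs_sum_le_sum_abs _ _).trans (Finset.sum_le_sum fun i _ => ?_)
  rw [abs_mul]
  exact mul_le_mul_of_nonneg_right (hc i) (abs_nonneg _)

/-- a bound for the exponents -/
noncomputable def bd (Λ : Finset (Fin m → ℤ)) : ℝ := ∑ ν ∈ Λ, ∑ i, |(ν i : ℝ)|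

theorem bd_nonneg (Λ : Finset (Fin m → ℤ)) : 0 ≤ bd Λ :=
  Finset.sum_nonneg fun _ _ => Finset.sum_nonneg fun _ _ => abs_nonneg _

theorem le_bd {Λ : Finset (Fin m → ℤ)} {ν : Fin m → ℤ} (hν : ν ∈ Λ) (i : Fin m) :
    |(ν i : ℝ)| ≤ bd Λ := by
  have h1 := Finset.single_le_sum (f := fun ν : Fin m → ℤ => ∑ i, |(ν i : ℝ)|)
    (fun _ _ => Finset.sum_nonneg fun _ _ => abs_nonneg _) hν
  have h2 := Finset.single_le_sum (f := fun i => |(ν i : ℝ)|) (fun _ _ => abs_nonneg _)
    (Finset.mem_univ i)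
  exact h2.trans h1

/-- the vector of coordinates -/
noncomputable def ptF (Λ : Finset (Fin m → ℤ)) (u : Fin m → k) (s : k) :
    Fin (Fintype.card (Λ ⊕ Λ)) → k := fun j => pt Λ u s ((Fintype.equivFin (Λ ⊕ Λ)).symm j)

theorem nrm_ptF_out {Λ : Finset (Fin m → ℤ)} (hΛ : Λ.Nonempty) {u : Fin m → k}
    (hu : ∀ i, IsU S (u i)) (s : k) {v : HeightOneSpectrum (𝓞 k)} (hv : v ∉ S) :
    nrm (fv v) (ptF Λ u s) = max (fv v s) 1 := by
  classical
  obtain ⟨ν0, hν0⟩ := hΛ
  have hpos : 0 < Fintype.card (Λ ⊕ Λ) := Fintype.card_pos_iff.2 ⟨Sum.inl ⟨ν0, hν0⟩⟩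
  apply le_antisymm
  · obtain ⟨j, hj⟩ := exists_nrm (fv v) hpos (ptF Λ u s)
    rw [← hj]
    unfold ptF
    rcases (Fintype.equivFin (Λ ⊕ Λ)).symm j with ν | ν
    · have h1 : fv v (pt Λ u s (Sum.inl ν)) = 1 := (isU_mono hu ν.1).2 v hv
      rw [h1]
      exact le_max_right _ _
    · have h1 : fv v (pt Λ u s (Sum.inr ν)) = fv v s := by
        have : pt Λ u s (Sum.inr ν) = mono u ν.1 * s := rfl
        rw [this, map_mul, (isU_mono hu ν.1).2 v hv, one_mul]
      rw [h1]
      exact le_max_left _ _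
  · refine max_le ?_ ?_
    · have h1 := le_nrm (fv v) (ptF Λ u s) (Fintype.equivFin (Λ ⊕ Λ) (Sum.inr ⟨ν0, hν0⟩))
      have h2 : ptF Λ u s (Fintype.equivFin (Λ ⊕ Λ) (Sum.inr ⟨ν0, hν0⟩)) = mono u ν0 * s := by
        unfold ptF
        rw [Equiv.symm_apply_apply]
        rfl
      rwa [h2, map_mul, (isU_mono hu ν0).2 v hv, one_mul] at h1
    · have h1 := le_nrm (fv v) (ptF Λ u s) (Fintype.equivFin (Λ ⊕ Λ) (Sum.inl ⟨ν0, hν0⟩))
      have h2 : ptF Λ u s (Fintype.equivFin (Λ ⊕ Λ) (Sum.inl ⟨ν0, hν0⟩)) = mono u ν0 := by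
        unfold ptF
        rw [Equiv.symm_apply_apply]
        rfl
      rwa [h2, (isU_mono hu ν0).2 v hv] at h1

theorem nrm_ptF_le {Λ : Finset (Fin m → ℤ)} (hΛ : Λ.Nonempty) {u : Fin m → k}
    (hu : ∀ i, u i ≠ 0) (s : k) (f : AbsoluteValue k ℝ) :
    Real.log (nrm f (ptF Λ u s)) ≤ bd Λ * ∑ i, |Real.log (f (u i))| + Real.log (max (f s) 1) := by
  classical
  obtain ⟨ν0, hν0⟩ := hΛ
  have hpos : 0 < Fintype.card (Λ ⊕ Λ) := Fintype.card_pos_iff.2 ⟨Sum.inl ⟨ν0, hν0⟩⟩
  obtain ⟨j, hj⟩ := exists_nrm f hpos (ptF Λ u s)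
  rw [← hj]
  have hmono : ∀ ν : Λ, Real.log (f (mono u ν.1)) ≤ bd Λ * ∑ i, |Real.log (f (u i))| := fun ν =>
    (le_abs_self _).trans (log_mono_le f hu ν.1 fun i => le_bd ν.2 i)
  have hM : 0 ≤ Real.log (max (f s) 1) := Real.log_nonneg (le_max_right _ _)
  unfold ptF
  rcases (Fintype.equivFin (Λ ⊕ Λ)).symm j with ν | ν
  · have h1 : pt Λ u s (Sum.inl ν) = mono u ν.1 := rfl
    rw [h1]
    have := hmono ν
    linarith
  · have h1 : pt Λ u s (Sum.inr ν) = mono u ν.1 * s := rfl
    rw [h1, map_mul]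
    by_cases hs : s = 0
    · rw [hs, map_zero, mul_zero, Real.log_zero]
      have h2 : 0 ≤ bd Λ * ∑ i, |Real.log (f (u i))| :=
        mul_nonneg (bd_nonneg Λ) (Finset.sum_nonneg fun _ _ => abs_nonneg _)
      have h3 : (0 : ℝ) ≤ Real.log (max 0 1) := Real.log_nonneg (le_max_right _ _)
      linarith
    · rw [Real.log_mul (f.pos (mono_ne hu ν.1)).ne' (f.pos hs).ne']
      have h2 := hmono ν
      have h3 : Real.log (f s) ≤ Real.log (max (f s) 1) :=
        Real.log_le_log (f.pos hs) (le_max_left _ _)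
      linarith

/-- the sum of the weights -/
noncomputable def wS (S : Finset (HeightOneSpectrum (𝓞 k))) : ℝ := ∑ v ∈ Sp S, wt v

theorem wS_nonneg (S : Finset (HeightOneSpectrum (𝓞 k))) : 0 ≤ wS S :=
  Finset.sum_nonneg fun v _ => wt_nonneg v

/-- the sum of the heights -/
noncomputable def hs (u : Fin m → k) : ℝ := ∑ i, logHeight₁ (u i)

theorem hs_nonneg (u : Fin m → k) : 0 ≤ hs u := Finset.sum_nonneg fun _ _ => zero_le_logHeight₁ _

theorem sum_abs_le {u : Fin m → k} (hu : ∀ i, IsU S (u i)) {v : Pl k} (hv : v ∈ Sp S) :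
    ∑ i, |Real.log (av v (u i))| ≤ hs u := Finset.sum_le_sum fun i _ => abs_log_le (hu i) hv

theorem height_ptF {Λ : Finset (Fin m → ℤ)} (hΛ : Λ.Nonempty) {u : Fin m → k}
    (hu : ∀ i, IsU S (u i)) (s : k) :
    logHeight (ptF Λ u s) = ∑ v ∈ Sp S, wt v * Real.log (nrm (av v) (ptF Λ u s)) + den S s := by
  classical
  obtain ⟨ν0, hν0⟩ := hΛ
  refine sum_nrm_den (Fintype.equivFin (Λ ⊕ Λ) (Sum.inl ⟨ν0, hν0⟩)) ?_ s
    fun v hv => nrm_ptF_out ⟨ν0, hν0⟩ hu s hv
  have h2 : ptF Λ u s (Fintype.equivFin (Λ ⊕ Λ) (Sum.inl ⟨ν0, hν0⟩)) = mono u ν0 := by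
    unfold ptF
    rw [Equiv.symm_apply_apply]
    rfl
  rw [h2]
  exact isU_mono hu ν0

theorem height_ptF_le {Λ : Finset (Fin m → ℤ)} (hΛ : Λ.Nonempty) {u : Fin m → k}
    (hu : ∀ i, IsU S (u i)) (s : k) :
    logHeight (ptF Λ u s) ≤ bd Λ * wS S * hs u + logHeight₁ s := by
  rw [height_ptF hΛ hu s, height_den S s]
  have h1 : ∑ v ∈ Sp S, wt v * Real.log (nrm (av v) (ptF Λ u s)) ≤
      ∑ v ∈ Sp S, (wt v * (bd Λ * hs u) + wt v * Real.log (max (av v s) 1)) := by
    refine Finset.sum_le_sum fun v hv => ?_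
    rw [← mul_add]
    refine mul_le_mul_of_nonneg_left ?_ (wt_nonneg v)
    refine (nrm_ptF_le hΛ (fun i => (hu i).1) s (av v)).trans ?_
    have := mul_le_mul_of_nonneg_left (sum_abs_le hu hv) (bd_nonneg Λ)
    linarith
  rw [Finset.sum_add_distrib, ← Finset.sum_mul] at h1
  have h2 : (∑ v ∈ Sp S, wt v) * (bd Λ * hs u) = bd Λ * wS S * hs u := by
    rw [wS]; ring
  linarith

open Classical in
theorem raw [IsGalois ℚ K] (hi : ∃ z : K, z ^ 2 = -1) {Λ G : Finset (Fin m → ℤ)} (hG : G ⊆ Λ)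
    (hG0 : G.Nonempty) (f : Pl k → AbsoluteValue K ℝ) (hf : ∀ v ∈ Sp S, Good v (f v))
    (B : Pl k → ((Fin m → ℤ) →₀ K))
    (hB : ∀ v ∈ Sp S, ∀ ν ∈ G, ∀ κ ∈ (B v).support, ν + κ ∈ Λ) {η : ℝ} (hη : 0 < η) :
    ∃ (Z : Finset (Λ ⊕ Λ → K)) (C : ℝ), (∀ d ∈ Z, d ≠ 0) ∧ ∀ (u : Fin m → k) (s : k),
      (∀ i, IsU S (u i)) → (∀ d ∈ Z, ∑ j, d j * algebraMap k K (pt Λ u s j) ≠ 0) →
      s ≠ 0 ∧ (∀ v ∈ Sp S, algebraMap k K s - ev (B v) (fun i => algebraMap k K (u i)) ≠ 0) ∧
      -(G.card * ∑ v ∈ Sp S, wt v *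
          Real.log (f v (algebraMap k K s - ev (B v) fun i => algebraMap k K (u i)))) ≤
        2 * Λ.card * den S s + (Λ.card - G.card) * logHeight₁ s +
          η * (hs u + logHeight₁ s) + C := by
  have hΛ : Λ.Nonempty := hG0.mono hG
  set e := (Fintype.equivFin (Λ ⊕ Λ)).symm with he
  have hN : 1 ≤ Fintype.card (Λ ⊕ Λ) := by
    obtain ⟨ν0, hν0⟩ := hΛ
    exact Fintype.card_pos_iff.2 ⟨Sum.inl ⟨ν0, hν0⟩⟩
  have hcardN : (Fintype.card (Λ ⊕ Λ) : ℝ) = 2 * Λ.card := by
    rw [Fintype.card_sum, Fintype.card_coe]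
    push_cast
    ring
  set ε : ℝ := η / (bd Λ * wS S + 1) with hε
  have hbw : 0 ≤ bd Λ * wS S := mul_nonneg (bd_nonneg Λ) (wS_nonneg S)
  have hε0 : 0 < ε := by positivity
  obtain ⟨Z0, C0, hZ0, hC0⟩ := sch hi hN (Sp S) f hf
    (fun v a b => rows Λ G (B v) (e a) (e b)) (by
      intro v _
      have h1 : (Matrix.of fun a b => rows Λ G (B v) (e a) (e b)) =
          (rows Λ G (B v)).submatrix e e := rfl
      rw [h1, Matrix.det_submatrix_equiv_self, det_rows]
      exact one_ne_zero) ε hε0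
  obtain ⟨ν0, hν0⟩ := hG0
  have hν0Λ : ν0 ∈ Λ := hG hν0
  let w0 : Λ := ⟨ν0, hν0Λ⟩
  set Z : Finset (Λ ⊕ Λ → K) := Z0.image (fun d => d ∘ e.symm) ∪
    ((Sp S).image (fun v => rows Λ G (B v) (Sum.inr w0)) ∪ {Pi.single (Sum.inr w0) 1}) with hZ
  refine ⟨Z, C0, ?_, ?_⟩
  · intro d hd
    rcases Finset.mem_union.1 hd with h | h
    · obtain ⟨d', hd', rfl⟩ := Finset.mem_image.1 h
      intro h0
      apply hZ0 d' hd'
      funext j
      have := congrFun h0 (e j)
      simpa using this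
    · rcases Finset.mem_union.1 h with h | h
      · obtain ⟨v, -, rfl⟩ := Finset.mem_image.1 h
        intro h0
        have h1 := det_rows Λ G (B v)
        rw [Matrix.det_eq_zero_of_row_eq_zero (Sum.inr w0) (fun j => congrFun h0 j)] at h1
        exact zero_ne_one h1
      · rw [Finset.mem_singleton.1 h]
        intro h0
        have := congrFun h0 (Sum.inr w0)
        rw [Pi.single_eq_same] at this
        exact one_ne_zero this
  · intro u s hu hZu
    have hu0 : ∀ i, u i ≠ 0 := fun i => (hu i).1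
    have hs0 : s ≠ 0 := by
      intro h0
      apply hZu (Pi.single (Sum.inr w0) 1) (Finset.mem_union_right _ (Finset.mem_union_right _
        (Finset.mem_singleton_self _)))
      rw [Finset.sum_eq_single (Sum.inr w0)]
      · have : pt Λ u s (Sum.inr w0) = mono u ν0 * s := rfl
        rw [this, h0, mul_zero, map_zero, mul_zero]
      · intro j _ hj
        rw [Pi.single_eq_of_ne hj, zero_mul]
      · intro h
        exact absurd (Finset.mem_univ _) h
    have hrow : ∀ v ∈ Sp S, ∀ ν : Λ, ν.1 ∈ G →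
        ∑ j, rows Λ G (B v) (Sum.inr ν) j * algebraMap k K (pt Λ u s j) =
        algebraMap k K (mono u ν.1) * (algebraMap k K s - ev (B v) fun i => algebraMap k K (u i)) :=
      fun v hv ν hν => row_val (hB v hv) hu0 s ν hν
    have hne : ∀ v ∈ Sp S, algebraMap k K s - ev (B v) (fun i => algebraMap k K (u i)) ≠ 0 := by
      intro v hv h0
      apply hZu (rows Λ G (B v) (Sum.inr w0)) (Finset.mem_union_right _ (Finset.mem_union_left _
        (Finset.mem_image_of_mem _ hv)))
      rw [hrow v hv w0 hν0, h0, mul_zero]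
    refine ⟨hs0, hne, ?_⟩
    have h1 := hC0 (ptF Λ u s) (by
      intro d hd
      have h2 := hZu (d ∘ e.symm) (Finset.mem_union_left _ (Finset.mem_image_of_mem _ hd))
      rw [← Equiv.sum_comp e] at h2
      simp only [Function.comp_apply, Equiv.symm_apply_apply] at h2
      exact h2)
    -- the rows
    have h2 : ∀ v ∈ Sp S, ∑ a, (Real.log (nrm (av v) (ptF Λ u s)) -
        Real.log (f v (∑ j, rows Λ G (B v) (e a) (e j) * algebraMap k K (ptF Λ u s j)))) =
        2 * Λ.card * Real.log (nrm (av v) (ptF Λ u s)) -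
          (2 * ∑ ν ∈ Λ, Real.log (av v (mono u ν)) +
            G.card * Real.log (f v (algebraMap k K s - ev (B v) fun i => algebraMap k K (u i))) +
            (Λ.card - G.card) * Real.log (av v s)) := by
      intro v hv
      have hgood := hf v hv
      rw [Finset.sum_sub_distrib, Finset.sum_const, Finset.card_univ, Fintype.card_fin,
        nsmul_eq_mul, hcardN]
      congr 1
      have h3 : ∀ a, ∑ j, rows Λ G (B v) (e a) (e j) * algebraMap k K (ptF Λ u s j) =
          ∑ j, rows Λ G (B v) (e a) j * algebraMap k K (pt Λ u s j) := fun a =>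
        Equiv.sum_comp e fun j => rows Λ G (B v) (e a) j * algebraMap k K (pt Λ u s j)
      simp only [h3]
      rw [Equiv.sum_comp e fun r => Real.log (f v
        (∑ j, rows Λ G (B v) r j * algebraMap k K (pt Λ u s j))), Fintype.sum_sum_type]
      have h4 : ∀ ν : Λ, Real.log (f v
          (∑ j, rows Λ G (B v) (Sum.inl ν) j * algebraMap k K (pt Λ u s j))) =
          Real.log (av v (mono u ν.1)) := by
        intro ν
        rw [row_inl Λ G (B v) (fun j => algebraMap k K (pt Λ u s j))]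
        have : pt Λ u s (Sum.inl ν) = mono u ν.1 := rfl
        rw [this, hgood.ext]
      have h5 : ∀ ν : Λ, Real.log (f v
          (∑ j, rows Λ G (B v) (Sum.inr ν) j * algebraMap k K (pt Λ u s j))) =
          Real.log (av v (mono u ν.1)) + if ν.1 ∈ G then
            Real.log (f v (algebraMap k K s - ev (B v) fun i => algebraMap k K (u i)))
            else Real.log (av v s) := by
        intro ν
        have hmne : av v (mono u ν.1) ≠ 0 := ((av v).pos (mono_ne hu0 ν.1)).ne'
        by_cases hν : ν.1 ∈ G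
        · rw [hrow v hv ν hν, if_pos hν, map_mul, hgood.ext,
            Real.log_mul hmne ((f v).pos (hne v hv)).ne']
        · rw [row_val' s ν hν, if_neg hν, hgood.ext, map_mul,
            Real.log_mul hmne ((av v).pos hs0).ne']
      simp only [h4, h5]
      rw [Finset.sum_add_distrib, Finset.sum_coe_sort Λ fun ν => Real.log (av v (mono u ν)),
        Finset.sum_coe_sort Λ fun ν => if ν ∈ G then
            Real.log (f v (algebraMap k K s - ev (B v) fun i => algebraMap k K (u i)))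
            else Real.log (av v s), Finset.sum_ite, Finset.sum_const, Finset.sum_const,
        nsmul_eq_mul, nsmul_eq_mul]
      have h6 : Λ.filter (fun ν => ν ∈ G) = G := by
        ext ν
        rw [Finset.mem_filter]
        exact ⟨fun h => h.2, fun h => ⟨hG h, h⟩⟩
      have h7 : ((Λ.filter (fun ν => ν ∉ G)).card : ℝ) = Λ.card - G.card := by
        have h8 := Finset.card_filter_add_card_filter_not (s := Λ) (fun ν => ν ∈ G)
        rw [h6] at h8
        have h9 : ((G.card : ℕ) : ℝ) + ((Λ.filter (fun ν => ν ∉ G)).card : ℝ) = Λ.card := by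
          exact_mod_cast h8
        linarith
      rw [h6, h7]
      ring
    rw [hcardN] at h1
    have h3 := Finset.sum_congr rfl fun v hv => congrArg (fun t => wt v * t) (h2 v hv)
    rw [h3] at h1
    -- sums over the places
    set A : ℝ := ∑ v ∈ Sp S, wt v *
      Real.log (f v (algebraMap k K s - ev (B v) fun i => algebraMap k K (u i))) with hA
    set M : ℝ := ∑ v ∈ Sp S, wt v * Real.log (nrm (av v) (ptF Λ u s)) with hM
    set Q : ℝ := ∑ v ∈ Sp S, wt v * Real.log (av v s) with hQ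
    have h4 : ∑ v ∈ Sp S, wt v * (2 * Λ.card * Real.log (nrm (av v) (ptF Λ u s)) -
          (2 * ∑ ν ∈ Λ, Real.log (av v (mono u ν)) +
            G.card * Real.log (f v (algebraMap k K s - ev (B v) fun i => algebraMap k K (u i))) +
            (Λ.card - G.card) * Real.log (av v s))) =
        2 * Λ.card * M - (G.card * A + (Λ.card - G.card) * Q) := by
      have h5 : ∑ v ∈ Sp S, wt v * ∑ ν ∈ Λ, Real.log (av v (mono u ν)) = 0 := by
        simp only [Finset.mul_sum]
        rw [Finset.sum_comm]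
        exact Finset.sum_eq_zero fun ν _ => prod_formula (isU_mono hu ν)
      have h6 : ∀ v ∈ Sp S, wt v * (2 * Λ.card * Real.log (nrm (av v) (ptF Λ u s)) -
          (2 * ∑ ν ∈ Λ, Real.log (av v (mono u ν)) +
            G.card * Real.log (f v (algebraMap k K s - ev (B v) fun i => algebraMap k K (u i))) +
            (Λ.card - G.card) * Real.log (av v s))) =
          2 * Λ.card * (wt v * Real.log (nrm (av v) (ptF Λ u s))) -
          (2 * (wt v * ∑ ν ∈ Λ, Real.log (av v (mono u ν))) +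
            G.card * (wt v * Real.log (f v (algebraMap k K s -
              ev (B v) fun i => algebraMap k K (u i)))) +
            (Λ.card - G.card) * (wt v * Real.log (av v s))) := fun v _ => by ring
      rw [Finset.sum_congr rfl h6, Finset.sum_sub_distrib, Finset.sum_add_distrib,
        Finset.sum_add_distrib, ← Finset.mul_sum, ← Finset.mul_sum, ← Finset.mul_sum,
        ← Finset.mul_sum, h5]
      ring
    rw [h4] at h1
    have h5 := height_ptF hΛ hu s
    rw [← hM] at h5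
    have h6 := height_ptF_le hΛ hu s
    have h7 : Q ≤ logHeight₁ s := by
      refine le_trans ?_ (sum_max_le S s)
      refine Finset.sum_le_sum fun v _ => mul_le_mul_of_nonneg_left ?_ (wt_nonneg v)
      exact Real.log_le_log ((av v).pos hs0) (le_max_left _ _)
    have hcard : (G.card : ℝ) ≤ Λ.card := by exact_mod_cast Finset.card_le_card hG
    have h8 : ((Λ.card : ℝ) - G.card) * Q ≤ (Λ.card - G.card) * logHeight₁ s :=
      mul_le_mul_of_nonneg_left h7 (by linarith)
    have h9 : ε * logHeight (ptF Λ u s) ≤ η * (hs u + logHeight₁ s) := by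
      have h10 := mul_le_mul_of_nonneg_left h6 hε0.le
      have h11 : ε * (bd Λ * wS S * hs u + logHeight₁ s) ≤ η * (hs u + logHeight₁ s) := by
        have h12 : bd Λ * wS S * hs u + logHeight₁ s ≤
            (bd Λ * wS S + 1) * (hs u + logHeight₁ s) := by
          have h13 := hs_nonneg u
          have h14 := zero_le_logHeight₁ s
          nlinarith
        have h13 := mul_le_mul_of_nonneg_left h12 hε0.le
        have h14 : ε * ((bd Λ * wS S + 1) * (hs u + logHeight₁ s)) =
            η * (hs u + logHeight₁ s) := by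
          rw [hε]
          field_simp
        linarith
      linarith
    have h10 : 2 * (Λ.card : ℝ) * M = 2 * Λ.card * (logHeight (ptF Λ u s) - den S s) := by
      rw [h5]
      ring
    rw [h10] at h1
    linarith

end Pool.Agent.Run7.h489.TM
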