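import Mathlib
import Pool.Agent.Run7.h489.TM.Roth

set_option autoImplicit false
set_option linter.unusedSectionVars false

/-!
Roth's theorem with moving targets: large boxes of exponents.
-/

namespace Pool.Agent.Run7.h489.TM

open Height NumberField IsDedekindDomain
open Pool.Agent.W180.OP (Pl av wt fv nrm wt_nonneg le_nrm exists_nrm nrm_pos)
open Pool.Agent.R404.TC (Sp)
open Pool.Agent.R405 (Good sch)
open Pool.Agent.Run7.h489.LV (IsU IsI prod_formula abs_log_le)

section val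

variable {F : Type} [Field F] {m : ℕ}

/-- the value of a Laurent polynomial in `u` and `s` -/
noncomputable def val (Ψ : ((Fin m → ℤ) × ℕ) →₀ F) (u : Fin m → F) (s : F) : F :=
  Ψ.sum fun e a => a * (mono u e.1 * s ^ e.2)

theorem val_eq (Ψ : ((Fin m → ℤ) × ℕ) →₀ F) (u : Fin m → F) (s : F) :
    val Ψ u s = ∑ e ∈ Ψ.support, Ψ e * (mono u e.1 * s ^ e.2) := rfl

end val

variable {k K : Type} [Field k] [NumberField k] [Field K] [NumberField K] [Algebra k K]
  {S : Finset (HeightOneSpectrum (𝓞 k))} {m : ℕ}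

/-- the exceptional forms can be chosen over the small field -/
theorem desc (Λ : Finset (Fin m → ℤ)) {d : Λ ⊕ Λ → K} (hd : d ≠ 0) :
    ∃ p : ((Fin m → ℤ) →₀ k) × ((Fin m → ℤ) →₀ k), p ≠ 0 ∧ ∀ (u : Fin m → k) (s : k),
      ∑ j, d j * algebraMap k K (pt Λ u s j) = 0 → ev p.1 u * s + ev p.2 u = 0 := by
  classical
  obtain ⟨j0, hj0⟩ := Function.ne_iff.1 hd
  let b := Module.Free.chooseBasis k K
  have h0 : b.repr (d j0) ≠ 0 := fun h => hj0 (by
    have := b.repr.map_eq_zero_iff.1 h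
    simpa using this)
  obtain ⟨i, hi⟩ := Finsupp.ne_iff.1 h0
  let φ : K →ₗ[k] k := b.coord i
  have hφ : φ (d j0) ≠ 0 := hi
  have key : ∀ g : Λ → Λ ⊕ Λ, ∃ B : (Fin m → ℤ) →₀ k, (∀ ν : Λ, B ν.1 = φ (d (g ν))) ∧
      ∀ u : Fin m → k, ev B u = ∑ ν : Λ, φ (d (g ν)) * mono u ν.1 := by
    intro g
    let c : Λ →₀ k := Finsupp.equivFunOnFinite.symm fun ν => φ (d (g ν))
    have hc : ∀ ν, c ν = φ (d (g ν)) := fun ν => rfl
    refine ⟨c.mapDomain Subtype.val, fun ν => ?_, fun u => ?_⟩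
    · rw [Finsupp.mapDomain_apply Subtype.val_injective, hc]
    · unfold ev
      rw [Finsupp.sum_mapDomain_index (fun _ => zero_mul _) (fun _ _ _ => add_mul _ _ _)]
      rw [Finsupp.sum_fintype _ _ (fun _ => zero_mul _)]
      exact Finset.sum_congr rfl fun ν _ => by rw [hc]
  obtain ⟨A, hA1, hA2⟩ := key Sum.inr
  obtain ⟨B, hB1, hB2⟩ := key Sum.inl
  refine ⟨(A, B), ?_, ?_⟩
  · intro h
    have e1 : A = 0 := congrArg Prod.fst h
    have e2 : B = 0 := congrArg Prod.snd h
    rcases j0 with ν | ν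
    · exact hφ (by rw [← hB1 ν, e2]; rfl)
    · exact hφ (by rw [← hA1 ν, e1]; rfl)
  · intro u s h
    have h1 := congrArg φ h
    rw [map_zero, map_sum, Fintype.sum_sum_type] at h1
    show ev A u * s + ev B u = 0
    rw [hA2 u, hB2 u, add_comm, Finset.sum_mul]
    rw [← h1]
    have h2 : ∀ j, φ (d j * algebraMap k K (pt Λ u s j)) = φ (d j) * pt Λ u s j := by
      intro j
      have h3 : d j * algebraMap k K (pt Λ u s j) = pt Λ u s j • d j := by
        rw [Algebra.smul_def, mul_comm]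
      rw [h3, map_smul, smul_eq_mul, mul_comm]
    simp only [h2]
    congr 1
    refine Finset.sum_congr rfl fun ν _ => ?_
    show _ = φ (d (Sum.inr ν)) * (mono u ν.1 * s)
    ring

/-- the box of exponents -/
noncomputable def box (m a : ℕ) : Finset (Fin m → ℤ) := Fintype.piFinset fun _ => Finset.Icc (-(a : ℤ)) a

theorem card_box (m a : ℕ) : (box m a).card = (2 * a + 1) ^ m := by
  rw [box, Fintype.card_piFinset, Finset.prod_const, Finset.card_univ, Fintype.card_fin,
    Int.card_Icc]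
  congr 1
  omega

theorem mem_box {m a : ℕ} {ν : Fin m → ℤ} : ν ∈ box m a ↔ ∀ i, |ν i| ≤ a := by
  rw [box, Fintype.mem_piFinset]
  refine forall_congr' fun i => ?_
  rw [Finset.mem_Icc, abs_le]

theorem exists_box (m D : ℕ) {θ : ℝ} (hθ : 0 < θ) :
    ∃ b : ℕ, ((box m (b + D)).card : ℝ) ≤ (1 + θ) * (box m b).card := by
  have h1 : Filter.Tendsto (fun b : ℕ => (1 + 2 * (D : ℝ) / (2 * b + 1)) ^ m) Filter.atTop
      (nhds 1) := by
    have h2 : Filter.Tendsto (fun b : ℕ => 2 * (D : ℝ) / (2 * b + 1)) Filter.atTop (nhds 0) := by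
      apply Filter.Tendsto.div_atTop tendsto_const_nhds
      apply Filter.tendsto_atTop_add_const_right
      exact Filter.Tendsto.const_mul_atTop two_pos tendsto_natCast_atTop_atTop
    have h3 := (h2.const_add 1).pow m
    simpa using h3
  obtain ⟨b, hb⟩ := ((tendsto_order.1 h1).2 (1 + θ) (by linarith)).exists
  refine ⟨b, ?_⟩
  rw [card_box, card_box]
  push_cast
  have h4 : (0 : ℝ) < 2 * b + 1 := by positivity
  have h5 : (2 * ((b : ℝ) + D) + 1) ^ m = (1 + 2 * (D : ℝ) / (2 * b + 1)) ^ m * (2 * b + 1) ^ m := by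
    rw [← mul_pow]
    congr 1
    field_simp
    ring
  rw [h5]
  exact mul_le_mul_of_nonneg_right hb.le (by positivity)

/-- Roth's theorem with moving targets -/
theorem roth [IsGalois ℚ K] (hi : ∃ z : K, z ^ 2 = -1) (f : Pl k → AbsoluteValue K ℝ)
    (hf : ∀ v ∈ Sp S, Good v (f v)) (B : Pl k → ((Fin m → ℤ) →₀ K)) {η : ℝ} (hη : 0 < η) :
    ∃ (Z : Finset (((Fin m → ℤ) →₀ k) × ((Fin m → ℤ) →₀ k))) (C : ℝ), (∀ p ∈ Z, p ≠ 0) ∧
      ∀ (u : Fin m → k) (s : k), (∀ i, IsU S (u i)) → (∀ p ∈ Z, ev p.1 u * s + ev p.2 u ≠ 0) →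
      s ≠ 0 ∧ (∀ v ∈ Sp S, algebraMap k K s - ev (B v) (fun i => algebraMap k K (u i)) ≠ 0) ∧
      -∑ v ∈ Sp S, wt v *
          Real.log (f v (algebraMap k K s - ev (B v) fun i => algebraMap k K (u i))) ≤
        2 * den S s + η * (hs u + logHeight₁ s) + C := by
  classical
  -- a bound for the exponents
  obtain ⟨D, hD⟩ : ∃ D : ℕ, ∀ v ∈ Sp S, ∀ κ ∈ (B v).support, ∀ i, |κ i| ≤ D := by
    refine ⟨∑ v ∈ Sp S, ∑ κ ∈ (B v).support, ∑ i, (κ i).natAbs, ?_⟩
    intro v hv κ hκ i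
    have h1 := Finset.single_le_sum (f := fun i => (κ i).natAbs) (fun _ _ => Nat.zero_le _)
      (Finset.mem_univ i)
    have h2 := Finset.single_le_sum (f := fun κ : Fin m → ℤ => ∑ i, (κ i).natAbs)
      (fun _ _ => Nat.zero_le _) hκ
    have h3 := Finset.single_le_sum (f := fun v => ∑ κ ∈ (B v).support, ∑ i, (κ i).natAbs)
      (fun _ _ => Nat.zero_le _) hv
    have h4 : (κ i).natAbs ≤ ∑ v ∈ Sp S, ∑ κ ∈ (B v).support, ∑ i, (κ i).natAbs :=
      (h1.trans h2).trans h3
    rw [Int.abs_eq_natAbs]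
    exact_mod_cast h4
  obtain ⟨b, hb⟩ := exists_box m D (θ := η / 6) (by positivity)
  have hsub : box m b ⊆ box m (b + D) := by
    intro ν hν
    rw [mem_box] at hν ⊢
    intro i
    have := hν i
    push_cast
    omega
  have hne : (box m b).Nonempty := ⟨0, mem_box.2 fun i => by simp⟩
  obtain ⟨Z0, C0, hZ0, hC0⟩ := raw (S := S) hi hsub hne f hf B (by
    intro v hv ν hν κ hκ
    rw [mem_box] at hν ⊢
    intro i
    have h1 := hν i
    have h2 := hD v hv κ hκ i
    have h3 : |ν i + κ i| ≤ |ν i| + |κ i| := abs_add_le _ _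
    rw [Pi.add_apply]
    push_cast
    omega) (η := η / 2) (by positivity)
  have hch : ∀ d : Z0, ∃ p : ((Fin m → ℤ) →₀ k) × ((Fin m → ℤ) →₀ k), p ≠ 0 ∧
      ∀ (u : Fin m → k) (s : k),
      ∑ j, d.1 j * algebraMap k K (pt (box m (b + D)) u s j) = 0 →
        ev p.1 u * s + ev p.2 u = 0 :=
    fun d => desc _ (hZ0 d.1 d.2)
  choose Ψ hΨ0 hΨ using hch
  refine ⟨Finset.univ.image Ψ, |C0|, ?_, ?_⟩
  · intro Ψ' h
    obtain ⟨d, -, rfl⟩ := Finset.mem_image.1 h
    exact hΨ0 d
  · intro u s hu hZu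
    obtain ⟨h1, h2, h3⟩ := hC0 u s hu (fun d hd h =>
      hZu (Ψ ⟨d, hd⟩) (Finset.mem_image_of_mem _ (Finset.mem_univ _)) (hΨ ⟨d, hd⟩ u s h))
    refine ⟨h1, h2, ?_⟩
    set A : ℝ := ∑ v ∈ Sp S, wt v *
      Real.log (f v (algebraMap k K s - ev (B v) fun i => algebraMap k K (u i))) with hA
    set g : ℝ := ((box m b).card : ℝ) with hg
    set l : ℝ := ((box m (b + D)).card : ℝ) with hl
    have hg1 : 1 ≤ g := by
      rw [hg]
      exact_mod_cast Finset.card_pos.2 hne
    have hd0 := den_nonneg S s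
    have hs1 : den S s ≤ logHeight₁ s := by
      rw [height_den S s]
      have : 0 ≤ ∑ v ∈ Sp S, wt v * Real.log (max (av v s) 1) := Finset.sum_nonneg fun v _ =>
        mul_nonneg (wt_nonneg v) (Real.log_nonneg (le_max_right _ _))
      linarith
    have hh := hs_nonneg u
    have h4 : g * (-A) ≤ g * (2 * den S s + η * (hs u + logHeight₁ s) + |C0|) := by
      have e1 : (l - g) * logHeight₁ s ≤ η / 6 * g * logHeight₁ s :=
        mul_le_mul_of_nonneg_right (by linarith) (zero_le_logHeight₁ s)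
      have e2 : 2 * l * den S s ≤ 2 * g * den S s + η / 3 * g * logHeight₁ s := by
        have e3 : 2 * l * den S s ≤ 2 * ((1 + η / 6) * g) * den S s :=
          mul_le_mul_of_nonneg_right (by linarith) hd0
        have e4 : η / 3 * g * den S s ≤ η / 3 * g * logHeight₁ s :=
          mul_le_mul_of_nonneg_left hs1 (by positivity)
        linarith
      have e3 : η / 2 * (hs u + logHeight₁ s) ≤ g * (η / 2 * (hs u + logHeight₁ s)) := by
        have e5 : 0 ≤ η / 2 * (hs u + logHeight₁ s) :=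
          mul_nonneg (by positivity) (add_nonneg hh (zero_le_logHeight₁ s))
        nlinarith
      have e4 : C0 ≤ g * |C0| := by
        have e5 := le_abs_self C0
        have e6 := abs_nonneg C0
        nlinarith
      have e5 : g * (η / 2 * (hs u + logHeight₁ s)) = g * (η / 2) * hs u +
        g * (η / 2) * logHeight₁ s := by ring
      have e6 : 0 ≤ g * (η / 2) * hs u := by positivity
      have h3' : -(g * A) ≤ 2 * l * den S s + (l - g) * logHeight₁ s +
          η / 2 * (hs u + logHeight₁ s) + C0 := h3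
      nlinarith
    exact le_of_mul_le_mul_left h4 (by linarith)

end Pool.Agent.Run7.h489.TM
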