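import Mathlib
import Pool.Agent.Run7.h489.TM.Loc2
import Pool.Agent.Run7.h489.TM.Mov

set_option autoImplicit false
set_option linter.unusedSectionVars false

/-!
Approximate zeros as Laurent polynomials, and the local inequality.
-/

namespace Pool.Agent.Run7.h489.TM

open Polynomial

section lau

variable {K : Type} [Field K] {m : ℕ}

/-- functions given by Laurent polynomials -/
def IsL (φ : (Fin m → K) → K) : Prop :=
  ∃ B : (Fin m → ℤ) →₀ K, ∀ u : Fin m → K, (∀ i, u i ≠ 0) → φ u = ev B u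

theorem ev_single (a : K) (ν : Fin m → ℤ) (u : Fin m → K) :
    ev (Finsupp.single ν a) u = a * mono u ν := by
  unfold ev
  rw [Finsupp.sum_single_index (by rw [zero_mul])]

theorem ev_zero (u : Fin m → K) : ev (0 : (Fin m → ℤ) →₀ K) u = 0 := by
  unfold ev
  rw [Finsupp.sum_zero_index]

theorem ev_add (B B' : (Fin m → ℤ) →₀ K) (u : Fin m → K) : ev (B + B') u = ev B u + ev B' u := by
  unfold ev
  exact Finsupp.sum_add_index' (fun _ => zero_mul _) fun _ _ _ => add_mul _ _ _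

theorem IsL.mono (a : K) (ν : Fin m → ℤ) : IsL fun u : Fin m → K => a * TM.mono u ν :=
  ⟨Finsupp.single ν a, fun u _ => (ev_single a ν u).symm⟩

theorem IsL.const (a : K) : IsL fun _ : Fin m → K => a :=
  ⟨Finsupp.single 0 a, fun u _ => by rw [ev_single, mono_zero, mul_one]⟩

theorem IsL.add {φ ψ : (Fin m → K) → K} (h : IsL φ) (h' : IsL ψ) : IsL fun u => φ u + ψ u := by
  obtain ⟨B, hB⟩ := h
  obtain ⟨B', hB'⟩ := h'
  exact ⟨B + B', fun u hu => by
    show φ u + ψ u = _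
    rw [hB u hu, hB' u hu, ev_add]⟩

theorem IsL.sum {ι : Type} (s : Finset ι) {φ : ι → (Fin m → K) → K} (h : ∀ i ∈ s, IsL (φ i)) :
    IsL fun u => ∑ i ∈ s, φ i u := by
  classical
  induction s using Finset.induction_on with
  | empty => simpa using IsL.const (m := m) (0 : K)
  | insert a s ha ih =>
    simp only [Finset.sum_insert ha]
    exact (h a (Finset.mem_insert_self _ _)).add (ih fun i hi => h i (Finset.mem_insert_of_mem hi))

theorem IsL.congr {φ ψ : (Fin m → K) → K} (h : IsL φ)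
    (h' : ∀ u : Fin m → K, (∀ i, u i ≠ 0) → φ u = ψ u) : IsL ψ := by
  obtain ⟨B, hB⟩ := h
  exact ⟨B, fun u hu => by rw [← h' u hu, hB u hu]⟩

theorem IsL.mul {φ ψ : (Fin m → K) → K} (h : IsL φ) (h' : IsL ψ) : IsL fun u => φ u * ψ u := by
  obtain ⟨B, hB⟩ := h
  obtain ⟨B', hB'⟩ := h'
  have h1 : IsL fun u : Fin m → K => ∑ κ ∈ B.support, ∑ κ' ∈ B'.support,
      B κ * B' κ' * TM.mono u (κ + κ') :=
    IsL.sum _ fun κ _ => IsL.sum _ fun κ' _ => IsL.mono _ _
  refine h1.congr fun u hu => ?_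
  rw [hB u hu, hB' u hu]
  unfold ev Finsupp.sum
  rw [Finset.sum_mul_sum]
  refine Finset.sum_congr rfl fun κ _ => Finset.sum_congr rfl fun κ' _ => ?_
  rw [mono_add hu]
  ring

theorem IsL.pow {φ : (Fin m → K) → K} (h : IsL φ) (j : ℕ) : IsL fun u => φ u ^ j := by
  induction j with
  | zero => simpa using IsL.const (m := m) (1 : K)
  | succ j ih =>
    simp only [pow_succ]
    exact ih.mul h

/-- the leading part of `F` -/
noncomputable def gpol {R : Type} [CommRing R] (F : ((Fin m → ℤ) × ℕ) →₀ R)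
    (κ μ : Fin m → ℤ) : R[X] :=
  open Classical in
  ∑ e ∈ F.support with e.1 + e.2 • κ = μ, monomial e.2 (F e)

/-- the polynomial `u^{-μ} F(u, u^κ X)` -/
noncomputable def pol (F : ((Fin m → ℤ) × ℕ) →₀ K) (κ μ : Fin m → ℤ) (u : Fin m → K) : K[X] :=
  ∑ e ∈ F.support, monomial e.2 (F e * mono u (e.1 + e.2 • κ - μ))

theorem natDegree_pol {F : ((Fin m → ℤ) × ℕ) →₀ K} {n : ℕ} (hF : ∀ e ∈ F.support, e.2 ≤ n)
    (κ μ : Fin m → ℤ) (u : Fin m → K) : (pol F κ μ u).natDegree ≤ n :=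
  natDegree_sum_le_of_forall_le _ _ fun e he => (natDegree_monomial_le _).trans (hF e he)

theorem mono_nsmul {u : Fin m → K} (hu : ∀ i, u i ≠ 0) (j : ℕ) (κ : Fin m → ℤ) :
    mono u (j • κ) = mono u κ ^ j := by
  induction j with
  | zero => rw [zero_smul, mono_zero, pow_zero]
  | succ j ih => rw [succ_nsmul, mono_add hu, ih, pow_succ]

theorem eval_pol (F : ((Fin m → ℤ) × ℕ) →₀ K) (κ μ : Fin m → ℤ) {u : Fin m → K}
    (hu : ∀ i, u i ≠ 0) (x : K) :
    (pol F κ μ u).eval x = mono u (-μ) * val F u (mono u κ * x) := by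
  unfold pol
  rw [eval_finsetSum, val_eq, Finset.mul_sum]
  refine Finset.sum_congr rfl fun e _ => ?_
  rw [eval_monomial, sub_eq_add_neg, mono_add hu, mono_add hu, mono_nsmul hu, mul_pow]
  ring

theorem coeff_pol_sub (f : AbsoluteValue K ℝ) (F : ((Fin m → ℤ) × ℕ) →₀ K) (κ μ : Fin m → ℤ)
    (u : Fin m → K) {ρ : ℝ} (hρ0 : 0 ≤ ρ)
    (hρ : ∀ e ∈ F.support, e.1 + e.2 • κ ≠ μ → f (mono u (e.1 + e.2 • κ - μ)) ≤ ρ) (j : ℕ) :
    f ((pol F κ μ u).coeff j - (gpol F κ μ).coeff j) ≤ (∑ e ∈ F.support, f (F e)) * ρ := by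
  classical
  have h1 : pol F κ μ u - gpol F κ μ = ∑ e ∈ F.support with e.1 + e.2 • κ ≠ μ,
      monomial e.2 (F e * mono u (e.1 + e.2 • κ - μ)) := by
    unfold pol gpol
    rw [← Finset.sum_filter_add_sum_filter_not F.support (fun e => e.1 + e.2 • κ = μ)]
    rw [add_sub_assoc, add_comm, sub_add_eq_add_sub]
    rw [add_sub_assoc]
    have h2 : ∑ e ∈ F.support with e.1 + e.2 • κ = μ,
        monomial e.2 (F e * mono u (e.1 + e.2 • κ - μ)) =
        ∑ e ∈ F.support with e.1 + e.2 • κ = μ, monomial e.2 (F e) := by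
      refine Finset.sum_congr rfl fun e he => ?_
      rw [(Finset.mem_filter.1 he).2, sub_self, mono_zero, mul_one]
    rw [h2]
    simp only [ne_eq]
    rw [sub_self, add_zero]
  rw [← coeff_sub, h1, finsetSum_coeff]
  refine (f.sum_le _ _).trans ?_
  have h3 : ∀ e ∈ F.support.filter fun e => e.1 + e.2 • κ ≠ μ,
      f ((monomial e.2 (F e * mono u (e.1 + e.2 • κ - μ))).coeff j) ≤ f (F e) * ρ := by
    intro e he
    rw [Finset.mem_filter] at he
    rw [coeff_monomial]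
    split_ifs
    · rw [map_mul]
      exact mul_le_mul_of_nonneg_left (hρ e he.1 he.2) (f.nonneg _)
    · rw [map_zero]
      exact mul_nonneg (f.nonneg _) hρ0
  refine (Finset.sum_le_sum h3).trans ?_
  rw [← Finset.sum_mul]
  refine mul_le_mul_of_nonneg_right ?_ hρ0
  exact Finset.sum_le_sum_of_subset_of_nonneg (Finset.filter_subset _ _)
    fun e _ _ => f.nonneg _

/-- the targets -/
theorem exists_tg (F : ((Fin m → ℤ) × ℕ) →₀ K) (κ μ : Fin m → ℤ) (L : ℕ) :
    ∃ Bs : Finset ((Fin m → ℤ) →₀ K), 0 ∈ Bs ∧ ∀ α ∈ (gpol F κ μ).roots, ∃ B ∈ Bs,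
      ∀ u : Fin m → K, (∀ i, u i ≠ 0) →
        ev B u = mono u κ * newt (pol F κ μ u) ((gpol F κ μ).derivative.eval α) α L := by
  classical
  have h1 : ∀ (c α : K) (l : ℕ), IsL fun u : Fin m → K => newt (pol F κ μ u) c α l := by
    intro c α l
    induction l with
    | zero => exact IsL.const α
    | succ l ih =>
      have h2 : IsL fun u : Fin m → K => (pol F κ μ u).eval (newt (pol F κ μ u) c α l) := by
        have h3 : IsL fun u : Fin m → K => ∑ e ∈ F.support,
            F e * mono u (e.1 + e.2 • κ - μ) * newt (pol F κ μ u) c α l ^ e.2 :=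
          IsL.sum _ fun e _ => (IsL.mono _ _).mul (ih.pow _)
        refine h3.congr fun u _ => ?_
        conv_rhs => rw [pol]
        rw [eval_finsetSum]
        refine Finset.sum_congr rfl fun e _ => ?_
        rw [eval_monomial]
        rfl
      refine (ih.add ((IsL.const (-c⁻¹)).mul h2)).congr fun u _ => ?_
      show _ = newt (pol F κ μ u) c α l - (pol F κ μ u).eval (newt (pol F κ μ u) c α l) / c
      rw [div_eq_mul_inv]
      ring
  have h2 : ∀ α : K, ∃ B : (Fin m → ℤ) →₀ K, ∀ u : Fin m → K, (∀ i, u i ≠ 0) →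
      ev B u = mono u κ * newt (pol F κ μ u) ((gpol F κ μ).derivative.eval α) α L := by
    intro α
    obtain ⟨B, hB⟩ := (IsL.mono (m := m) (1 : K) κ).mul
      (h1 ((gpol F κ μ).derivative.eval α) α L)
    refine ⟨B, fun u hu => ?_⟩
    rw [← hB u hu]
    show 1 * mono u κ * _ = _
    rw [one_mul]
  choose B hB using h2
  refine ⟨insert 0 ((gpol F κ μ).roots.toFinset.image B), Finset.mem_insert_self _ _, ?_⟩
  intro α hα
  exact ⟨B α, Finset.mem_insert_of_mem (Finset.mem_image_of_mem _ (Multiset.mem_toFinset.2 hα)),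
    hB α⟩

/-- the local inequality -/
theorem local1 (f : AbsoluteValue K ℝ) {F : ((Fin m → ℤ) × ℕ) →₀ K} {κ μ : Fin m → ℤ} {n : ℕ}
    (hn : 1 ≤ n) (hF : ∀ e ∈ F.support, e.2 ≤ n) (hg : (gpol F κ μ).natDegree = n)
    (hs : (gpol F κ μ).Splits)
    (hsep : ∀ α, (gpol F κ μ).eval α = 0 → (gpol F κ μ).derivative.eval α ≠ 0) :
    ∃ ρ₀ : ℝ, 0 < ρ₀ ∧ ρ₀ ≤ 1 ∧ ∀ L : ℕ, ∃ C : ℝ, ∀ Bs : Finset ((Fin m → ℤ) →₀ K),
      (0 ∈ Bs ∧ ∀ α ∈ (gpol F κ μ).roots, ∃ B ∈ Bs, ∀ u : Fin m → K, (∀ i, u i ≠ 0) →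
        ev B u = mono u κ * newt (pol F κ μ u) ((gpol F κ μ).derivative.eval α) α L) →
      ∀ (u : Fin m → K) (s : K) (ρ : ℝ), (∀ i, u i ≠ 0) → 0 ≤ ρ → ρ ≤ ρ₀ →
      (∀ e ∈ F.support, e.1 + e.2 • κ ≠ μ → f (mono u (e.1 + e.2 • κ - μ)) ≤ ρ) →
      val F u s ≠ 0 → ρ ^ (L + 1) ≤ f (mono u (-μ) * val F u s) →
      ∃ B ∈ Bs, s - ev B u ≠ 0 → Real.log (f (s - ev B u)) ≤
        C + Real.log (f (mono u (κ - μ))) + Real.log (f (val F u s)) := by
  obtain ⟨ρ₀, h0, h1, h⟩ := dich f hn hg hs hsep (M := ∑ e ∈ F.support, f (F e))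
    (Finset.sum_nonneg fun e _ => f.nonneg _)
  refine ⟨ρ₀, h0, h1, fun L => ?_⟩
  obtain ⟨C, hC1, hC⟩ := h L
  refine ⟨Real.log (2 * C), ?_⟩
  rintro Bs ⟨hBs0, hBs⟩ u s ρ hu hρ0 hρ hface hval hL
  set x := mono u (-κ) * s with hx
  have hsx : mono u κ * x = s := by
    rw [hx, ← mul_assoc, ← mono_add hu, add_neg_cancel, mono_zero, one_mul]
  have hev : (pol F κ μ u).eval x = mono u (-μ) * val F u s := by
    rw [eval_pol F κ μ hu, hsx]
  have hμ : 0 < f (mono u (-μ)) := f.pos (mono_ne hu _)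
  have hκ : 0 < f (mono u κ) := f.pos (mono_ne hu _)
  have hv : 0 < f (val F u s) := f.pos hval
  have hfin : ∀ y : K, y ≠ 0 → f y ≤ 2 * C * (f (mono u κ) * (f (mono u (-μ)) * f (val F u s))) →
      Real.log (f y) ≤ Real.log (2 * C) + Real.log (f (mono u (κ - μ))) +
        Real.log (f (val F u s)) := by
    intro y hy h2
    have h3 : f (mono u (κ - μ)) = f (mono u κ) * f (mono u (-μ)) := by
      rw [sub_eq_add_neg, mono_add hu, map_mul]
    rw [h3, ← Real.log_mul (by positivity) (by positivity),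
      ← Real.log_mul (by positivity) (by positivity)]
    refine Real.log_le_log (f.pos hy) (h2.trans (le_of_eq (by ring)))
  rcases hC (pol F κ μ u) ρ hρ0 hρ (natDegree_pol hF κ μ u)
    (coeff_pol_sub f F κ μ u hρ0 hface) x with ⟨α, hα, h2⟩ | h2
  · obtain ⟨B, hB, hBu⟩ := hBs α hα
    refine ⟨B, hB, fun hne => hfin _ hne ?_⟩
    rw [hBu u hu] at hne ⊢
    have h3 : s - mono u κ * newt (pol F κ μ u) ((gpol F κ μ).derivative.eval α) α L =
        mono u κ * (x - newt (pol F κ μ u) ((gpol F κ μ).derivative.eval α) α L) := by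
      rw [mul_sub, hsx]
    rw [h3, map_mul]
    rw [hev] at h2
    have h4 : f (x - newt (pol F κ μ u) ((gpol F κ μ).derivative.eval α) α L) ≤
        2 * C * f (mono u (-μ) * val F u s) := by
      have h5 := mul_le_mul_of_nonneg_left hL (by linarith : (0 : ℝ) ≤ C)
      linarith
    rw [map_mul] at h4
    calc f (mono u κ) * f (x - newt (pol F κ μ u) ((gpol F κ μ).derivative.eval α) α L) ≤
          f (mono u κ) * (2 * C * (f (mono u (-μ)) * f (val F u s))) :=
        mul_le_mul_of_nonneg_left h4 hκ.le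
      _ = _ := by ring
  · refine ⟨0, hBs0, fun hne => hfin _ hne ?_⟩
    rw [ev_zero, sub_zero]
    rw [hev, map_mul f (mono u (-μ))] at h2
    have h3 : f x ≤ max 1 (f x) ^ n := (le_max_right _ _).trans
      (le_self_pow₀ (le_max_left _ _) (by omega))
    have h4 : f s = f (mono u κ) * f x := by rw [← map_mul, hsx]
    rw [h4]
    have h5 : f (mono u κ) * f x ≤ f (mono u κ) * (C * (f (mono u (-μ)) * f (val F u s))) :=
      mul_le_mul_of_nonneg_left (h3.trans h2) hκ.le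
    have h6 : 0 ≤ C * (f (mono u κ) * (f (mono u (-μ)) * f (val F u s))) := by positivity
    calc f (mono u κ) * f x ≤ f (mono u κ) * (C * (f (mono u (-μ)) * f (val F u s))) := h5
      _ ≤ _ := by linarith

end lau

end Pool.Agent.Run7.h489.TM
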