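import Mathlib
import Pool.Agent.Run7.h489.TM.Lau

set_option autoImplicit false
set_option linter.unusedSectionVars false

/-!
Heights of values, charts, positivity.
-/

namespace Pool.Agent.Run7.h489.TM

open Height NumberField IsDedekindDomain
open Pool.Agent.W180.OP (Pl av wt fv nrm wt_nonneg le_nrm exists_nrm nrm_pos)
open Pool.Agent.R404.TC (Sp)
open Pool.Agent.R405 (Good sch)
open Pool.Agent.Run7.h489.LV (IsU IsI prod_formula abs_log_le wt_pos mem_Sp_inl)

variable {k : Type} [Field k] [NumberField k] {S : Finset (HeightOneSpectrum (𝓞 k))} {m : ℕ}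

theorem log_le_height (x : k) (hx : x ≠ 0) {v : Pl k} (hv : v ∈ Sp S) :
    Real.log (av v x) ≤ logHeight₁ x := by
  rw [height_den S x]
  have h1 : wt v * Real.log (max (av v x) 1) ≤
      ∑ v ∈ Sp S, wt v * Real.log (max (av v x) 1) :=
    Finset.single_le_sum (f := fun v => wt v * Real.log (max (av v x) 1))
      (fun v _ => mul_nonneg (wt_nonneg v) (Real.log_nonneg (le_max_right _ _))) hv
  have h2 : 0 ≤ Real.log (max (av v x) 1) := Real.log_nonneg (le_max_right _ _)
  have h3 := wt_pos v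
  have h4 : Real.log (av v x) ≤ Real.log (max (av v x) 1) :=
    Real.log_le_log ((av v).pos hx) (le_max_left _ _)
  have h5 := den_nonneg S x
  nlinarith

theorem neg_log_le_height (x : k) (hx : x ≠ 0) {v : Pl k} (hv : v ∈ Sp S) :
    -Real.log (av v x) ≤ logHeight₁ x := by
  have h1 := log_le_height (S := S) x⁻¹ (inv_ne_zero hx) hv
  rwa [map_inv₀, Real.log_inv, logHeight₁_inv] at h1

theorem height_mono_le (u : Fin m → k) (ν : Fin m → ℤ) :
    logHeight₁ (mono u ν) ≤ (∑ i, |(ν i : ℝ)|) * hs u := by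
  unfold mono hs
  refine (logHeight₁_prod_le _ _).trans ?_
  rw [Finset.mul_sum]
  refine Finset.sum_le_sum fun i _ => ?_
  rw [logHeight₁_zpow]
  refine mul_le_mul_of_nonneg_right ?_ (zero_le_logHeight₁ _)
  rw [Nat.cast_natAbs, Int.cast_abs]
  exact Finset.single_le_sum (f := fun i => |(ν i : ℝ)|) (fun _ _ => abs_nonneg _)
    (Finset.mem_univ i)

/-- the height of a value -/
theorem height_val_le (F : ((Fin m → ℤ) × ℕ) →₀ k) : ∃ C : ℝ, 0 ≤ C ∧ ∀ (u : Fin m → k) (s : k),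
    logHeight₁ (val F u s) ≤ C * (hs u + logHeight₁ s + 1) := by
  set A : ℝ := |totalWeight k * Real.log F.support.card| with hA
  set t : ((Fin m → ℤ) × ℕ) → ℝ := fun e => logHeight₁ (F e) + (∑ i, |(e.1 i : ℝ)|) + e.2 with ht
  have ht0 : ∀ e, 0 ≤ t e := fun e => by
    have := zero_le_logHeight₁ (F e)
    simp only [ht]
    positivity
  refine ⟨A + ∑ e ∈ F.support, t e, add_nonneg (abs_nonneg _)
    (Finset.sum_nonneg fun e _ => ht0 e), ?_⟩
  intro u s
  rw [val_eq]
  refine (logHeight₁_sum_le _ _).trans ?_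
  have h0 := hs_nonneg u
  have h0' := zero_le_logHeight₁ s
  have h1 : ∀ e ∈ F.support, logHeight₁ (F e * (mono u e.1 * s ^ e.2)) ≤
      t e * (hs u + logHeight₁ s + 1) := by
    intro e _
    have h2 := logHeight₁_mul_le (F e) (mono u e.1 * s ^ e.2)
    have h3 := logHeight₁_mul_le (mono u e.1) (s ^ e.2)
    have h4 := height_mono_le u e.1
    rw [logHeight₁_pow] at h3
    have h5 := zero_le_logHeight₁ (F e)
    have h6 : 0 ≤ ∑ i, |(e.1 i : ℝ)| := Finset.sum_nonneg fun _ _ => abs_nonneg _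
    have h7 : (0 : ℝ) ≤ e.2 := Nat.cast_nonneg _
    simp only [ht]
    nlinarith [mul_nonneg h5 h0, mul_nonneg h5 h0', mul_nonneg h6 h0', mul_nonneg h7 h0]
  have h2 := Finset.sum_le_sum h1
  rw [← Finset.sum_mul] at h2
  have h3 : totalWeight k * Real.log F.support.card ≤ A * (hs u + logHeight₁ s + 1) := by
    have h4 := le_abs_self (totalWeight k * Real.log F.support.card)
    have h5 : A * 1 ≤ A * (hs u + logHeight₁ s + 1) :=
      mul_le_mul_of_nonneg_left (by linarith) (abs_nonneg _)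
    linarith
  rw [add_mul]
  linarith

open Polynomial in
theorem coeff_gpol {R : Type} [CommRing R] (F : ((Fin m → ℤ) × ℕ) →₀ R) (κ μ : Fin m → ℤ)
    (j : ℕ) : (gpol F κ μ).coeff j = F (μ - j • κ, j) := by
  classical
  unfold gpol
  rw [finsetSum_coeff]
  by_cases h : (μ - j • κ, j) ∈ F.support
  · rw [Finset.sum_eq_single (μ - j • κ, j)]
    · rw [coeff_monomial, if_pos rfl]
    · rintro ⟨e, i⟩ he hne
      rw [Finset.mem_filter] at he
      rw [coeff_monomial, if_neg]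
      rintro rfl
      exact hne (Prod.ext (eq_sub_of_add_eq he.2) rfl)
    · intro h'
      exfalso
      apply h'
      rw [Finset.mem_filter]
      exact ⟨h, sub_add_cancel _ _⟩
  · rw [Finsupp.notMem_support_iff.1 h]
    refine Finset.sum_eq_zero fun e he => ?_
    rw [Finset.mem_filter] at he
    rw [coeff_monomial, if_neg]
    rintro rfl
    apply h
    have : e = (μ - e.2 • κ, e.2) := Prod.ext (eq_sub_of_add_eq he.2) rfl
    rw [← this]
    exact he.1

/-- a direction in which `F` is nondegenerate -/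
structure IsChart {R : Type} [CommRing R] (F : ((Fin m → ℤ) × ℕ) →₀ R) (n : ℕ)
    (κ μ : Fin m → ℤ) : Prop where
  deg : (gpol F κ μ).natDegree = n
  zero : (gpol F κ μ).coeff 0 ≠ 0
  sep : (gpol F κ μ).Separable

theorem IsChart.mem0 {R : Type} [CommRing R] {F : ((Fin m → ℤ) × ℕ) →₀ R} {n : ℕ}
    {κ μ : Fin m → ℤ} (h : IsChart F n κ μ) : (μ, 0) ∈ F.support := by
  rw [Finsupp.mem_support_iff]
  have := h.zero
  rwa [coeff_gpol, zero_smul, sub_zero] at this

theorem IsChart.memn {R : Type} [CommRing R] {F : ((Fin m → ℤ) × ℕ) →₀ R} {n : ℕ}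
    {κ μ : Fin m → ℤ} (h : IsChart F n κ μ) : (μ - n • κ, n) ∈ F.support := by
  rw [Finsupp.mem_support_iff, ← coeff_gpol]
  have h1 : gpol F κ μ ≠ 0 := fun h0 => h.zero (by rw [h0, Polynomial.coeff_zero])
  have h2 := Polynomial.leadingCoeff_ne_zero.2 h1
  rwa [Polynomial.leadingCoeff, h.deg] at h2

theorem charts_finite {R : Type} [CommRing R] (F : ((Fin m → ℤ) × ℕ) →₀ R) {n : ℕ} (hn : 1 ≤ n) :
    {c : (Fin m → ℤ) × (Fin m → ℤ) | IsChart F n c.1 c.2}.Finite := by
  refine Set.Finite.of_injOn (f := fun c : (Fin m → ℤ) × (Fin m → ℤ) =>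
    ((c.2, 0), (c.2 - n • c.1, n))) (t := (F.support ×ˢ F.support : Finset _)) ?_ ?_
    (Finset.finite_toSet _)
  · intro c hc
    rw [Finset.mem_coe, Finset.mem_product]
    exact ⟨IsChart.mem0 hc, IsChart.memn hc⟩
  · rintro ⟨κ, μ⟩ _ ⟨κ', μ'⟩ _ h
    simp only [Prod.mk.injEq] at h
    obtain ⟨⟨rfl, -⟩, h2, -⟩ := h
    rw [sub_right_inj] at h2
    refine Prod.ext ?_ rfl
    funext i
    have h3 := congrFun h2 i
    simp only [Pi.smul_apply, nsmul_eq_mul] at h3
    exact mul_left_cancel₀ (by exact_mod_cast (by omega : n ≠ 0)) h3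

/-- the pairing -/
def dt (θ : Fin m → ℝ) (ν : Fin m → ℤ) : ℝ := ∑ i, ν i * θ i

theorem dt_add (θ : Fin m → ℝ) (ν ν' : Fin m → ℤ) : dt θ (ν + ν') = dt θ ν + dt θ ν' := by
  unfold dt
  rw [← Finset.sum_add_distrib]
  refine Finset.sum_congr rfl fun i _ => ?_
  rw [Pi.add_apply]
  push_cast
  ring

theorem dt_neg (θ : Fin m → ℝ) (ν : Fin m → ℤ) : dt θ (-ν) = -dt θ ν := by
  unfold dt
  rw [← Finset.sum_neg_distrib]
  refine Finset.sum_congr rfl fun i _ => ?_
  rw [Pi.neg_apply]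
  push_cast
  ring

theorem dt_sub (θ : Fin m → ℝ) (ν ν' : Fin m → ℤ) : dt θ (ν - ν') = dt θ ν - dt θ ν' := by
  rw [sub_eq_add_neg, dt_add, dt_neg]
  ring

theorem dt_nsmul (θ : Fin m → ℝ) (n : ℕ) (ν : Fin m → ℤ) : dt θ (n • ν) = n * dt θ ν := by
  unfold dt
  rw [Finset.mul_sum]
  refine Finset.sum_congr rfl fun i _ => ?_
  rw [Pi.smul_apply, nsmul_eq_mul]
  push_cast
  ring

/-- the direction of a point at a place -/
noncomputable def dir (u : Fin m → k) (v : Pl k) : Fin m → ℝ := fun i => Real.log (av v (u i))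

theorem log_av_mono {u : Fin m → k} (hu : ∀ i, u i ≠ 0) (v : Pl k) (ν : Fin m → ℤ) :
    Real.log (av v (mono u ν)) = dt (dir u v) ν := log_mono (av v) hu ν

theorem sum_dt {u : Fin m → k} (hu : ∀ i, IsU S (u i)) (ν : Fin m → ℤ) :
    ∑ v ∈ Sp S, wt v * dt (dir u v) ν = 0 := by
  rw [← prod_formula (isU_mono hu ν)]
  exact Finset.sum_congr rfl fun v _ => by rw [log_av_mono fun i => (hu i).1]

theorem abs_dt_le {u : Fin m → k} (hu : ∀ i, IsU S (u i)) {v : Pl k} (hv : v ∈ Sp S)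
    (ν : Fin m → ℤ) : |dt (dir u v) ν| ≤ (∑ i, |(ν i : ℝ)|) * hs u := by
  rw [← log_av_mono fun i => (hu i).1]
  exact (abs_log_le (isU_mono hu ν) hv).trans (height_mono_le u ν)

/-- the charts of a point have a positive sum -/
theorem positivity' {F : ((Fin m → ℤ) × ℕ) →₀ k} {n : ℕ} (hn : 2 ≤ n)
    (hiso : ¬ ∃ κ μ : Fin m → ℤ, ∀ e ∈ F.support, e.1 + e.2 • κ = μ)
    {u : Fin m → k} (hu : ∀ i, IsU S (u i)) {δ : ℝ} (hδ : 0 < δ)
    (c : Pl k → (Fin m → ℤ) × (Fin m → ℤ)) (hc : ∀ v ∈ Sp S, IsChart F n (c v).1 (c v).2)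
    (hfar : ∀ v ∈ Sp S, ∀ e ∈ F.support, e.1 + e.2 • (c v).1 ≠ (c v).2 →
      δ ≤ dt (dir u v) ((c v).2 - (e.1 + e.2 • (c v).1))) :
    δ ≤ n * ∑ v ∈ Sp S, wt v * dt (dir u v) ((c v).2 - (c v).1) := by
  classical
  obtain ⟨x0⟩ : Nonempty (InfinitePlace k) := inferInstance
  set w : Pl k := Sum.inl x0 with hw
  have hwS : w ∈ Sp S := mem_Sp_inl x0
  -- the chart is not constant
  obtain ⟨v0, hv0, hne⟩ : ∃ v0 ∈ Sp S, c v0 ≠ c w := by
    by_contra hcon
    push Not at hcon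
    apply hiso
    refine ⟨(c w).1, (c w).2, fun e he => ?_⟩
    by_contra hoff
    have h1 : ∀ v ∈ Sp S, wt v * δ ≤ wt v * dt (dir u v) ((c w).2 - (e.1 + e.2 • (c w).1)) := by
      intro v hv
      have h2 := hfar v hv e he (by rw [hcon v hv]; exact hoff)
      rw [hcon v hv] at h2
      exact mul_le_mul_of_nonneg_left h2 (wt_nonneg v)
    have h2 := Finset.sum_le_sum h1
    rw [sum_dt hu] at h2
    have h3 : wt w * δ ≤ ∑ v ∈ Sp S, wt v * δ :=
      Finset.single_le_sum (f := fun v => wt v * δ) (fun v _ => mul_nonneg (wt_nonneg v) hδ.le) hwS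
    have h4 := wt_pos w
    nlinarith
  have hA : ∀ v ∈ Sp S, 0 ≤ dt (dir u v) ((c v).2 - (c w).2) ∧
      ((c v).2 ≠ (c w).2 → δ ≤ dt (dir u v) ((c v).2 - (c w).2)) := by
    intro v hv
    have h1 := hfar v hv ((c w).2, 0) (hc w hwS).mem0
    simp only [zero_smul, add_zero] at h1
    by_cases h : (c w).2 = (c v).2
    · refine ⟨?_, fun h' => absurd h.symm h'⟩
      rw [h, sub_self]
      simp [dt]
    · exact ⟨hδ.le.trans (h1 h), fun _ => h1 h⟩
  have hB : ∀ v ∈ Sp S, 0 ≤ dt (dir u v) (((c v).2 - n • (c v).1) - ((c w).2 - n • (c w).1)) ∧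
      ((c v).2 - n • (c v).1 ≠ (c w).2 - n • (c w).1 →
        δ ≤ dt (dir u v) (((c v).2 - n • (c v).1) - ((c w).2 - n • (c w).1))) := by
    intro v hv
    have h1 := hfar v hv ((c w).2 - n • (c w).1, n) (hc w hwS).memn
    simp only at h1
    have e1 : (c v).2 - ((c w).2 - n • (c w).1 + n • (c v).1) =
        ((c v).2 - n • (c v).1) - ((c w).2 - n • (c w).1) := by abel
    rw [e1] at h1
    by_cases h : (c v).2 - n • (c v).1 = (c w).2 - n • (c w).1
    · refine ⟨?_, fun h' => absurd h h'⟩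
      rw [h, sub_self]
      simp [dt]
    · have h2 : (c w).2 - n • (c w).1 + n • (c v).1 ≠ (c v).2 := by
        intro h'
        exact h (by rw [← h']; abel)
      exact ⟨hδ.le.trans (h1 h2), fun _ => h1 h2⟩
  have hn' : (1 : ℝ) ≤ (n : ℝ) - 1 := by
    have : (2 : ℝ) ≤ n := by exact_mod_cast hn
    linarith
  have hid : ∀ v : Pl k, n * (wt v * dt (dir u v) ((c v).2 - (c v).1)) =
      wt v * (((n : ℝ) - 1) * dt (dir u v) ((c v).2 - (c w).2) +
        dt (dir u v) (((c v).2 - n • (c v).1) - ((c w).2 - n • (c w).1))) +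
      n * (wt v * dt (dir u v) ((c w).2 - (c w).1)) := by
    intro v
    simp only [dt_sub, dt_nsmul]
    ring
  rw [Finset.mul_sum]
  simp only [hid]
  rw [Finset.sum_add_distrib, ← Finset.mul_sum, sum_dt hu, mul_zero, add_zero]
  have hterm : ∀ v ∈ Sp S, 0 ≤ wt v * (((n : ℝ) - 1) * dt (dir u v) ((c v).2 - (c w).2) +
        dt (dir u v) (((c v).2 - n • (c v).1) - ((c w).2 - n • (c w).1))) := by
    intro v hv
    have h1 := (hA v hv).1
    have h2 := (hB v hv).1
    have h3 := wt_nonneg v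
    have h4 : 0 ≤ (n : ℝ) - 1 := by linarith
    positivity
  refine le_trans ?_ (Finset.single_le_sum hterm hv0)
  have h1 := hA v0 hv0
  have h2 := hB v0 hv0
  have h3 := wt_pos v0
  have h4 : δ ≤ ((n : ℝ) - 1) * dt (dir u v0) ((c v0).2 - (c w).2) +
        dt (dir u v0) (((c v0).2 - n • (c v0).1) - ((c w).2 - n • (c w).1)) := by
    by_cases h : (c v0).2 = (c w).2
    · have h5 : (c v0).2 - n • (c v0).1 ≠ (c w).2 - n • (c w).1 := by
        intro h6
        apply hne
        refine Prod.ext ?_ h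
        rw [h, sub_right_inj] at h6
        funext i
        have h7 := congrFun h6 i
        simp only [Pi.smul_apply, nsmul_eq_mul] at h7
        exact mul_left_cancel₀ (by exact_mod_cast (by omega : n ≠ 0)) h7
      have h6 := h2.2 h5
      have h7 := h1.1
      nlinarith
    · have h5 := h1.2 h
      have h6 := h2.1
      nlinarith
  nlinarith

end Pool.Agent.Run7.h489.TM
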