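import Mathlib
import Pool.Agent.Run7.h489.TM.Hts

set_option autoImplicit false
set_option linter.unusedSectionVars false

/-!
The main inequality.
-/

namespace Pool.Agent.Run7.h489.TM

open Height NumberField IsDedekindDomain
open Pool.Agent.W180.OP (Pl av wt fv nrm wt_nonneg le_nrm exists_nrm nrm_pos)
open Pool.Agent.R404.TC (Sp)
open Pool.Agent.R405 (Good sch)
open Pool.Agent.Run7.h489.LV (IsU IsI prod_formula abs_log_le wt_pos mem_Sp_inl)

section map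

variable {k K : Type} [Field k] [Field K] [Algebra k K] {m : ℕ}

/-- base change -/
noncomputable def bc (K : Type) [Field K] [Algebra k K] (F : ((Fin m → ℤ) × ℕ) →₀ k) :
    ((Fin m → ℤ) × ℕ) →₀ K :=
  F.mapRange (algebraMap k K) (map_zero _)

theorem bc_support (F : ((Fin m → ℤ) × ℕ) →₀ k) : (bc K F).support = F.support :=
  Finsupp.support_mapRange_of_injective _ _ (algebraMap k K).injective

theorem bc_apply (F : ((Fin m → ℤ) × ℕ) →₀ k) (e : (Fin m → ℤ) × ℕ) :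
    bc K F e = algebraMap k K (F e) := Finsupp.mapRange_apply ..

theorem val_bc (F : ((Fin m → ℤ) × ℕ) →₀ k) (u : Fin m → k) (s : k) :
    val (bc K F) (fun i => algebraMap k K (u i)) (algebraMap k K s) =
      algebraMap k K (val F u s) := by
  rw [val_eq, val_eq, bc_support, map_sum]
  refine Finset.sum_congr rfl fun e _ => ?_
  rw [bc_apply, map_mul, map_mul, map_pow, map_mono]

theorem gpol_bc (F : ((Fin m → ℤ) × ℕ) →₀ k) (κ μ : Fin m → ℤ) :
    gpol (bc K F) κ μ = (gpol F κ μ).map (algebraMap k K) := by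
  ext j
  rw [coeff_gpol, Polynomial.coeff_map, coeff_gpol, bc_apply]

end map

variable {k K : Type} [Field k] [NumberField k] [Field K] [NumberField K] [Algebra k K]
  {S : Finset (HeightOneSpectrum (𝓞 k))} {m : ℕ}

/-- the walls -/
noncomputable def walls (F : ((Fin m → ℤ) × ℕ) →₀ k) {n : ℕ} (hn : 1 ≤ n)
    (N : Finset (Fin m → ℤ)) : Finset (Fin m → ℤ) :=
  open Classical in
  (N ∪ ((charts_finite F hn).toFinset ×ˢ F.support).image
    fun p => p.1.2 - (p.2.1 + p.2.2 • p.1.1)).erase 0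

theorem bound1 {ι : Type} [Fintype ι] (C : ι → ℝ) : ∃ D : ℝ, 0 ≤ D ∧ ∀ i, C i ≤ D :=
  ⟨∑ i, |C i|, Finset.sum_nonneg fun _ _ => abs_nonneg _, fun i => (le_abs_self _).trans
    (Finset.single_le_sum (f := fun i => |C i|) (fun _ _ => abs_nonneg _) (Finset.mem_univ i))⟩

theorem bound2 {ι κ : Type} [Fintype ι] (s : Finset κ) (C : ι → κ → ℝ) :
    ∃ D : ℝ, 0 ≤ D ∧ ∀ v ∈ s, ∀ i, C i v ≤ D := by
  refine ⟨∑ v ∈ s, ∑ i, |C i v|, Finset.sum_nonneg fun _ _ =>
    Finset.sum_nonneg fun _ _ => abs_nonneg _, fun v hv i => ?_⟩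
  have h1 := Finset.single_le_sum (f := fun v => ∑ i, |C i v|)
    (fun _ _ => Finset.sum_nonneg fun _ _ => abs_nonneg _) hv
  have h2 := Finset.single_le_sum (f := fun i => |C i v|) (fun _ _ => abs_nonneg _)
    (Finset.mem_univ i)
  exact (le_abs_self _).trans (h2.trans h1)

/-- the main inequality -/
theorem generic_big [IsGalois ℚ K] (hi : ∃ z : K, z ^ 2 = -1)
    (F : ((Fin m → ℤ) × ℕ) →₀ k) {n : ℕ} (hn : 2 ≤ n) (hn1 : 1 ≤ n)
    (hF : ∀ e ∈ F.support, e.2 ≤ n)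
    (hiso : ¬ ∃ κ μ : Fin m → ℤ, ∀ e ∈ F.support, e.1 + e.2 • κ = μ)
    (hsplit : ∀ κ μ, IsChart F n κ μ → ((gpol F κ μ).map (algebraMap k K)).Splits)
    {N : Finset (Fin m → ℤ)} (hN0 : ∀ ν ∈ N, ν ≠ 0)
    (hN : ∀ θ : Fin m → ℝ, (∀ ν ∈ N, dt θ ν ≠ 0) → ∃ κ μ, IsChart F n κ μ ∧
      ∀ e ∈ F.support, e.1 + e.2 • κ ≠ μ → dt θ (e.1 + e.2 • κ) < dt θ μ)
    {δ B : ℝ} (hδ : 0 < δ) (hB : 0 ≤ B) :
    ∃ (Z : Finset (((Fin m → ℤ) →₀ k) × ((Fin m → ℤ) →₀ k))) (C : ℝ), (∀ p ∈ Z, p ≠ 0) ∧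
      ∀ (u : Fin m → k) (s : k), (∀ i, IsU S (u i)) → val F u s ≠ 0 →
        (∀ v ∉ S, max (fv v s) 1 ^ n ≤ fv v (val F u s)) → logHeight₁ s ≤ B * hs u →
        (∀ p ∈ Z, ev p.1 u * s + ev p.2 u ≠ 0) →
        (∀ v ∈ Sp S, ∀ ν ∈ walls F hn1 N, δ * hs u ≤ |dt (dir u v) ν|) → hs u ≤ C := by
  classical
  have hnR : (2 : ℝ) ≤ n := by exact_mod_cast hn
  -- absolute values
  choose f hf using fun v : Pl k => Pool.Agent.R405.exists_good (K := K) v
  have hfe : ∀ (v : Pl k) (y : k), f v (algebraMap k K y) = av v y := fun v y => (hf v).ext y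
  set Chs : Finset ((Fin m → ℤ) × (Fin m → ℤ)) := (charts_finite F hn1).toFinset with hChs
  have hCh : ∀ c, c ∈ Chs ↔ IsChart F n c.1 c.2 := fun c => by
    rw [hChs, Set.Finite.mem_toFinset]
    rfl
  -- the local inequalities
  have hloc := fun (c : Chs) (v : Pl k) => local1 (f v) (F := bc K F) (κ := c.1.1) (μ := c.1.2)
    hn1 (by rw [bc_support]; exact hF) (by
      rw [gpol_bc, Polynomial.natDegree_map_eq_of_injective (algebraMap k K).injective]
      exact ((hCh _).1 c.2).deg) (by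
      rw [gpol_bc]
      exact hsplit _ _ ((hCh _).1 c.2)) (by
      intro α h0 h1
      have h2 : (gpol (bc K F) c.1.1 c.1.2).Separable := by
        rw [gpol_bc]
        exact ((hCh _).1 c.2).sep.map
      obtain ⟨a, b, hab⟩ := h2
      have h3 := congrArg (Polynomial.eval α) hab
      rw [Polynomial.eval_add, Polynomial.eval_mul, Polynomial.eval_mul, h0, h1, mul_zero,
        mul_zero, add_zero, Polynomial.eval_one] at h3
      exact zero_ne_one h3)
  choose ρ₀ hρpos hρ1 hL using hloc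
  obtain ⟨CF, hCF0, hCF⟩ := height_val_le F
  -- the length of the expansions
  obtain ⟨bm, hbm⟩ : ∃ bm : ℝ, ∀ c ∈ Chs, ∑ i, |(c.2 i : ℝ)| ≤ bm :=
    ⟨∑ c ∈ Chs, ∑ i, |(c.2 i : ℝ)|, fun c hc =>
      Finset.single_le_sum (f := fun c : (Fin m → ℤ) × (Fin m → ℤ) => ∑ i, |(c.2 i : ℝ)|)
        (fun _ _ => Finset.sum_nonneg fun _ _ => abs_nonneg _) hc⟩
  obtain ⟨L, hLL⟩ := exists_nat_ge ((bm + CF * (2 + B)) / δ)
  choose Cl hCl using fun c v => hL c v L
  choose Bs hBs using fun c : Chs => exists_tg (bc K F) c.1.1 c.1.2 L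
  obtain ⟨𝓑, h𝓑⟩ : ∃ 𝓑 : Finset ((Fin m → ℤ) →₀ K), ∀ c, ∀ B' ∈ Bs c, B' ∈ 𝓑 :=
    ⟨Finset.univ.biUnion Bs, fun c B' hB' => Finset.mem_biUnion.2 ⟨c, Finset.mem_univ _, hB'⟩⟩
  obtain ⟨CL, hCL0, hCLle⟩ := bound2 (Sp S) Cl
  -- the forms
  obtain ⟨η, hη⟩ : ∃ η : ℝ, η = δ / (2 * n * (1 + B)) := ⟨_, rfl⟩
  have hηpos : 0 < η := by rw [hη]; positivity
  obtain ⟨ext, hext⟩ : ∃ ext : (Sp S → 𝓑) → Pl k → ((Fin m → ℤ) →₀ K),
      ∀ b v (h : v ∈ Sp S), ext b v = (b ⟨v, h⟩).1 :=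
    ⟨fun b v => if h : v ∈ Sp S then (b ⟨v, h⟩).1 else 0, fun b v h => dif_pos h⟩
  have hroth := fun b : Sp S → 𝓑 => roth (S := S) hi f (fun v _ => hf v) (ext b) hηpos
  choose Z Cr hZ0 hr using hroth
  obtain ⟨Ct, hCt0, hCtle⟩ := bound1 Cr
  obtain ⟨Cρ, hCρ0, hCρle⟩ := bound2 (Sp S) fun c v => -Real.log (ρ₀ c v)
  obtain ⟨W, hW⟩ : ∃ W : ℝ, W = wS S := ⟨_, rfl⟩
  have hwS : 0 ≤ W := by rw [hW]; exact wS_nonneg S
  have hn0 : (0 : ℝ) ≤ n := Nat.cast_nonneg n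
  have hZall : ∃ Zt : Finset (((Fin m → ℤ) →₀ k) × ((Fin m → ℤ) →₀ k)), ∀ Ψ, Ψ ∈ Zt ↔ ∃ b, Ψ ∈ Z b :=
    ⟨Finset.univ.biUnion Z, fun Ψ => by simp⟩
  obtain ⟨Zt, hZt⟩ := hZall
  refine ⟨Zt, 1 + Cρ / δ + 2 * n * (Ct + CL * W) / δ, ?_, ?_⟩
  · intro Ψ hΨ
    obtain ⟨b, hb⟩ := (hZt Ψ).1 hΨ
    exact hZ0 b Ψ hb
  intro u s hu hval hint hhs hoff hgen
  by_contra hcon
  push Not at hcon
  obtain ⟨h₁, hh₁⟩ : ∃ h₁ : ℝ, h₁ = hs u := ⟨_, rfl⟩
  simp only [← hh₁] at hcon hhs hgen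
  have hp1 : 0 ≤ Cρ / δ := div_nonneg hCρ0 hδ.le
  have hp2 : 0 ≤ 2 * n * (Ct + CL * W) / δ :=
    div_nonneg (mul_nonneg (by linarith) (add_nonneg hCt0 (mul_nonneg hCL0 hwS))) hδ.le
  have hh1 : 1 ≤ h₁ := by linarith
  have hh2 : Cρ ≤ δ * h₁ := by
    have : Cρ / δ ≤ h₁ := by linarith
    rw [div_le_iff₀ hδ] at this
    linarith
  have hh3 : 2 * n * (Ct + CL * W) < δ * h₁ := by
    have : 2 * n * (Ct + CL * W) / δ < h₁ := by linarith
    rw [div_lt_iff₀ hδ] at this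
    linarith
  have hδh : 0 < δ * h₁ := mul_pos hδ (by linarith)
  have hu0 : ∀ i, u i ≠ 0 := fun i => (hu i).1
  have huK0 : ∀ i, algebraMap k K (u i) ≠ 0 := fun i => (_root_.map_ne_zero _).2 (hu0 i)
  -- the charts
  have hNw : ∀ ν ∈ N, ν ∈ walls F hn1 N := fun ν hν =>
    Finset.mem_erase.2 ⟨hN0 ν hν, Finset.mem_union_left _ hν⟩
  have hcharts : ∀ v ∈ Sp S, ∃ c : (Fin m → ℤ) × (Fin m → ℤ), IsChart F n c.1 c.2 ∧
      ∀ e ∈ F.support, e.1 + e.2 • c.1 ≠ c.2 →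
        dt (dir u v) (e.1 + e.2 • c.1) < dt (dir u v) c.2 := by
    intro v hv
    obtain ⟨κ, μ, h1, h2⟩ := hN (dir u v) fun ν hν h0 => by
      have h3 := hgen v hv ν (hNw ν hν)
      rw [h0, abs_zero] at h3
      linarith
    exact ⟨(κ, μ), h1, h2⟩
  choose! c hc hcd using hcharts
  have hfar : ∀ v ∈ Sp S, ∀ e ∈ F.support, e.1 + e.2 • (c v).1 ≠ (c v).2 →
      δ * h₁ ≤ dt (dir u v) ((c v).2 - (e.1 + e.2 • (c v).1)) := by
    intro v hv e he hoffe
    have h1 : (c v).2 - (e.1 + e.2 • (c v).1) ∈ walls F hn1 N := by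
      refine Finset.mem_erase.2 ⟨sub_ne_zero.2 (Ne.symm hoffe), Finset.mem_union_right _ ?_⟩
      exact Finset.mem_image.2 ⟨(c v, e), Finset.mem_product.2 ⟨(hCh _).2 (hc v hv), he⟩, rfl⟩
    have h2 := hgen v hv _ h1
    have h3 := hcd v hv e he hoffe
    have h4 : 0 < dt (dir u v) ((c v).2 - (e.1 + e.2 • (c v).1)) := by
      rw [dt_sub]
      linarith
    rwa [abs_of_pos h4] at h2
  have hpos := positivity' hn hiso hu hδh c hc hfar
  -- the local inequalities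
  have hlocal : ∀ v ∈ Sp S, ∃ B' ∈ 𝓑,
      algebraMap k K s - ev B' (fun i => algebraMap k K (u i)) ≠ 0 →
      Real.log (f v (algebraMap k K s - ev B' fun i => algebraMap k K (u i))) ≤
        CL + dt (dir u v) ((c v).1 - (c v).2) + Real.log (av v (val F u s)) := by
    intro v hv
    set c' : Chs := ⟨c v, (hCh _).2 (hc v hv)⟩ with hc'
    obtain ⟨B', hB', h1⟩ := hCl c' v (Bs c') (hBs c') (fun i => algebraMap k K (u i))
      (algebraMap k K s) (Real.exp (-(δ * h₁))) huK0 (Real.exp_pos _).le (by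
        have h2 := hCρle v hv c'
        have h3 : -(δ * h₁) ≤ Real.log (ρ₀ c' v) := by linarith
        calc Real.exp (-(δ * h₁)) ≤ Real.exp (Real.log (ρ₀ c' v)) := Real.exp_le_exp.2 h3
          _ = ρ₀ c' v := Real.exp_log (hρpos _ _)) (by
        intro e he hoffe
        rw [bc_support] at he
        rw [← map_mono (algebraMap k K), hfe]
        have h2 := hfar v hv e he hoffe
        have h3 : 0 < av v (mono u (e.1 + e.2 • (c v).1 - (c v).2)) := (av v).pos (mono_ne hu0 _)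
        rw [← Real.log_le_iff_le_exp h3, log_av_mono hu0]
        have h4 : e.1 + e.2 • (c v).1 - (c v).2 = -((c v).2 - (e.1 + e.2 • (c v).1)) := by abel
        rw [h4, dt_neg]
        linarith) (by
        rw [val_bc]
        exact (_root_.map_ne_zero _).2 hval) (by
        rw [val_bc, ← map_mono (algebraMap k K), ← map_mul, hfe, ← Real.exp_nat_mul]
        have h3 : 0 < av v (mono u (-(c v).2) * val F u s) :=
          (av v).pos (mul_ne_zero (mono_ne hu0 _) hval)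
        rw [← Real.le_log_iff_exp_le h3, map_mul,
          Real.log_mul ((av v).ne_zero (mono_ne hu0 _)) ((av v).ne_zero hval), log_av_mono hu0]
        have h4 := neg_log_le_height (S := S) (val F u s) hval hv
        have h5 := hCF u s
        have h6 := abs_dt_le hu hv (-(c v).2)
        have h7 : ∑ i, |((-(c v).2) i : ℝ)| ≤ bm := by
          have h8 : ∑ i, |(((-(c v).2) i : ℤ) : ℝ)| = ∑ i, |((c v).2 i : ℝ)| := by
            refine Finset.sum_congr rfl fun i _ => ?_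
            rw [Pi.neg_apply, Int.cast_neg, abs_neg]
          rw [h8]
          exact hbm _ ((hCh _).2 (hc v hv))
        rw [← hh₁] at h5 h6
        have h8 : |dt (dir u v) (-(c v).2)| ≤ bm * h₁ :=
          h6.trans (mul_le_mul_of_nonneg_right h7 (by linarith))
        have h9 := neg_abs_le (dt (dir u v) (-(c v).2))
        have h10 : CF * (h₁ + logHeight₁ s + 1) ≤ CF * (2 + B) * h₁ := by
          rw [mul_assoc]
          refine mul_le_mul_of_nonneg_left ?_ hCF0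
          linarith
        have h11 : (bm + CF * (2 + B)) * h₁ ≤ (L : ℝ) * (δ * h₁) := by
          rw [div_le_iff₀ hδ] at hLL
          calc (bm + CF * (2 + B)) * h₁ ≤ (L * δ) * h₁ :=
                mul_le_mul_of_nonneg_right hLL (by linarith)
            _ = _ := by ring
        push_cast
        linarith)
    refine ⟨B', h𝓑 c' B' hB', fun hne => ?_⟩
    have h2 := h1 hne
    rw [val_bc, hfe, ← map_mono (algebraMap k K), hfe, log_av_mono hu0] at h2
    have h3 := hCLle v hv c'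
    linarith
  choose! Bv hBv hBl using hlocal
  obtain ⟨b, hb⟩ : ∃ b : Sp S → 𝓑, ∀ v, (b v).1 = Bv v.1 :=
    ⟨fun v => ⟨Bv v.1, hBv v.1 v.2⟩, fun v => rfl⟩
  have hbv : ∀ v ∈ Sp S, ext b v = Bv v := by
    intro v hv
    rw [hext b v hv, hb]
  obtain ⟨-, hne, hmain⟩ := hr b u s hu fun Ψ hΨ =>
    hoff Ψ ((hZt Ψ).2 ⟨b, hΨ⟩)
  rw [← hh₁] at hmain
  have hsum : ∑ v ∈ Sp S, wt v *
      Real.log (f v (algebraMap k K s - ev (ext b v) fun i => algebraMap k K (u i))) ≤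
      ∑ v ∈ Sp S, wt v * (CL + dt (dir u v) ((c v).1 - (c v).2) +
        Real.log (av v (val F u s))) := by
    refine Finset.sum_le_sum fun v hv => ?_
    refine mul_le_mul_of_nonneg_left ?_ (wt_nonneg v)
    have h1 := hne v hv
    rw [hbv v hv] at h1 ⊢
    exact hBl v hv h1
  have hsum2 : ∑ v ∈ Sp S, wt v * (CL + dt (dir u v) ((c v).1 - (c v).2) +
        Real.log (av v (val F u s))) = CL * W -
        ∑ v ∈ Sp S, wt v * dt (dir u v) ((c v).2 - (c v).1) +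
        ∑ v ∈ Sp S, wt v * Real.log (av v (val F u s)) := by
    rw [hW]
    unfold wS
    rw [Finset.mul_sum, ← Finset.sum_sub_distrib, ← Finset.sum_add_distrib]
    refine Finset.sum_congr rfl fun v _ => ?_
    rw [← neg_sub (c v).2 (c v).1, dt_neg]
    ring
  have hint' := int_ineq (S := S) hval hint
  have hden := den_nonneg S s
  have hCr := hCtle b
  obtain ⟨P, hP⟩ : ∃ P : ℝ, P = ∑ v ∈ Sp S, wt v * dt (dir u v) ((c v).2 - (c v).1) := ⟨_, rfl⟩
  rw [← hP] at hsum2 hpos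
  have h5 : P ≤ η * (h₁ + logHeight₁ s) + Ct + CL * W := by
    have h6 : 2 * den S s ≤ n * den S s := mul_le_mul_of_nonneg_right hnR hden
    linarith
  have h6 : η * (h₁ + logHeight₁ s) ≤ δ / (2 * n) * h₁ := by
    have h7 : η * (h₁ + logHeight₁ s) ≤ η * ((1 + B) * h₁) :=
      mul_le_mul_of_nonneg_left (by linarith) hηpos.le
    have h8 : η * ((1 + B) * h₁) = δ / (2 * n) * h₁ := by
      rw [hη]
      field_simp
    linarith
  have h7 : δ * h₁ ≤ n * (δ / (2 * n) * h₁ + Ct + CL * W) := by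
    refine hpos.trans (mul_le_mul_of_nonneg_left ?_ (by linarith))
    linarith
  have h9 : (n : ℝ) * (δ / (2 * n) * h₁) = δ * h₁ / 2 := by
    have hne : (n : ℝ) ≠ 0 := by linarith
    field_simp
  have h8 : (n : ℝ) * (δ / (2 * n) * h₁ + Ct + CL * W) = δ * h₁ / 2 + n * (Ct + CL * W) := by
    rw [add_assoc, mul_add, h9]
  rw [h8] at h7
  linarith

end Pool.Agent.Run7.h489.TM
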