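import Mathlib
import Pool.Agent.R405.Big
import Pool.Agent.Run7.h489.TM.Gl

set_option autoImplicit false
set_option linter.unusedSectionVars false

/-!
The main inequality over the base field.
-/

namespace Pool.Agent.Run7.h489.TM

open Height NumberField IsDedekindDomain
open Pool.Agent.W180.OP (Pl av wt fv nrm wt_nonneg le_nrm exists_nrm nrm_pos)
open Pool.Agent.R404.TC (Sp)
open Pool.Agent.Run7.h489.LV (IsU IsI prod_formula abs_log_le wt_pos mem_Sp_inl)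

variable {k : Type} [Field k] [NumberField k] {S : Finset (HeightOneSpectrum (𝓞 k))} {m : ℕ}

theorem exists_split' (P : Polynomial k) (K1 : Type) [Field K1] [Algebra k K1]
    [FiniteDimensional k K1] (hPs : (P.map (algebraMap k K1)).Splits) :
    ∃ (M : Type) (_ : Field M) (_ : NumberField M) (_ : Algebra k M),
      IsGalois ℚ M ∧ (∃ z : M, z ^ 2 = -1) ∧ (P.map (algebraMap k M)).Splits := by
  have hc1 : CharZero K1 := charZero_of_injective_algebraMap (algebraMap k K1).injective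
  have hfdQ : FiniteDimensional ℚ K1 := Module.Finite.trans (R := ℚ) k K1
  have hnfK1 : NumberField K1 := ⟨⟩
  obtain ⟨M, hM1, hM2, hi, ⟨φ⟩⟩ := Pool.Agent.R405.exists_big K1
  have hnfM : NumberField M := ⟨⟩
  refine ⟨M, inferInstance, hnfM, (φ.comp (algebraMap k K1)).toAlgebra, hM2, hi, ?_⟩
  have h3 : P.map (φ.comp (algebraMap k K1)) = (P.map (algebraMap k K1)).map φ := by
    rw [Polynomial.map_map]
  show (P.map (φ.comp (algebraMap k K1))).Splits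
  rw [h3]
  exact hPs.map φ

theorem exists_split (P : Polynomial k) :
    ∃ (M : Type) (_ : Field M) (_ : NumberField M) (_ : Algebra k M),
      IsGalois ℚ M ∧ (∃ z : M, z ^ 2 = -1) ∧ (P.map (algebraMap k M)).Splits :=
  exists_split' P P.SplittingField (Polynomial.SplittingField.splits P)

theorem exists_prod (F : ((Fin m → ℤ) × ℕ) →₀ k) {n : ℕ} (hn1 : 1 ≤ n) :
    ∃ P : Polynomial k, P ≠ 0 ∧ ∀ κ μ, IsChart F n κ μ → gpol F κ μ ∣ P := by
  obtain ⟨Chs, hCh⟩ : ∃ Chs : Finset ((Fin m → ℤ) × (Fin m → ℤ)),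
      ∀ c, c ∈ Chs ↔ IsChart F n c.1 c.2 :=
    ⟨(charts_finite F hn1).toFinset, fun c => by
      rw [Set.Finite.mem_toFinset]
      rfl⟩
  refine ⟨∏ c ∈ Chs, gpol F c.1 c.2, ?_, ?_⟩
  · rw [Finset.prod_ne_zero_iff]
    intro c hc h0
    have h1 := ((hCh c).1 hc).zero
    rw [h0, Polynomial.coeff_zero] at h1
    exact h1 rfl
  · intro κ μ hc
    have h1 := Finset.dvd_prod_of_mem (fun c : (Fin m → ℤ) × (Fin m → ℤ) => gpol F c.1 c.2)
      ((hCh (κ, μ)).2 hc)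
    exact h1

/-- the main inequality -/
theorem generic (F : ((Fin m → ℤ) × ℕ) →₀ k) {n : ℕ} (hn : 2 ≤ n) (hn1 : 1 ≤ n)
    (hF : ∀ e ∈ F.support, e.2 ≤ n)
    (hiso : ¬ ∃ κ μ : Fin m → ℤ, ∀ e ∈ F.support, e.1 + e.2 • κ = μ)
    {N : Finset (Fin m → ℤ)} (hN0 : ∀ ν ∈ N, ν ≠ 0)
    (hN : ∀ θ : Fin m → ℝ, (∀ ν ∈ N, dt θ ν ≠ 0) → ∃ κ μ, IsChart F n κ μ ∧
      ∀ e ∈ F.support, e.1 + e.2 • κ ≠ μ → dt θ (e.1 + e.2 • κ) < dt θ μ)
    {δ B : ℝ} (hδ : 0 < δ) (hB : 0 ≤ B) :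
    ∃ (Z : Finset (((Fin m → ℤ) →₀ k) × ((Fin m → ℤ) →₀ k))) (C : ℝ), (∀ p ∈ Z, p ≠ 0) ∧
      ∀ (u : Fin m → k) (s : k), (∀ i, IsU S (u i)) → val F u s ≠ 0 →
        (∀ v ∉ S, max (fv v s) 1 ^ n ≤ fv v (val F u s)) → logHeight₁ s ≤ B * hs u →
        (∀ p ∈ Z, ev p.1 u * s + ev p.2 u ≠ 0) →
        (∀ v ∈ Sp S, ∀ ν ∈ walls F hn1 N, δ * hs u ≤ |dt (dir u v) ν|) → hs u ≤ C := by
  obtain ⟨P, hP0, hdvd⟩ := exists_prod F hn1
  obtain ⟨M, hM1, hM2, hM3, hM4, hi, h2⟩ := exists_split P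
  refine generic_big (K := M) hi F hn hn1 hF hiso ?_ hN0 hN hδ hB
  intro κ μ hc
  refine h2.of_dvd ?_ (Polynomial.map_dvd _ (hdvd κ μ hc))
  rw [Polynomial.map_ne_zero_iff (algebraMap k M).injective]
  exact hP0

end Pool.Agent.Run7.h489.TM
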