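import Mathlib
import Pool.Agent.Run7.h489.TM.Gen
import Pool.Agent.Run7.h489.LV.Many
import Pool.Agent.Run7.h489.LV.Pack

set_option autoImplicit false
set_option linter.unusedSectionVars false

/-!
Counting tuples of units.
-/

namespace Pool.Agent.Run7.h489.TM

open Height NumberField IsDedekindDomain
open Pool.Agent.W180.OP (Pl av wt fv nrm wt_nonneg le_nrm exists_nrm nrm_pos)
open Pool.Agent.R404.TC (Sp)
open Pool.Agent.Run7.h489.LV (IsU IsI prod_formula abs_log_le wt_pos mem_Sp_inl Un un_finite Wall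
  wall_finite pack many log_av_div)

variable {k : Type} [Field k] [NumberField k] {S : Finset (HeightOneSpectrum (𝓞 k))} {m : ℕ}

/-- the units of bounded height -/
noncomputable def UF (S : Finset (HeightOneSpectrum (𝓞 k))) (T : ℝ) : Finset k :=
  (un_finite S T).toFinset

theorem mem_UF {T : ℝ} {x : k} : x ∈ UF S T ↔ IsU S x ∧ logHeight₁ x ≤ T := by
  unfold UF
  rw [Set.Finite.mem_toFinset]
  rfl

/-- the tuples of units of bounded height -/
noncomputable def Bx (m : ℕ) (S : Finset (HeightOneSpectrum (𝓞 k))) (T : ℝ) :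
    Finset (Fin m → k) := Fintype.piFinset fun _ => UF S T

theorem mem_Bx {T : ℝ} {u : Fin m → k} :
    u ∈ Bx m S T ↔ ∀ i, IsU S (u i) ∧ logHeight₁ (u i) ≤ T := by
  unfold Bx
  rw [Fintype.mem_piFinset]
  exact forall_congr' fun i => mem_UF

theorem card_Bx (T : ℝ) : (Bx m S T).card = (UF S T).card ^ m := by
  unfold Bx
  rw [Fintype.card_piFinset, Finset.prod_const, Finset.card_univ, Fintype.card_fin]

theorem many' (S : Finset (HeightOneSpectrum (𝓞 k))) :
    ∃ c : ℝ, 0 < c ∧ ∀ T : ℝ, 0 ≤ T → c * T ^ ((Sp S).card - 1) ≤ (UF S T).card := by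
  obtain ⟨c, hc, h⟩ := many S
  refine ⟨c, hc, fun T hT => (h T hT).trans (le_of_eq ?_)⟩
  unfold UF
  rw [Set.ncard_eq_toFinset_card _ (un_finite S T)]

theorem UF_pos {T : ℝ} (hT : 0 ≤ T) : 0 < (UF S T).card :=
  Finset.card_pos.2 ⟨1, mem_UF.2 ⟨IsU.one, by rw [logHeight₁_one]; exact hT⟩⟩

open Classical in
/-- zeros of a Laurent polynomial -/
theorem zip (S : Finset (HeightOneSpectrum (𝓞 k))) {b : (Fin m → ℤ) →₀ k} (hb : b ≠ 0) :
    ∃ D : ℕ, ∀ T : ℝ, 0 ≤ T →
      ((Bx m S T).filter fun u => ev b u = 0).card * (UF S T).card ≤ D * (UF S T).card ^ m := by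
  obtain ⟨D, hD⟩ : ∃ D : ℕ, ∀ ν ∈ b.support, ∀ i, |ν i| ≤ D := by
    refine ⟨∑ ν ∈ b.support, ∑ i, (ν i).natAbs, ?_⟩
    intro ν hν i
    have h1 := Finset.single_le_sum (f := fun i => (ν i).natAbs) (fun _ _ => Nat.zero_le _)
      (Finset.mem_univ i)
    have h2 := Finset.single_le_sum (f := fun ν : Fin m → ℤ => ∑ i, (ν i).natAbs)
      (fun _ _ => Nat.zero_le _) hν
    rw [Int.abs_eq_natAbs]
    exact_mod_cast h1.trans h2
  let φ : (Fin m → ℤ) → (Fin m →₀ ℕ) := fun ν =>
    Finsupp.equivFunOnFinite.symm fun i => (ν i + D).toNat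
  have hφ : ∀ ν i, φ ν i = (ν i + D).toNat := fun ν i => rfl
  have hφc : ∀ ν ∈ b.support, ∀ i, ((φ ν i : ℕ) : ℤ) = ν i + D := by
    intro ν hν i
    rw [hφ, Int.toNat_of_nonneg]
    have := (abs_le.1 (hD ν hν i)).1
    omega
  have hinj : ∀ ν ∈ b.support, ∀ ν' ∈ b.support, φ ν = φ ν' → ν = ν' := by
    intro ν hν ν' hν' h
    funext i
    have h1 := hφc ν hν i
    have h2 := hφc ν' hν' i
    rw [h] at h1
    omega
  set P : MvPolynomial (Fin m) k := ∑ ν ∈ b.support, MvPolynomial.monomial (φ ν) (b ν) with hP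
  have hP0 : P ≠ 0 := by
    obtain ⟨ν0, hν0⟩ := Finsupp.support_nonempty_iff.2 hb
    intro h0
    have h1 : P.coeff (φ ν0) = b ν0 := by
      rw [hP, MvPolynomial.coeff_sum, Finset.sum_eq_single ν0]
      · rw [MvPolynomial.coeff_monomial, if_pos rfl]
      · intro ν hν hne
        rw [MvPolynomial.coeff_monomial, if_neg]
        exact fun h => hne (hinj ν hν ν0 hν0 h)
      · intro h
        exact absurd hν0 h
    rw [h0, MvPolynomial.coeff_zero] at h1
    exact Finsupp.mem_support_iff.1 hν0 h1.symm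
  have hev : ∀ u : Fin m → k, (∀ i, u i ≠ 0) →
      MvPolynomial.eval u P = mono u (fun _ => (D : ℤ)) * ev b u := by
    intro u hu
    rw [hP, map_sum]
    unfold ev Finsupp.sum
    rw [Finset.mul_sum]
    refine Finset.sum_congr rfl fun ν hν => ?_
    rw [MvPolynomial.eval_monomial]
    have h1 : ((φ ν).prod fun n e => u n ^ e) = mono u (ν + fun _ => (D : ℤ)) := by
      rw [Finsupp.prod_fintype _ _ (fun _ => pow_zero _)]
      unfold mono
      refine Finset.prod_congr rfl fun i _ => ?_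
      rw [← zpow_natCast, hφc ν hν i]
      rfl
    rw [h1, mono_add hu]
    ring
  refine ⟨P.totalDegree, fun T hT => ?_⟩
  have h1 := MvPolynomial.schwartz_zippel_totalDegree hP0 (UF S T)
  have hpos := UF_pos (S := S) hT
  have h2 : ((Bx m S T).filter fun u => ev b u = 0).card ≤
      ((Fintype.piFinset fun _ : Fin m => UF S T).filter fun f =>
        MvPolynomial.eval f P = 0).card := by
    refine Finset.card_le_card fun u hu => ?_
    rw [Finset.mem_filter] at hu ⊢
    refine ⟨hu.1, ?_⟩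
    rw [hev u fun i => (mem_Bx.1 hu.1 i).1.1, hu.2, mul_zero]
  have hposq : (0 : ℚ≥0) < (UF S T).card := by exact_mod_cast hpos
  rw [div_le_div_iff₀ (by positivity) hposq] at h1
  have h3 : ((Fintype.piFinset fun _ : Fin m => UF S T).filter fun f =>
        MvPolynomial.eval f P = 0).card * (UF S T).card ≤ P.totalDegree * (UF S T).card ^ m := by
    exact_mod_cast h1
  exact (Nat.mul_le_mul_right _ h2).trans h3

open Classical in
/-- tuples near to a wall -/
theorem bad1 (S : Finset (HeightOneSpectrum (𝓞 k))) (hs : 2 ≤ (Sp S).card) {v : Pl k}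
    (hv : v ∈ Sp S) {ν : Fin m → ℤ} (hν : ν ≠ 0) : ∃ C : ℝ, 0 < C ∧ ∀ T δ : ℝ, 1 ≤ T →
      1 ≤ δ * T → 0 < δ → (((Bx m S T).filter fun u => |dt (dir u v) ν| < δ * T).card : ℝ) ≤
        C * δ * (UF S T).card ^ m := by
  obtain ⟨i, hi⟩ := Function.ne_iff.1 hν
  have hi' : ν i ≠ 0 := hi
  obtain ⟨Cp, hCp, hpk⟩ := pack S hs hv
  obtain ⟨c, hc, hmn⟩ := many' S
  set r := (Sp S).card - 2 with hr
  have hr1 : (Sp S).card - 1 = r + 1 := by omega
  rw [hr1] at hmn
  refine ⟨Cp * 3 ^ (r + 1) / c, by positivity, ?_⟩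
  intro T δ hT hδT hδ
  set A := (Bx m S T).filter fun u => |dt (dir u v) ν| < δ * T with hA
  set Q : Finset (Fin m → k) := Fintype.piFinset fun j => if j = i then {1} else UF S T with hQ
  have hmaps : ∀ u ∈ A, Function.update u i 1 ∈ Q := by
    intro u hu
    rw [hQ, Fintype.mem_piFinset]
    intro j
    by_cases hj : j = i
    · rw [if_pos hj, hj, Function.update_self]
      exact Finset.mem_singleton_self _
    · rw [if_neg hj, Function.update_of_ne hj]
      exact mem_UF.2 (mem_Bx.1 (Finset.mem_filter.1 hu).1 j)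
  set w := (wall_finite S v (2 * T) (2 * (δ * T))).toFinset.card with hw
  have hfib : ∀ b ∈ Q, (A.filter fun u => Function.update u i 1 = b).card ≤ w := by
    intro b _
    rcases (A.filter fun u => Function.update u i 1 = b).eq_empty_or_nonempty with h0 | ⟨u0, hu0⟩
    · rw [h0, Finset.card_empty]
      exact Nat.zero_le _
    · obtain ⟨hu0A, hu0b⟩ := Finset.mem_filter.1 hu0
      obtain ⟨hu0B, hu0d⟩ := Finset.mem_filter.1 hu0A
      have hU0 := mem_Bx.1 hu0B
      refine Finset.card_le_card_of_injOn (fun u => u i / u0 i) ?_ ?_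
      · intro u hu
        obtain ⟨huA, hub⟩ := Finset.mem_filter.1 hu
        obtain ⟨huB, hud⟩ := Finset.mem_filter.1 huA
        have hU := mem_Bx.1 huB
        rw [Finset.mem_coe, Set.Finite.mem_toFinset]
        refine ⟨(hU i).1.div (hU0 i).1, ?_, ?_⟩
        · show logHeight₁ (u i / u0 i) ≤ 2 * T
          rw [div_eq_mul_inv]
          refine (logHeight₁_mul_le _ _).trans ?_
          rw [logHeight₁_inv]
          have h1 := (hU i).2
          have h2 := (hU0 i).2
          linarith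
        · rw [log_av_div v (hU i).1.1 (hU0 i).1.1]
          have h1 : dt (dir u v) ν - dt (dir u0 v) ν =
              ν i * (Real.log (av v (u i)) - Real.log (av v (u0 i))) := by
            unfold dt
            rw [← Finset.sum_sub_distrib, Finset.sum_eq_single i]
            · unfold dir
              ring
            · intro j _ hj
              have h2 : u j = u0 j := by
                have h3 := congrFun (hub.trans hu0b.symm) j
                rwa [Function.update_of_ne hj, Function.update_of_ne hj] at h3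
              unfold dir
              rw [h2, sub_self]
            · intro h
              exact absurd (Finset.mem_univ _) h
          have h2 : |dt (dir u v) ν - dt (dir u0 v) ν| ≤ 2 * (δ * T) := by
            have h3 := abs_sub (dt (dir u v) ν) (dt (dir u0 v) ν)
            linarith
          rw [h1, abs_mul] at h2
          have h3 : (1 : ℝ) ≤ |(ν i : ℝ)| := by
            rw [← Int.cast_abs]
            exact_mod_cast Int.one_le_abs hi'
          have h4 := abs_nonneg (Real.log (av v (u i)) - Real.log (av v (u0 i)))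
          nlinarith
      · intro u hu u' hu' h
        obtain ⟨-, hub⟩ := Finset.mem_filter.1 hu
        obtain ⟨-, hub'⟩ := Finset.mem_filter.1 hu'
        have h1 : u i = u' i := (div_left_inj' (hU0 i).1.1).1 h
        funext j
        by_cases hj : j = i
        · rw [hj, h1]
        · have h3 := congrFun (hub.trans hub'.symm) j
          rwa [Function.update_of_ne hj, Function.update_of_ne hj] at h3
  have h1 := Finset.card_le_mul_card_image_of_maps_to hmaps w hfib
  have hm : ∃ m', m = m' + 1 := ⟨m - 1, by have := i.2; omega⟩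
  have hQc : Q.card * (UF S T).card = (UF S T).card ^ m := by
    rw [hQ, Fintype.card_piFinset]
    rw [← Finset.mul_prod_erase _ _ (Finset.mem_univ i), if_pos rfl, Finset.card_singleton, one_mul]
    have h2 : ∏ j ∈ Finset.univ.erase i, (if j = i then ({1} : Finset k) else UF S T).card =
        ∏ _j ∈ Finset.univ.erase i, (UF S T).card :=
      Finset.prod_congr rfl fun j hj => by rw [if_neg (Finset.ne_of_mem_erase hj)]
    rw [h2, Finset.prod_const, Finset.card_erase_of_mem (Finset.mem_univ _), Finset.card_univ,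
      Fintype.card_fin]
    obtain ⟨m', rfl⟩ := hm
    rw [Nat.add_sub_cancel, pow_succ]
  have hwb : (w : ℝ) ≤ Cp * 3 ^ (r + 1) / c * δ * (UF S T).card := by
    have h2 := hpk (2 * T) (2 * (δ * T)) (by linarith) (by linarith)
    rw [Set.ncard_eq_toFinset_card _ (wall_finite S v (2 * T) (2 * (δ * T)))] at h2
    refine h2.trans ?_
    have h3 : (2 * T + 1) ^ r ≤ (3 * T) ^ r := pow_le_pow_left₀ (by linarith) (by linarith) r
    have h4 : (2 * T + 1) ^ r * (2 * (δ * T) + 1) ≤ (3 * T) ^ r * (3 * (δ * T)) :=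
      mul_le_mul h3 (by linarith) (by linarith) (by positivity)
    have h5 := hmn T (by linarith)
    have h6 : Cp * 3 ^ (r + 1) / c * δ * (c * T ^ (r + 1)) ≤
        Cp * 3 ^ (r + 1) / c * δ * (UF S T).card := mul_le_mul_of_nonneg_left h5 (by positivity)
    have h7 : Cp * 3 ^ (r + 1) / c * δ * (c * T ^ (r + 1)) =
        Cp * ((3 * T) ^ r * (3 * (δ * T))) := by
      rw [mul_pow, pow_succ, pow_succ]
      field_simp
    have h8 := mul_le_mul_of_nonneg_left h4 hCp.le
    linarith
  calc (A.card : ℝ) ≤ ((w * Q.card : ℕ) : ℝ) := by exact_mod_cast h1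
    _ = (w : ℝ) * Q.card := by push_cast; ring
    _ ≤ (Cp * 3 ^ (r + 1) / c * δ * (UF S T).card) * Q.card :=
      mul_le_mul_of_nonneg_right hwb (Nat.cast_nonneg _)
    _ = Cp * 3 ^ (r + 1) / c * δ * ((Q.card * (UF S T).card : ℕ) : ℝ) := by push_cast; ring
    _ = _ := by rw [hQc]; push_cast; ring

open Classical in
/-- tuples near to the walls -/
theorem bad (S : Finset (HeightOneSpectrum (𝓞 k))) (hs : 2 ≤ (Sp S).card)
    {N : Finset (Fin m → ℤ)} (hN : ∀ ν ∈ N, ν ≠ 0) {ε : ℝ} (hε : 0 < ε) :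
    ∃ δ T₀ : ℝ, 0 < δ ∧ ∀ T : ℝ, T₀ ≤ T →
      (((Bx m S T).filter fun u => ∃ v ∈ Sp S, ∃ ν ∈ N, |dt (dir u v) ν| < δ * T).card : ℝ) ≤
        ε * (UF S T).card ^ m := by
  have hch : ∀ (v : Sp S) (ν : N), ∃ C : ℝ, 0 < C ∧ ∀ T δ : ℝ, 1 ≤ T →
      1 ≤ δ * T → 0 < δ → (((Bx m S T).filter fun u => |dt (dir u v) ν| < δ * T).card : ℝ) ≤
        C * δ * (UF S T).card ^ m := fun v ν => bad1 S hs v.2 (hN ν.1 ν.2)
  choose C hC0 hC using hch
  set Ct : ℝ := ∑ v, ∑ ν, C v ν with hCt
  have hCt0 : 0 ≤ Ct := Finset.sum_nonneg fun v _ => Finset.sum_nonneg fun ν _ => (hC0 v ν).le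
  set δ : ℝ := ε / (Ct + 1) with hδ
  have hδ0 : 0 < δ := by positivity
  refine ⟨δ, max 1 (1 / δ), hδ0, fun T hT => ?_⟩
  have hT1 : 1 ≤ T := (le_max_left _ _).trans hT
  have hT2 : 1 ≤ δ * T := by
    have := (le_max_right _ _).trans hT
    rwa [div_le_iff₀ hδ0, mul_comm] at this
  have h1 : ((Bx m S T).filter fun u => ∃ v ∈ Sp S, ∃ ν ∈ N, |dt (dir u v) ν| < δ * T) ⊆
      (Finset.univ : Finset (Sp S)).biUnion fun v => (Finset.univ : Finset N).biUnion fun ν =>
        (Bx m S T).filter fun u => |dt (dir u v) ν| < δ * T := by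
    intro u hu
    obtain ⟨h2, v, hv, ν, hν, h3⟩ := Finset.mem_filter.1 hu
    exact Finset.mem_biUnion.2 ⟨⟨v, hv⟩, Finset.mem_univ _, Finset.mem_biUnion.2
      ⟨⟨ν, hν⟩, Finset.mem_univ _, Finset.mem_filter.2 ⟨h2, h3⟩⟩⟩
  have h2 : ((((Bx m S T).filter fun u => ∃ v ∈ Sp S, ∃ ν ∈ N,
      |dt (dir u v) ν| < δ * T).card : ℕ) : ℝ) ≤ ∑ v : Sp S, ∑ ν : N,
        (((Bx m S T).filter fun u => |dt (dir u v) ν| < δ * T).card : ℝ) := by
    have h3 := (Finset.card_le_card h1).trans (Finset.card_biUnion_le.trans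
      (Finset.sum_le_sum fun v _ => Finset.card_biUnion_le))
    exact_mod_cast h3
  refine h2.trans ((Finset.sum_le_sum fun v _ => Finset.sum_le_sum fun ν _ =>
    hC v ν T δ hT1 hT2 hδ0).trans ?_)
  have h3 : ∑ v : Sp S, ∑ ν : N, C v ν * δ * ((UF S T).card : ℝ) ^ m =
      Ct * δ * (UF S T).card ^ m := by
    rw [hCt, Finset.sum_mul, Finset.sum_mul]
    refine Finset.sum_congr rfl fun v _ => ?_
    rw [Finset.sum_mul, Finset.sum_mul]
  rw [h3]
  refine mul_le_mul_of_nonneg_right ?_ (by positivity)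
  have h4 : (Ct + 1) * δ = ε := by
    rw [hδ]
    field_simp
  linarith

end Pool.Agent.Run7.h489.TM
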