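import Mathlib
import Pool.Agent.Run7.h489.TM.Cnt

set_option autoImplicit false
set_option linter.unusedSectionVars false

/-!
Almost all members of a family of Thue-Mahler equations.
-/

namespace Pool.Agent.Run7.h489.TM

open Height NumberField IsDedekindDomain
open Pool.Agent.W180.OP (Pl av wt fv nrm wt_nonneg le_nrm exists_nrm nrm_pos)
open Pool.Agent.R404.TC (Sp)
open Pool.Agent.Run7.h489.LV (IsU IsI prod_formula abs_log_le wt_pos mem_Sp_inl)

variable {k : Type} [Field k] [NumberField k] {m : ℕ}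

open Classical in
theorem fam (S : Finset (HeightOneSpectrum (𝓞 k))) (hS : 2 ≤ (Sp S).card)
    (F : ((Fin m → ℤ) × ℕ) →₀ k) {n : ℕ} (hn : 2 ≤ n)
    (hF : ∀ e ∈ F.support, e.2 ≤ n)
    (hiso : ¬ ∃ κ μ : Fin m → ℤ, ∀ e ∈ F.support, e.1 + e.2 • κ = μ)
    {N : Finset (Fin m → ℤ)} (hN0 : ∀ ν ∈ N, ν ≠ 0)
    (hN : ∀ θ : Fin m → ℝ, (∀ ν ∈ N, dt θ ν ≠ 0) → ∃ κ μ, IsChart F n κ μ ∧
      ∀ e ∈ F.support, e.1 + e.2 • κ ≠ μ → dt θ (e.1 + e.2 • κ) < dt θ μ)
    {ε B : ℝ} (hε : 0 < ε) (hB : 0 ≤ B) :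
    ∃ (R : Finset (((Fin m → ℤ) →₀ k) × ((Fin m → ℤ) →₀ k))) (T₀ : ℝ),
      ∀ T : ℝ, T₀ ≤ T →
        (((Bx m S T).filter fun u => ∃ s : k, val F u s ≠ 0 ∧
          (∀ v ∉ S, max (fv v s) 1 ^ n ≤ fv v (val F u s)) ∧ logHeight₁ s ≤ B * T ∧
          ∀ p ∈ R, ev p.1 u = 0 ∨ ev p.1 u * s + ev p.2 u ≠ 0).card : ℝ) ≤
            ε * (UF S T).card ^ m := by
  have hn1 : 1 ≤ n := by omega
  obtain ⟨i0⟩ : Nonempty (Fin m) := by
    by_contra h
    rw [not_nonempty_iff] at h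
    exact hiso ⟨0, 0, fun e _ => Subsingleton.elim _ _⟩
  have hm1 : 1 ≤ m := by have := i0.2; omega
  obtain ⟨x0⟩ : Nonempty (InfinitePlace k) := inferInstance
  have hv0 : (Sum.inl x0 : Pl k) ∈ Sp S := mem_Sp_inl x0
  set ν₀ : Fin m → ℤ := Pi.single i0 1 with hν₀
  have hν₀0 : ν₀ ≠ 0 := by
    intro h
    have := congrFun h i0
    rw [hν₀, Pi.single_eq_same] at this
    exact one_ne_zero this
  obtain ⟨C₀, hC₀, hC₀1⟩ : ∃ C₀ : ℝ, C₀ = ∑ i, |(ν₀ i : ℝ)| ∧ 1 ≤ C₀ := by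
    refine ⟨_, rfl, ?_⟩
    have h1 := Finset.single_le_sum (f := fun i => |(ν₀ i : ℝ)|) (fun _ _ => abs_nonneg _)
      (Finset.mem_univ i0)
    simpa [hν₀] using h1
  have hN1 : ∀ ν ∈ insert ν₀ (walls F hn1 N), ν ≠ 0 := by
    intro ν hν
    rcases Finset.mem_insert.1 hν with rfl | h
    · exact hν₀0
    · exact Finset.ne_of_mem_erase h
  obtain ⟨δ, T₁, hδ, hbad⟩ := bad S hS hN1 (half_pos hε)
  have hmpos : (0 : ℝ) < m := by exact_mod_cast hm1
  obtain ⟨Z, C, hZ, hgen⟩ := generic (S := S) F hn hn1 hF hiso hN0 hN (δ := δ / m)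
    (B := B * C₀ / δ) (by positivity) (by positivity)
  -- the vertical part
  set q : (((Fin m → ℤ) →₀ k) × ((Fin m → ℤ) →₀ k)) → ((Fin m → ℤ) →₀ k) := fun p =>
    if p.1 = 0 then p.2 else p.1 with hq
  have hq0 : ∀ p ∈ Z, q p ≠ 0 := by
    intro p hp h0
    by_cases h : p.1 = 0
    · simp only [hq, if_pos h] at h0
      exact hZ p hp (Prod.ext h h0)
    · simp only [hq, if_neg h] at h0
      exact h h0
  have hzip : ∀ p : Z, ∃ D : ℕ, ∀ T : ℝ, 0 ≤ T →
      ((Bx m S T).filter fun u => ev (q p.1) u = 0).card * (UF S T).card ≤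
        D * (UF S T).card ^ m := fun p => zip S (hq0 p.1 p.2)
  choose D hD using hzip
  obtain ⟨c, hc, hmn⟩ := many' S
  obtain ⟨Dt, hDt⟩ : ∃ Dt : ℝ, Dt = ∑ p, (D p : ℝ) := ⟨_, rfl⟩
  have hDt0 : 0 ≤ Dt := by rw [hDt]; exact Finset.sum_nonneg fun _ _ => Nat.cast_nonneg _
  refine ⟨Z, max (max T₁ 1) (max (C₀ * (|C| + 1) / δ) (2 * Dt / ε / c)), fun T hT => ?_⟩
  have hT1 : T₁ ≤ T := ((le_max_left _ _).trans (le_max_left _ _)).trans hT
  have hT2 : 1 ≤ T := ((le_max_right _ _).trans (le_max_left _ _)).trans hT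
  have hT3 : C₀ * (|C| + 1) / δ ≤ T := ((le_max_left _ _).trans (le_max_right _ _)).trans hT
  have hT4 : 2 * Dt / ε / c ≤ T := ((le_max_right _ _).trans (le_max_right _ _)).trans hT
  have hUpos : (0 : ℝ) < (UF S T).card := by exact_mod_cast UF_pos (S := S) (by linarith : 0 ≤ T)
  have hincl : ((Bx m S T).filter fun u => ∃ s : k, val F u s ≠ 0 ∧
          (∀ v ∉ S, max (fv v s) 1 ^ n ≤ fv v (val F u s)) ∧ logHeight₁ s ≤ B * T ∧
          ∀ p ∈ Z, ev p.1 u = 0 ∨ ev p.1 u * s + ev p.2 u ≠ 0) ⊆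
      ((Bx m S T).filter fun u => ∃ v ∈ Sp S, ∃ ν ∈ insert ν₀ (walls F hn1 N),
        |dt (dir u v) ν| < δ * T) ∪
      (Finset.univ : Finset Z).biUnion fun p =>
        (Bx m S T).filter fun u => ev (q p.1) u = 0 := by
    intro u hu
    obtain ⟨huB, s, hval, hint, hsB, hoff⟩ := Finset.mem_filter.1 hu
    rw [Finset.mem_union]
    by_cases hb : ∃ v ∈ Sp S, ∃ ν ∈ insert ν₀ (walls F hn1 N), |dt (dir u v) ν| < δ * T
    · exact Or.inl (Finset.mem_filter.2 ⟨huB, hb⟩)
    right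
    push Not at hb
    have hU := mem_Bx.1 huB
    have hhs : hs u ≤ m * T := by
      unfold hs
      refine (Finset.sum_le_sum fun i _ => (hU i).2).trans ?_
      rw [Finset.sum_const, Finset.card_univ, Fintype.card_fin, nsmul_eq_mul]
    have hlow : δ * T ≤ C₀ * hs u := by
      rw [hC₀]
      exact (hb _ hv0 ν₀ (Finset.mem_insert_self _ _)).trans
        (abs_dt_le (fun i => (hU i).1) hv0 ν₀)
    by_contra hcon
    have hall : ∀ p ∈ Z, ev p.1 u * s + ev p.2 u ≠ 0 := by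
      intro p hp h0
      apply hcon
      refine Finset.mem_biUnion.2 ⟨⟨p, hp⟩, Finset.mem_univ _, Finset.mem_filter.2 ⟨huB, ?_⟩⟩
      show ev (q p) u = 0
      by_cases hp1 : p.1 = 0
      · simp only [hq, if_pos hp1]
        rw [hp1, ev_zero, zero_mul, zero_add] at h0
        exact h0
      · simp only [hq, if_neg hp1]
        rcases hoff p hp with h | h
        · exact h
        · exact absurd h0 h
    have h1 := hgen u s (fun i => (hU i).1) hval hint (by
      have h2 : B * T ≤ B * C₀ / δ * hs u := by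
        have h3 : B * (δ * T) ≤ B * (C₀ * hs u) := mul_le_mul_of_nonneg_left hlow hB
        rw [div_mul_eq_mul_div, le_div_iff₀ hδ]
        linarith
      exact hsB.trans h2) hall (by
      intro v hv ν hν
      refine le_trans ?_ (hb v hv ν (Finset.mem_insert_of_mem hν))
      have h2 : δ / m * hs u ≤ δ / m * (m * T) :=
        mul_le_mul_of_nonneg_left hhs (by positivity)
      have h3 : δ / m * (m * T) = δ * T := by field_simp
      linarith)
    have h2 : C₀ * hs u ≤ C₀ * |C| := by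
      refine mul_le_mul_of_nonneg_left (h1.trans (le_abs_self C)) (by linarith)
    rw [div_le_iff₀ hδ] at hT3
    nlinarith
  have h1 := Finset.card_le_card hincl
  have h2 : (((Finset.univ : Finset Z).biUnion fun p =>
        (Bx m S T).filter fun u => ev (q p.1) u = 0).card : ℝ) ≤ ε / 2 * (UF S T).card ^ m := by
    have h3 : (((Finset.univ : Finset Z).biUnion fun p =>
        (Bx m S T).filter fun u => ev (q p.1) u = 0).card : ℝ) ≤
        ∑ p : Z, (((Bx m S T).filter fun u => ev (q p.1) u = 0).card : ℝ) := by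
      exact_mod_cast Finset.card_biUnion_le
    have h4 : ∀ p ∈ (Finset.univ : Finset Z),
        (((Bx m S T).filter fun u => ev (q p.1) u = 0).card : ℝ) ≤
          D p * ((UF S T).card ^ m / (UF S T).card) := by
      intro p _
      have h5 := hD p T (by linarith)
      rw [← mul_div_assoc, le_div_iff₀ hUpos]
      exact_mod_cast h5
    refine h3.trans ((Finset.sum_le_sum h4).trans ?_)
    rw [← Finset.sum_mul]
    have h5 : ∑ p : Z, (D p : ℝ) ≤ Dt := hDt.ge
    have h6 : Dt ≤ ε / 2 * (UF S T).card := by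
      have h7 := hmn T (by linarith)
      have h8 : T ≤ T ^ ((Sp S).card - 1) := le_self_pow₀ hT2 (by omega)
      have h9 : c * T ≤ (UF S T).card := (mul_le_mul_of_nonneg_left h8 hc.le).trans h7
      rw [div_div, div_le_iff₀ (by positivity)] at hT4
      nlinarith
    have h7 : (0 : ℝ) ≤ (UF S T).card ^ m / (UF S T).card := by positivity
    calc (∑ p : Z, (D p : ℝ)) *
          ((UF S T).card ^ m / (UF S T).card) ≤
          (ε / 2 * (UF S T).card) * ((UF S T).card ^ m / (UF S T).card) :=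
        mul_le_mul_of_nonneg_right (h5.trans h6) h7
      _ = ε / 2 * (UF S T).card ^ m := by
        field_simp
  have h3 := hbad T hT1
  have h4 : ((((Bx m S T).filter fun u => ∃ s : k, val F u s ≠ 0 ∧
          (∀ v ∉ S, max (fv v s) 1 ^ n ≤ fv v (val F u s)) ∧ logHeight₁ s ≤ B * T ∧
          ∀ p ∈ Z, ev p.1 u = 0 ∨ ev p.1 u * s + ev p.2 u ≠ 0).card : ℕ) : ℝ) ≤
      (((Bx m S T).filter fun u => ∃ v ∈ Sp S, ∃ ν ∈ insert ν₀ (walls F hn1 N),
        |dt (dir u v) ν| < δ * T).card : ℝ) +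
      (((Finset.univ : Finset Z).biUnion fun p =>
        (Bx m S T).filter fun u => ev (q p.1) u = 0).card : ℝ) := by
    exact_mod_cast h1.trans (Finset.card_union_le _ _)
  linarith

end Pool.Agent.Run7.h489.TM
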