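import Mathlib
import Pool.Agent.Run7.h489.TM.Fam

set_option autoImplicit false
set_option linter.unusedSectionVars false

/-!
Hyperplanes and a hypersurface.
-/

namespace Pool.Agent.Run7.h489.TM

open Polynomial

variable {K : Type} [Field K] {m : ℕ}

/-- the exponents of a monomial in `u_1, ..., u_m, s` -/
def expo (d : Option (Fin m) →₀ ℕ) : (Fin m → ℤ) × ℕ := (fun i => (d (some i) : ℤ), d none)

theorem expo_inj : Function.Injective (expo (m := m)) := by
  intro d d' h
  ext o
  rcases o with _ | i
  · exact congrArg Prod.snd h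
  · have h1 : ((d (some i) : ℕ) : ℤ) = (d' (some i) : ℕ) := congrFun (congrArg Prod.fst h) i
    exact_mod_cast h1

/-- a polynomial as a Laurent polynomial in `u` and polynomial in `s` -/
noncomputable def toF (f : MvPolynomial (Option (Fin m)) K) : ((Fin m → ℤ) × ℕ) →₀ K :=
  ∑ d ∈ f.support, Finsupp.single (expo d) (f.coeff d)

theorem toF_apply (f : MvPolynomial (Option (Fin m)) K) (d : Option (Fin m) →₀ ℕ) :
    toF f (expo d) = f.coeff d := by
  classical
  unfold toF
  rw [Finsupp.finsetSum_apply]
  by_cases h : d ∈ f.support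
  · rw [Finset.sum_eq_single d]
    · rw [Finsupp.single_eq_same]
    · intro d' _ hne
      rw [Finsupp.single_eq_of_ne]
      exact fun h' => hne (expo_inj h'.symm)
    · intro h'
      exact absurd h h'
  · rw [MvPolynomial.notMem_support_iff.1 h]
    refine Finset.sum_eq_zero fun d' hd' => ?_
    rw [Finsupp.single_eq_of_ne]
    intro h'
    exact h ((expo_inj h') ▸ hd')

theorem exists_expo {f : MvPolynomial (Option (Fin m)) K} {e : (Fin m → ℤ) × ℕ}
    (he : e ∈ (toF f).support) : ∃ d ∈ f.support, e = expo d := by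
  classical
  by_contra hcon
  push Not at hcon
  apply Finsupp.mem_support_iff.1 he
  unfold toF
  rw [Finsupp.finsetSum_apply]
  refine Finset.sum_eq_zero fun d hd => ?_
  rw [Finsupp.single_eq_of_ne (hcon d hd)]

theorem val_toF (f : MvPolynomial (Option (Fin m)) K) (u : Fin m → K) (s : K) :
    val (toF f) u s = MvPolynomial.eval (fun o => Option.elim o s u) f := by
  classical
  have hsupp : (toF f).support = f.support.image expo := by
    ext e
    constructor
    · intro he
      obtain ⟨d, hd, rfl⟩ := exists_expo he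
      exact Finset.mem_image_of_mem _ hd
    · intro he
      obtain ⟨d, hd, rfl⟩ := Finset.mem_image.1 he
      rw [Finsupp.mem_support_iff, toF_apply]
      exact MvPolynomial.mem_support_iff.1 hd
  rw [val_eq, hsupp, Finset.sum_image fun d _ d' _ h => expo_inj h, MvPolynomial.eval_eq']
  refine Finset.sum_congr rfl fun d _ => ?_
  rw [toF_apply, Fintype.prod_option]
  congr 1
  rw [mul_comm]
  congr 1
  unfold mono expo
  refine Finset.prod_congr rfl fun i _ => ?_
  rw [zpow_natCast]
  rfl

/-- the restriction of the homogenisation to the line through the origin and `P_y` -/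
noncomputable def line0 (f : MvPolynomial (Option (Fin m)) K) (n : ℕ) : K[X] :=
  ∑ j ∈ Finset.range (n + 1), monomial j (f.coeff (Finsupp.single none j))

/-- the restriction of the homogenisation to the line through `P_i` and `P_y` -/
noncomputable def line (f : MvPolynomial (Option (Fin m)) K) (n : ℕ) (i : Fin m) : K[X] :=
  ∑ j ∈ Finset.range (n + 1),
    monomial j (f.coeff (Finsupp.single none j + Finsupp.single (some i) (n - j)))

theorem deg_le {f : MvPolynomial (Option (Fin m)) K} {n : ℕ} (hf : f.totalDegree ≤ n)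
    {d : Option (Fin m) →₀ ℕ} (hd : d ∈ f.support) : d none + ∑ i, d (some i) ≤ n := by
  have h1 := (MvPolynomial.le_totalDegree hd).trans hf
  rw [Finsupp.sum_fintype _ _ (fun _ => rfl), Fintype.sum_option] at h1
  exact h1

theorem sum_monomial_coeff {n : ℕ} (c : ℕ → K) (j : ℕ) :
    (∑ i ∈ Finset.range (n + 1), monomial i (c i)).coeff j = if j ≤ n then c j else 0 := by
  rw [finsetSum_coeff]
  by_cases h : j ≤ n
  · rw [if_pos h, Finset.sum_eq_single j]
    · rw [coeff_monomial, if_pos rfl]
    · intro i _ hne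
      rw [coeff_monomial, if_neg hne]
    · intro h'
      exact absurd (Finset.mem_range.2 (by omega)) h'
  · rw [if_neg h]
    refine Finset.sum_eq_zero fun i hi => ?_
    rw [coeff_monomial, if_neg]
    rintro rfl
    exact h (by rw [Finset.mem_range] at hi; omega)

theorem gpol_line0 {f : MvPolynomial (Option (Fin m)) K} {n : ℕ} (hf : f.totalDegree ≤ n) :
    gpol (toF f) 0 0 = line0 f n := by
  ext j
  unfold line0
  rw [coeff_gpol, sum_monomial_coeff]
  have h1 : ((0 : Fin m → ℤ) - j • 0, j) = expo (Finsupp.single none j) := by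
    refine Prod.ext ?_ ?_
    · funext i
      simp [expo]
    · simp [expo]
  rw [h1, toF_apply]
  split_ifs with h
  · rfl
  · by_contra h2
    have h3 := deg_le hf (MvPolynomial.mem_support_iff.2 h2)
    rw [Finsupp.single_eq_same] at h3
    omega

theorem gpol_line {f : MvPolynomial (Option (Fin m)) K} {n : ℕ} (hf : f.totalDegree ≤ n)
    (i : Fin m) : gpol (toF f) (Pi.single i 1) (n • Pi.single i 1) = line f n i := by
  ext j
  unfold line
  rw [coeff_gpol, sum_monomial_coeff]
  split_ifs with h
  · have h1 : ((n • Pi.single i 1 : Fin m → ℤ) - j • Pi.single i 1, j) =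
        expo (Finsupp.single none j + Finsupp.single (some i) (n - j)) := by
      refine Prod.ext ?_ ?_
      · funext i'
        simp only [expo, Pi.sub_apply, Pi.smul_apply, Finsupp.add_apply]
        by_cases hi : i' = i
        · subst hi
          simp
          omega
        · rw [Pi.single_eq_of_ne hi, Finsupp.single_eq_of_ne (by simp),
            Finsupp.single_eq_of_ne (by simpa using hi)]
          simp
      · simp [expo]
    rw [h1, toF_apply]
  · by_contra h2
    obtain ⟨d, hd, hd2⟩ := exists_expo (Finsupp.mem_support_iff.2 h2)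
    have h3 := deg_le hf hd
    have h4 : d none = j := (congrArg Prod.snd hd2).symm
    omega

/-- `g` is separable, of degree `n` and not divisible by `X` -/
def Nice (g : K[X]) (n : ℕ) : Prop := g.natDegree = n ∧ g.coeff 0 ≠ 0 ∧ g.Separable

theorem dt_single (θ : Fin m → ℝ) (i : Fin m) : dt θ (Pi.single i 1) = θ i := by
  unfold dt
  rw [Finset.sum_eq_single i]
  · rw [Pi.single_eq_same]
    push_cast
    ring
  · intro j _ hj
    rw [Pi.single_eq_of_ne hj]
    push_cast
    ring
  · intro h
    exact absurd (Finset.mem_univ _) h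

/-- the walls of projective space -/
noncomputable def wl (m : ℕ) : Finset (Fin m → ℤ) :=
  (Finset.univ.image fun i => Pi.single i 1) ∪
    ((Finset.univ.filter fun p : Fin m × Fin m => p.1 ≠ p.2).image fun p =>
      Pi.single p.1 1 - Pi.single p.2 1)

theorem wl_ne {ν : Fin m → ℤ} (hν : ν ∈ wl m) : ν ≠ 0 := by
  rcases Finset.mem_union.1 hν with h | h
  · obtain ⟨i, -, rfl⟩ := Finset.mem_image.1 h
    intro h0
    have := congrFun h0 i
    rw [Pi.single_eq_same] at this
    exact one_ne_zero this
  · obtain ⟨p, hp, rfl⟩ := Finset.mem_image.1 h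
    intro h0
    have h1 := congrFun h0 p.1
    rw [Pi.sub_apply, Pi.single_eq_same, Pi.single_eq_of_ne (Finset.mem_filter.1 hp).2] at h1
    simp at h1

theorem nondeg {f : MvPolynomial (Option (Fin m)) K} {n : ℕ} (hf : f.totalDegree ≤ n)
    (h0 : Nice (line0 f n) n) (h1 : ∀ i, Nice (line f n i) n) (θ : Fin m → ℝ)
    (hθ : ∀ ν ∈ wl m, dt θ ν ≠ 0) : ∃ κ μ, IsChart (toF f) n κ μ ∧
      ∀ e ∈ (toF f).support, e.1 + e.2 • κ ≠ μ → dt θ (e.1 + e.2 • κ) < dt θ μ := by
  have hθ1 : ∀ i, θ i ≠ 0 := by
    intro i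
    have := hθ (Pi.single i 1) (Finset.mem_union_left _ (Finset.mem_image_of_mem _
      (Finset.mem_univ i)))
    rwa [dt_single] at this
  have hθ2 : ∀ i j, i ≠ j → θ i ≠ θ j := by
    intro i j hij
    have := hθ (Pi.single i 1 - Pi.single j 1) (Finset.mem_union_right _
      (Finset.mem_image.2 ⟨(i, j), Finset.mem_filter.2 ⟨Finset.mem_univ _, hij⟩, rfl⟩))
    rw [dt_sub, dt_single, dt_single] at this
    exact sub_ne_zero.1 this
  have hexp : ∀ d : Option (Fin m) →₀ ℕ, dt θ (expo d).1 = ∑ i, (d (some i) : ℝ) * θ i := by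
    intro d
    unfold dt expo
    refine Finset.sum_congr rfl fun i _ => ?_
    push_cast
    rfl
  by_cases hneg : ∀ i, θ i < 0
  · refine ⟨0, 0, ⟨?_, ?_, ?_⟩, ?_⟩
    · rw [gpol_line0 hf]; exact h0.1
    · rw [gpol_line0 hf]; exact h0.2.1
    · rw [gpol_line0 hf]; exact h0.2.2
    · intro e he hne
      obtain ⟨d, hd, rfl⟩ := exists_expo he
      rw [smul_zero, add_zero] at hne ⊢
      have e0 : dt θ 0 = 0 := by simp [dt]
      rw [e0, hexp]
      obtain ⟨i, hi⟩ := Function.ne_iff.1 hne
      have hi' : d (some i) ≠ 0 := fun h => hi (by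
        show ((d (some i) : ℕ) : ℤ) = 0
        rw [h]; rfl)
      have h2 : ∀ j, (d (some j) : ℝ) * θ j ≤ 0 := fun j =>
        mul_nonpos_of_nonneg_of_nonpos (Nat.cast_nonneg _) (hneg j).le
      refine (Finset.sum_lt_sum (fun j _ => h2 j) ⟨i, Finset.mem_univ _, ?_⟩).trans_le
        (Finset.sum_const_zero).le
      exact mul_neg_of_pos_of_neg (by exact_mod_cast Nat.pos_of_ne_zero hi') (hneg i)
  · push Not at hneg
    obtain ⟨i1, hi1⟩ := hneg
    have hne : Nonempty (Fin m) := ⟨i1⟩
    obtain ⟨i, hi⟩ := Finite.exists_max θ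
    have hipos : 0 < θ i := lt_of_lt_of_le (lt_of_le_of_ne hi1 (hθ1 i1).symm) (hi i1)
    refine ⟨Pi.single i 1, n • Pi.single i 1, ⟨?_, ?_, ?_⟩, ?_⟩
    · rw [gpol_line hf]; exact (h1 i).1
    · rw [gpol_line hf]; exact (h1 i).2.1
    · rw [gpol_line hf]; exact (h1 i).2.2
    · intro e he hne'
      obtain ⟨d, hd, rfl⟩ := exists_expo he
      have h2 := deg_le hf hd
      rw [dt_add, dt_nsmul, dt_nsmul, dt_single, hexp]
      have h3 : ((expo d).2 : ℝ) = d none := rfl
      rw [h3]
      have h4 : ∀ j, (d (some j) : ℝ) * θ j ≤ d (some j) * θ i := fun j =>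
        mul_le_mul_of_nonneg_left (hi j) (Nat.cast_nonneg _)
      have h5 : ((d none : ℝ) + ∑ j, (d (some j) : ℝ)) ≤ n := by exact_mod_cast h2
      rcases lt_or_eq_of_le h2 with h6 | h6
      · have h7 : ((d none : ℝ) + ∑ j, (d (some j) : ℝ)) < n := by exact_mod_cast h6
        have h8 := Finset.sum_le_sum fun j (_ : j ∈ Finset.univ) => h4 j
        rw [← Finset.sum_mul] at h8
        nlinarith
      · obtain ⟨j, hj, hdj⟩ : ∃ j, j ≠ i ∧ d (some j) ≠ 0 := by
          by_contra hcon
          push Not at hcon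
          apply hne'
          have h7 : ∑ j, d (some j) = d (some i) := Finset.sum_eq_single i
            (fun j _ hj => hcon j hj) (fun h => absurd (Finset.mem_univ _) h)
          funext j
          show ((d (some j) : ℕ) : ℤ) + (d none • (Pi.single i 1 : Fin m → ℤ)) j =
            (n • (Pi.single i 1 : Fin m → ℤ)) j
          rw [Pi.smul_apply, Pi.smul_apply]
          by_cases hj : j = i
          · subst hj
            rw [Pi.single_eq_same]
            simp only [nsmul_eq_mul, mul_one]
            omega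
          · rw [Pi.single_eq_of_ne hj, hcon j hj]
            simp
        have h7 : ∑ j, (d (some j) : ℝ) * θ j < ∑ j, (d (some j) : ℝ) * θ i := by
          refine Finset.sum_lt_sum (fun j _ => h4 j) ⟨j, Finset.mem_univ _, ?_⟩
          exact mul_lt_mul_of_pos_left (lt_of_le_of_ne (hi j) (hθ2 j i hj))
            (by exact_mod_cast Nat.pos_of_ne_zero hdj)
        rw [← Finset.sum_mul] at h7
        nlinarith

theorem not_iso {f : MvPolynomial (Option (Fin m)) K} {n : ℕ} (hn : 1 ≤ n)
    (hf : f.totalDegree ≤ n) (h0 : Nice (line0 f n) n) (h1 : ∀ i, Nice (line f n i) n)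
    (hm : 1 ≤ m) : ¬ ∃ κ μ : Fin m → ℤ, ∀ e ∈ (toF f).support, e.1 + e.2 • κ = μ := by
  rintro ⟨κ, μ, h⟩
  have e1 : IsChart (toF f) n 0 0 := ⟨by rw [gpol_line0 hf]; exact h0.1,
    by rw [gpol_line0 hf]; exact h0.2.1, by rw [gpol_line0 hf]; exact h0.2.2⟩
  let i : Fin m := ⟨0, hm⟩
  have e2 : IsChart (toF f) n (Pi.single i 1) (n • Pi.single i 1) :=
    ⟨by rw [gpol_line hf]; exact (h1 i).1, by rw [gpol_line hf]; exact (h1 i).2.1,
      by rw [gpol_line hf]; exact (h1 i).2.2⟩
  have h2 := h _ e1.mem0
  have h3 := h _ e2.mem0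
  simp only [zero_smul, add_zero] at h2 h3
  rw [← h2] at h3
  have h4 := congrFun h3 i
  rw [Pi.smul_apply, Pi.single_eq_same] at h4
  simp at h4
  omega

end Pool.Agent.Run7.h489.TM
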